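import Mathlib
import Pool.Agent.Work.MP_8efaaa_nt.K6.Defs
import Pool.Agent.Work.MP_8efaaa_nt.K6.ARg
import Pool.Agent.Work.MP_8efaaa_nt.K6.ARm
import Pool.Agent.Work.MP_8efaaa_nt.W5.E1
import Pool.Agent.Work.MP_8efaaa_nt.W14.Defs

/-!
# Definitions of the block V6 (fixed file)

Congruent numbers `2 r p q`, `r = 3`, `p = q = 5 (mod 8)`. Notation: `PP z k v c` (W14/Defs) is the point of an odd
ideal `c`, `ep = (1, 0)`, `em = (-1, 0)`, `ez = (0, 0)`.
-/

set_option autoImplicit false

namespace Pool.Agent.Work.MP_8efaaa_nt.V6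

open NumberField Pool.Agent.Work.MP_8efaaa_nt.R Pool.Agent.Work.MP_8efaaa_nt.N5
  Pool.Agent.Work.MP_8efaaa_nt.K6 Pool.Agent.Work.MP_8efaaa_nt.W14
open scoped Classical nonZeroDivisors

noncomputable section

section points

variable (F : Type*) [Field F] [CharZero F]

/-- the group of the points modulo `(-1, 0)` -/
abbrev QB : Type _ := (cQ F).Point ⧸ AddSubgroup.zmultiples (em F)

variable {F}

/-- the class of a point -/
def qn : (cQ F).Point →+ QB F := QuotientAddGroup.mk' (AddSubgroup.zmultiples (em F))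

variable (F) in
/-- the class of `(0, 0)`, also of `(1, 0)` -/
def n1 : QB F := qn (ez F)

/-- the image of the kernel of reduction -/
def EB {Γ : Type*} [LinearOrderedCommGroupWithZero Γ] (V : Valuation F Γ) : AddSubgroup (QB F) :=
  (W5.E1 V).map qn

theorem gal_em {k : Type*} [Field k] [Algebra k F] (σ : F ≃ₐ[k] F) : gal σ (em F) = em F := by
  unfold W14.em
  rw [gal_pt, pt_inj, map_neg, map_one, map_zero]
  exact ⟨rfl, rfl⟩

/-- the action of an automorphism on the points modulo `(-1, 0)` -/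
def galB {k : Type*} [Field k] [Algebra k F] (σ : F ≃ₐ[k] F) : QB F →+ QB F :=
  QuotientAddGroup.map _ _ (gal σ) (by
    refine AddSubgroup.zmultiples_le_of_mem ?_
    rw [AddSubgroup.mem_comap, gal_em]
    exact AddSubgroup.mem_zmultiples _)

theorem galB_qn {k : Type*} [Field k] [Algebra k F] (σ : F ≃ₐ[k] F) (R : (cQ F).Point) :
    galB σ (qn R) = qn (gal σ R) := rfl

variable (F) in
/-- `0` if `n = 1 (mod 16)`, else `n1` -/
def dd (n : ℕ) : QB F := if n % 16 = 1 then 0 else n1 F

end points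

section ideals

variable {K F : Type*} [Field K] [NumberField K] [Field F] [CharZero F]

/-- the class modulo `(-1, 0)` of the point of an ideal -/
def PB (z k v : Ideal (𝓞 K) → F) (c : Ideal (𝓞 K)) : QB F := qn (PP z k v c)

variable (K) in
/-- the ideals of norm `1` modulo `8` -/
def M1 : Submonoid (Ideal (𝓞 K)) where
  carrier := {c | Ideal.absNorm c % 8 = 1}
  one_mem' := by
    show Ideal.absNorm (1 : Ideal (𝓞 K)) % 8 = 1
    rw [map_one]
    norm_num
  mul_mem' := by
    intro b c hb hc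
    show Ideal.absNorm (b * c) % 8 = 1
    rw [map_mul, Nat.mul_mod]
    have hb' : Ideal.absNorm b % 8 = 1 := hb
    have hc' : Ideal.absNorm c % 8 = 1 := hc
    rw [hb', hc']

theorem M1.nrm {c : Ideal (𝓞 K)} (hc : c ∈ M1 K) : Ideal.absNorm c % 8 = 1 := hc

theorem M1.ne {c : Ideal (𝓞 K)} (hc : c ∈ M1 K) : c ≠ 0 := by
  rintro rfl
  have h := M1.nrm hc
  rw [map_zero] at h
  norm_num at h

theorem M1.odd {c : Ideal (𝓞 K)} (hc : c ∈ M1 K) : OddI c := by
  unfold OddI
  rw [Nat.odd_iff]
  have h := M1.nrm hc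
  omega

/-- the class in `CG S` of an ideal of norm `1` modulo `8` -/
def clN (S : 𝓞 K) : M1 K →* CG S where
  toFun c := QuotientGroup.mk (cls (c : Ideal (𝓞 K)))
  map_one' := by
    show QuotientGroup.mk (cls (1 : Ideal (𝓞 K))) = _
    rw [cls_one]
    rfl
  map_mul' b c := by
    show QuotientGroup.mk (cls ((b : Ideal (𝓞 K)) * (c : Ideal (𝓞 K)))) = _
    rw [cls_mul (M1.ne b.2) (M1.ne c.2)]
    rfl

/-- `f` is the function of the classes given by the points -/
def HPi (S : 𝓞 K) (z k v : Ideal (𝓞 K) → F) (f : CG S → QB F) : Prop :=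
  ∀ c : M1 K, PB z k v c + dd F (Ideal.absNorm (c : Ideal (𝓞 K))) = f (clN S c)

end ideals

end

end Pool.Agent.Work.MP_8efaaa_nt.V6
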