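import Mathlib
import Pool.Agent.Work.MP_8efaaa_nt.V6.Defs
import Pool.Agent.Work.MP_8efaaa_nt.W14.PVu
import Pool.Agent.Work.MP_8efaaa_nt.W14.PGa
import Pool.Agent.Work.MP_8efaaa_nt.W14.PTr
import Pool.Agent.Work.MP_8efaaa_nt.W14.PTq
import Pool.Agent.Work.MP_8efaaa_nt.W14.PFr

/-!
# V6/PEx (M-L): exact identities of the points

The same as `W14/PTr`, `PTq`, `PFr` (they work modulo `ep`), but exactly; look at their proofs (copy private lemmas). `ez + (x, y) = (-1/x, y/x^2)`.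
nat_px: `UD6.tr1` with `y = 0`: for `e8 n = 1` nothing changes; for `e8 n = -1`: `z ↦ -z`, so `X = (1+z)/k ↦ (1-z)/k = -1/X` (`z^2 = 1 + k^2`), `Y ↦ Y/X^2`.
gal_T: `T = pt x y h` with `x^2 = -1` (doubling: `X(2T) = ((x^2+1)/(2y))^2 = 0`), `y^2 = x^3 - x = -2x`, `(1-x)^2 = -2x`, so `y = ±(1 - x)`, `x = ± ζ^2`; `σ x = -x`, `σ y = ±(1 + x)`, and `T + (-1,0) = (-x, ±(1+x))` (line through `T` and `(-1,0)`: slope `±(1-x)/(x+1) = ∓x`).
tq_px: by `UD6.trq` (`1 + S = 1 + 1 s`) `T c = PP ((1+S) c) + PP c` satisfies `T c + T c = ez` (see PTq). For odd `c` take `σ` with `UD6.mov c`: `σ` maps `PP b` to `PP (c b)` (`gal_pp`), so `T c = gal σ (T 1)`, and `σ (ζ^2) = ζ^(2 N c) = ± ζ^2`, so `T c = T 1` or `T 1 + em` (gal_T).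
fr_px: the same with `fr1`, `fr2`: `T c = PP (r6 S (a/2) c) + PP c`, `T c + T c = ep`, so `T c = pt x y h` with `(x-1)^2 = 2`, `y^2 = 2 x^2`... (`T = (1+ρ, ±ρ(1+ρ))`, `ρ^2 = 2`), and `σ ρ = e8 (N c) ρ`; `T + ez = (1-ρ, ∓ρ(1-ρ))`.
-/

set_option autoImplicit false

namespace Pool.Agent.Work.MP_8efaaa_nt.V6

open NumberField Pool.Agent.Work.MP_8efaaa_nt.R Pool.Agent.Work.MP_8efaaa_nt.N5
  Pool.Agent.Work.MP_8efaaa_nt.K6 Pool.Agent.Work.MP_8efaaa_nt.W14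
open scoped Classical nonZeroDivisors

variable {K F : Type*} [Field K] [NumberField K] [Field F] [NumberField F] [Algebra K F] {a : ℕ}
  {s : K} {S : 𝓞 K} {τ : 𝓞 K ≃+* 𝓞 K} {ζ : F} {w : ℕ → F} {z k v : Ideal (𝓞 K) → F}
  {κ : F ≃ₐ[ℚ] F}


omit [NumberField F] in
private theorem add_eq [CharZero F] {x1 y1 x2 y2 x3 y3 L : F} (h1 : y1 ^ 2 = x1 ^ 3 - x1)
    (h2 : y2 ^ 2 = x2 ^ 3 - x2) (hx : x1 ≠ x2) (hL : L = (y1 - y2) / (x1 - x2))
    (h3x : x3 = L ^ 2 - x1 - x2) (h3y : y3 = -(L * (x3 - x1) + y1)) :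
    ∃ h3, pt x1 y1 h1 + pt x2 y2 h2 = pt x3 y3 h3 := by
  have hn := WeierstrassCurve.Affine.nonsingular_add (cQ_nonsingular.2 h1) (cQ_nonsingular.2 h2)
    (fun hc => hx hc.1)
  have hs : (cQ F).slope x1 x2 y1 y2 = L := by
    rw [WeierstrassCurve.Affine.slope_of_X_ne hx, hL]
  have eX : (cQ F).addX x1 x2 ((cQ F).slope x1 x2 y1 y2) = x3 := by
    rw [hs, h3x]
    simp only [WeierstrassCurve.Affine.addX, cQ]
    ring
  have eY : (cQ F).addY x1 x2 y1 ((cQ F).slope x1 x2 y1 y2) = y3 := by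
    simp only [WeierstrassCurve.Affine.addY, WeierstrassCurve.Affine.negAddY, eX]
    rw [hs, h3y]
    simp only [WeierstrassCurve.Affine.negY, cQ]
    ring
  refine ⟨?_, ?_⟩
  · have h3 := cQ_nonsingular.1 hn
    rw [eX, eY] at h3
    exact h3
  · unfold pt
    rw [WeierstrassCurve.Affine.Point.add_of_X_ne hx,
      WeierstrassCurve.Affine.Point.some.injEq]
    exact ⟨eX, eY⟩

omit [NumberField F] in
private theorem add_ez [CharZero F] {x y : F} (h : y ^ 2 = x ^ 3 - x) (hx : x ≠ 0) :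
    ∃ h3, pt x y h + ez F = pt (-1 / x) (y / x ^ 2) h3 := by
  have h3x : -1 / x = (y / x) ^ 2 - x - 0 := by
    field_simp
    linear_combination -h
  unfold ez
  refine add_eq h _ hx rfl ?_ ?_
  · rw [sub_zero, sub_zero, sub_zero]
    rw [sub_zero] at h3x
    exact h3x
  · rw [sub_zero, sub_zero]
    field_simp
    ring

private theorem pp_congr {c c' : Ideal (𝓞 K)} (h1 : z c' = z c) (h2 : k c' = k c)
    (h3 : v c' = v c) : PP z k v c' = PP z k v c := by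
  unfold W14.PP
  rw [h1, h2, h3]

private theorem sq_T {F : Type*} [Field F] {c : F} (hc : c ^ 2 = -1) :
    (1 - c) ^ 2 = c ^ 3 - c := by
  linear_combination (1 - c) * hc

private theorem one_sub_ne {F : Type*} [Field F] [CharZero F] {c : F} (hc : c ^ 2 = -1) :
    1 - c ≠ 0 := by
  intro h
  have h1 : c = 1 := by linear_combination -h
  rw [h1] at hc
  have h2 : (2 : F) = 0 := by linear_combination hc
  exact two_ne_zero h2

private theorem add_T {F : Type*} [Field F] [CharZero F] {X Y c : F} (h : Y ^ 2 = X ^ 3 - X)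
    (hc : c ^ 2 = -1) (hX : X ≠ c) (h1 : (-Y) ^ 2 = X ^ 3 - X) (h2 : (1 - c) ^ 2 = c ^ 3 - c) :
    ∃ (x y : F) (hxy : y ^ 2 = x ^ 3 - x), pt X (-Y) h1 + pt c (1 - c) h2 = pt x y hxy ∧
      x * (X - c) ^ 2 = c * (X + c) ^ 2 + 2 * (1 - c) * Y ∧
      y * (X - c) ^ 3 = (X + c) * ((1 - c) * (X + c) ^ 2 - 4 * Y) := by
  have hn : (cQ F).Nonsingular ((cQ F).addX X c ((cQ F).slope X c (-Y) (1 - c)))
      ((cQ F).addY X c (-Y) ((cQ F).slope X c (-Y) (1 - c))) :=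
    WeierstrassCurve.Affine.nonsingular_add (cQ_nonsingular.2 h1) (cQ_nonsingular.2 h2)
      (fun hc => hX hc.1)
  have hd : X - c ≠ 0 := sub_ne_zero.2 hX
  have hl : (cQ F).slope X c (-Y) (1 - c) * (X - c) = -Y - (1 - c) := by
    rw [WeierstrassCurve.Affine.slope_of_X_ne hX]
    field_simp
  have hx : (cQ F).addX X c ((cQ F).slope X c (-Y) (1 - c)) * (X - c) ^ 2 =
      c * (X + c) ^ 2 + 2 * (1 - c) * Y := by
    generalize (cQ F).slope X c (-Y) (1 - c) = lam at hl ⊢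
    simp only [WeierstrassCurve.Affine.addX, cQ]
    linear_combination (lam * (X - c) + (-Y - (1 - c))) * hl + h + (-X - 2 * c + 1) * hc
  refine ⟨_, _, cQ_nonsingular.1 hn, ?_, hx, ?_⟩
  · unfold pt
    rw [WeierstrassCurve.Affine.Point.add_of_X_ne hX]
  · unfold WeierstrassCurve.Affine.addY WeierstrassCurve.Affine.negAddY
    generalize hx3 : (cQ F).addX X c ((cQ F).slope X c (-Y) (1 - c)) = x3 at hx ⊢
    generalize hlam : (cQ F).slope X c (-Y) (1 - c) = lam at hl ⊢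
    simp only [WeierstrassCurve.Affine.negY, cQ]
    linear_combination (-(x3 * (X - c) ^ 2 - X * (X - c) ^ 2)) * hl -
      (-Y - (1 - c)) * hx + (2 - 2 * c) * h + (4 * X * Y + 2 * X * c - 2 * X + 2 * Y) * hc

private theorem R_eqs {F : Type*} [Field F] {X Y c x : F} (h : Y ^ 2 = X ^ 3 - X)
    (hc : c ^ 2 = -1) (hX : X ≠ c)
    (hx : x * (X - c) ^ 2 = c * (X + c) ^ 2 + 2 * (1 - c) * Y) :
    (x ^ 2 + 1) * (X - c) ^ 4 = 4 * c * Y * ((1 - c) * (X + c) ^ 2 - 4 * Y) ∧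
      (x ^ 2 - 1) * (2 * c * (1 - c) * Y) = -((X + c) ^ 2 * (x ^ 2 + 1)) := by
  have hE : (x ^ 2 + 1) * (X - c) ^ 4 = 4 * c * Y * ((1 - c) * (X + c) ^ 2 - 4 * Y) := by
    linear_combination (x * (X - c) ^ 2 + (c * (X + c) ^ 2 + 2 * (1 - c) * Y)) * hx +
      (4 * c ^ 2 + 8 * c + 4) * h + (X ^ 4 + 4 * X ^ 3 * c + 4 * X ^ 3 + 6 * X ^ 2 * c ^ 2 +
        4 * X * c ^ 3 - 8 * X * c - 4 * X + c ^ 4) * hc
  have hk : (1 - c) * (2 * c * Y * ((1 - c) * (X + c) ^ 2 - 4 * Y) - (X - c) ^ 4) =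
      -(((1 - c) * (X + c) ^ 2 - 4 * Y) * (X + c) ^ 2) := by
    linear_combination (8 * c ^ 2 - 8 * c) * h + (2 * X ^ 2 * Y * c - 4 * X ^ 2 * Y +
      4 * X * Y * c ^ 2 - 8 * X * Y * c - 8 * X * c ^ 2 + 8 * X * c + 2 * Y * c ^ 3 -
      4 * Y * c ^ 2) * hc
  refine ⟨hE, ?_⟩
  have hd : (X - c) ^ 4 ≠ 0 := pow_ne_zero _ (sub_ne_zero.2 hX)
  apply mul_right_cancel₀ hd
  linear_combination (2 * c * (1 - c) * Y + (X + c) ^ 2) * hE + 4 * c * Y * hk

private theorem step1 (hU : UD6 K F a s S τ ζ w z k v κ) {c c' : Ideal (𝓞 K)} (hc : OddI c)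
    (hc' : OddI c') (h1 : v c' ^ 2 * v c ^ 2 = -1)
    (h2 : (2 / z c' ^ 2 - 1) * v c = (2 / z c ^ 2 - 1) * v c') :
    (PP z k v c' + PP z k v c) + (PP z k v c' + PP z k v c) = ez F := by
  obtain ⟨X, Y, h, e, hY, hX, -, -, -, -, hv, hu⟩ := pp_inv hU hc
  obtain ⟨x0, hx0⟩ : ∃ x0 : F, x0 = -(v c' * v c) := ⟨_, rfl⟩
  have hi : x0 ^ 2 = -1 := by
    rw [hx0]
    linear_combination h1
  have hXne : X ≠ x0 := by
    intro h3
    apply hX
    rw [h3, hi]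
    norm_num
  have hXp : X + x0 ≠ 0 := by
    intro h3
    apply hX
    linear_combination (X - x0) * h3 + hi
  have hd : X - x0 ≠ 0 := sub_ne_zero.2 hXne
  have hi0 : x0 ≠ 0 := by
    intro h3
    rw [h3] at hi
    norm_num at hi
  have h1' : (-Y) ^ 2 = X ^ 3 - X := by rw [neg_sq]; exact h
  obtain ⟨x, y, hxy, e3, ex, ey⟩ := add_T h hi hXne h1' (sq_T hi)
  obtain ⟨hE, hr⟩ := R_eqs h hi hXne ex
  -- the values at the point
  have hvY : v c * (X ^ 2 + 1) = 2 * Y := by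
    apply mul_right_cancel₀ hY
    linear_combination hv - 2 * h
  have hQ : (1 - x0) * (X + x0) ^ 2 - 4 * Y ≠ 0 := by
    intro h3
    rw [h3, mul_zero] at hE ey
    have h4 : x ^ 2 + 1 = 0 := (mul_eq_zero.1 hE).resolve_right (pow_ne_zero _ hd)
    have h5 : y = 0 := (mul_eq_zero.1 ey).resolve_right (pow_ne_zero _ hd)
    rw [h5] at hxy
    have h6 : x * 2 = 0 := by linear_combination x * h4 + hxy
    have h7 : x = 0 := (mul_eq_zero.1 h6).resolve_right two_ne_zero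
    rw [h7] at h4
    norm_num at h4
  have hy : y ≠ 0 := by
    intro h3
    rw [h3, zero_mul] at ey
    rcases mul_eq_zero.1 ey.symm with h4 | h4
    · exact hXp h4
    · exact hQ h4
  have hx1 : x ^ 2 + 1 ≠ 0 := by
    intro h3
    rw [h3, zero_mul] at hE
    have h4 : 4 * x0 * Y ≠ 0 := mul_ne_zero (mul_ne_zero (by norm_num) hi0) hY
    rcases mul_eq_zero.1 hE.symm with h5 | h5
    · exact h4 h5
    · exact hQ h5
  have hv1 : v c' * (x ^ 2 + 1) = 2 * y := by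
    apply mul_right_cancel₀ (pow_ne_zero 4 hd)
    linear_combination v c' * hE - 2 * (X - x0) * ey -
      2 * x0 * ((1 - x0) * (X + x0) ^ 2 - 4 * Y) * v c' * hvY +
      2 * x0 * ((1 - x0) * (X + x0) ^ 2 - 4 * Y) * (X ^ 2 + 1) * hx0 -
      2 * ((1 - x0) * (X + x0) ^ 2 - 4 * Y) * X ^ 2 * hi
  have hv' : v c' * ((x ^ 2 + 1) * y) = 2 * x * (x ^ 2 - 1) := by
    linear_combination y * hv1 + 2 * hxy
  have hU4 : (2 / z c' ^ 2 - 1) * (4 * Y ^ 2) = -x0 * (X ^ 4 - 6 * X ^ 2 + 1) := by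
    generalize 2 / z c' ^ 2 - 1 = U' at h2 ⊢
    generalize 2 / z c ^ 2 - 1 = U at h2 hu
    linear_combination -U' * (v c * (X ^ 2 + 1) + 2 * Y) * hvY +
      v c * (X ^ 2 + 1) ^ 2 * h2 + U * (X ^ 2 + 1) ^ 2 * hx0 - x0 * hu
  have hr2 : 8 * x0 * Y ^ 2 * (x ^ 2 - 1) ^ 2 = (X + x0) ^ 4 * (x ^ 2 + 1) ^ 2 := by
    linear_combination ((x ^ 2 - 1) * (2 * x0 * (1 - x0) * Y) - (X + x0) ^ 2 * (x ^ 2 + 1)) * hr -
      (4 * x0 ^ 2 - 8 * x0) * Y ^ 2 * (x ^ 2 - 1) ^ 2 * hi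
  have hu' : (2 / z c' ^ 2 - 1) * (x ^ 2 + 1) ^ 2 =
      2 * (x ^ 2 - 1) ^ 2 - (x ^ 2 + 1) ^ 2 := by
    have h8 : 8 * x0 * Y ^ 2 ≠ 0 := mul_ne_zero (mul_ne_zero (by norm_num) hi0) (pow_ne_zero _ hY)
    apply mul_left_cancel₀ h8
    generalize 2 / z c' ^ 2 - 1 = U' at hU4 ⊢
    linear_combination 2 * x0 * (x ^ 2 + 1) ^ 2 * hU4 - 2 * hr2 +
      (x ^ 2 + 1) ^ 2 * (8 * x0) * h + (x ^ 2 + 1) ^ 2 * (-2 * X ^ 4 - 8 * X * x0 -
        2 * x0 ^ 2) * hi
  -- the sum is `T0` or `T0 + ez`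
  have hneg : -(pt X Y h) = pt X (-Y) h1' := W5.neg_pt h
  obtain ⟨-, -, hz2, -, -, -⟩ := two_ep (F := F)
  have hT0 : pt x0 (1 - x0) (sq_T hi) + pt x0 (1 - x0) (sq_T hi) = ez F := by
    obtain ⟨x3, y3, e4, e5, e6⟩ := W5.dbl_pt (sq_T hi) (one_sub_ne hi)
    have h3 : x3 = 0 := by
      rw [hi] at e6
      have h4 : x3 * (2 * (1 - x0)) ^ 2 = 0 := by rw [e6]; norm_num
      exact (mul_eq_zero.1 h4).resolve_right (pow_ne_zero _ (mul_ne_zero two_ne_zero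
        (one_sub_ne hi)))
    have h4 : y3 = 0 := by
      rw [h3] at e4
      have h5 : y3 ^ 2 = 0 := by rw [e4]; ring
      exact (pow_eq_zero_iff two_ne_zero).1 h5
    subst h3 h4
    exact e5
  have hsum : pt x y hxy + pt X Y h = pt x0 (1 - x0) (sq_T hi) := by
    rw [← e3, ← hneg]
    abel
  rw [e]
  rcases pp_of_vu hU hc' hxy hy hx1 hv' hu' with h9 | h9
  · rw [h9, hsum, hT0]
  · have h10 : ∀ A B C : (cQ F).Point, A + C + B + (A + C + B) = A + B + (A + B) + (C + C) := by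
      intro A B C
      abel
    rw [h9, h10, hsum, hT0, hz2, add_zero]

omit [NumberField F] in
private theorem order_four [CharZero F] {T : (cQ F).Point} (hT : T + T = ez F) :
    ∃ (x y : F) (h : y ^ 2 = x ^ 3 - x), T = pt x y h ∧ x ^ 2 = -1 ∧
      (y = 1 - x ∨ y = -(1 - x)) := by
  have hez : ez F ≠ 0 := pt_ne _
  rcases pt_cases T with h0 | ⟨x, y, h, hxy⟩
  · rw [h0, add_zero] at hT
    exact absurd hT.symm hez
  · have hy : y ≠ 0 := by
      rintro rfl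
      apply hez
      have h3 : -(pt x 0 h) = pt x 0 h := by
        rw [W5.neg_pt, pt_inj]
        exact ⟨rfl, neg_zero⟩
      rw [← hT, hxy]
      nth_rewrite 2 [← h3]
      exact add_neg_cancel _
    obtain ⟨x3, y3, e4, e5, e6⟩ := W5.dbl_pt h hy
    have h3 : x3 = 0 := by
      rw [hxy, e5] at hT
      unfold ez at hT
      rw [pt_inj] at hT
      exact hT.1
    rw [h3, zero_mul] at e6
    have h4 : x ^ 2 + 1 = 0 := (pow_eq_zero_iff two_ne_zero).1 e6.symm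
    have h5 : x ^ 2 = -1 := by linear_combination h4
    refine ⟨x, y, h, hxy, h5, ?_⟩
    have h6 : (y - (1 - x)) * (y + (1 - x)) = 0 := by
      linear_combination h + (x - 1) * h5
    rcases mul_eq_zero.1 h6 with h7 | h7
    · left; linear_combination h7
    · right; linear_combination h7

omit [NumberField F] in
private theorem add_em [CharZero F] {x y : F} (h : y ^ 2 = x ^ 3 - x) (hx : x ^ 2 = -1)
    (h' : (x * y) ^ 2 = (-x) ^ 3 - -x) : pt x y h + em F = pt (-x) (x * y) h' := by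
  have hne : x ≠ -1 := by
    intro h3
    rw [h3] at hx
    have h2 : (2 : F) = 0 := by linear_combination hx
    exact two_ne_zero h2
  have hx1 : x + 1 ≠ 0 := by
    intro h3
    exact hne (by linear_combination h3)
  have hl : (cQ F).slope x (-1) y 0 * (x + 1) = y := by
    rw [WeierstrassCurve.Affine.slope_of_X_ne hne]
    field_simp
    ring
  have h1 : ((cQ F).addX x (-1) ((cQ F).slope x (-1) y 0)) = -x := by
    apply mul_right_cancel₀ (pow_ne_zero 2 hx1)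
    generalize (cQ F).slope x (-1) y 0 = lam at hl ⊢
    simp only [WeierstrassCurve.Affine.addX, cQ]
    linear_combination (lam * (x + 1) + y) * hl + h + (x + 1) * hx
  have h2 : ((cQ F).addY x (-1) y ((cQ F).slope x (-1) y 0)) = x * y := by
    unfold WeierstrassCurve.Affine.addY WeierstrassCurve.Affine.negAddY
    rw [h1]
    apply mul_right_cancel₀ hx1
    generalize (cQ F).slope x (-1) y 0 = lam at hl ⊢
    simp only [WeierstrassCurve.Affine.negY, cQ]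
    linear_combination 2 * x * hl - y * hx
  unfold W14.em pt
  rw [WeierstrassCurve.Affine.Point.add_of_X_ne hne, WeierstrassCurve.Affine.Point.some.injEq]
  exact ⟨h1, h2⟩


private theorem tr1_px (hU : UD6 K F a s S τ ζ w z k v κ) {c c' : Ideal (𝓞 K)} (hc : OddI c)
    (hc' : OddI c') {x : ℤ} (h1 : z c' = (e8 x : ℤ) * z c) (h2 : k c' = k c) (h3 : v c' = v c) :
    PP z k v c' = PP z k v c + (if e8 x = 1 then 0 else ez F) := by
  by_cases he : e8 x = 1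
  · rw [if_pos he, add_zero]
    rw [he, Int.cast_one, one_mul] at h1
    exact pp_congr h1 h2 h3
  · rw [if_neg he]
    have he' : e8 x = -1 := by
      unfold e8 at he ⊢
      split_ifs at he ⊢
      · exact absurd rfl he
      · rfl
    rw [he'] at h1
    push_cast at h1
    obtain ⟨x1, y1, e1, f1, hy1, hx1, g1, g2, g3, g4, -, -⟩ := pp_inv hU hc
    obtain ⟨x2, y2, e2, f2, hy2, hx2, g1', g2', g3', g4', -, -⟩ := pp_inv hU hc'
    obtain ⟨n1, n2, n3⟩ := hU.ne c hc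
    have hx10 : x1 ≠ 0 := by
      rintro rfl
      apply hy1
      have h5 : y1 ^ 2 = 0 := by rw [e1]; ring
      exact pow_eq_zero_iff two_ne_zero |>.1 h5
    obtain ⟨e3, h4⟩ := add_ez e1 hx10
    rw [f1, f2, h4]
    rw [pt_inj]
    have hzk := hU.zk c hc
    have hX : x2 = -1 / x1 := by
      rw [eq_div_iff hx10, g1, g1', h1, h2]
      field_simp
      linear_combination -hzk
    refine ⟨hX, ?_⟩
    rw [g2', hX, h1, h3, g2]
    field_simp

private theorem odd_mul' {b c : Ideal (𝓞 K)} (hb' : OddI b) (hc' : OddI c) : OddI (b * c) := by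
  unfold OddI at *
  rw [map_mul]
  exact hb'.mul hc'

private theorem odd_one' : OddI (1 : Ideal (𝓞 K)) := by
  unfold OddI
  rw [map_one]
  exact odd_one

theorem nat_px (hb : B6 K a s) (hS : algebraMap (𝓞 K) K S = s) (hU : UD6 K F a s S τ ζ w z k v κ)
    {n : ℕ} (hn : Odd n) {c : Ideal (𝓞 K)} (hc : OddI c) :
    PP z k v (Ideal.span {(n : 𝓞 K)} * c) = PP z k v c +
      if n % 8 = 1 ∨ n % 8 = 7 then 0 else ez F := by
  have _ := hS
  have hx : Odd (n : ℤ) := by exact_mod_cast hn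
  have hxy : algebraMap (𝓞 K) K (n : 𝓞 K) = ((n : ℤ) : K) + 4 * ((0 : ℤ) : K) * s := by
    rw [map_natCast]
    push_cast
    ring
  have hxy' : algebraMap (𝓞 K) K (n : 𝓞 K) = ((n : ℤ) : K) + ((0 : ℤ) : K) * s := by
    rw [map_natCast]
    push_cast
    ring
  have hodd : OddI (Ideal.span {(n : 𝓞 K)}) := (oddI_span6 hb hxy').2 hx
  obtain ⟨h1, h2, h3⟩ := hU.tr1 n 0 (n : 𝓞 K) hx hxy c hc
  rw [tr1_px hU hc (odd_mul' hodd hc) h1 h2 h3]
  congr 1
  unfold e8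
  by_cases h4 : n % 8 = 1 ∨ n % 8 = 7
  · rw [if_pos h4, if_pos (by omega : (n : ℤ) % 8 = 1 ∨ (n : ℤ) % 8 = 7), if_pos rfl]
  · rw [if_neg h4, if_neg (by omega : ¬ ((n : ℤ) % 8 = 1 ∨ (n : ℤ) % 8 = 7)),
      if_neg (by norm_num)]

theorem gal_T {F : Type*} [Field F] [CharZero F] {k0 : Type*} [Field k0] [Algebra k0 F] {ζ : F}
    (hz : ζ ^ 4 = -1) (σ : F ≃ₐ[k0] F) {T : (cQ F).Point} (hT : T + T = ez F) :
    (σ (ζ ^ 2) = ζ ^ 2 → gal σ T = T) ∧ (σ (ζ ^ 2) = -ζ ^ 2 → gal σ T = T + W14.em F) := by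
  obtain ⟨x, y, h, rfl, hx, hy⟩ := order_four hT
  have hxi : (x - ζ ^ 2) * (x + ζ ^ 2) = 0 := by
    linear_combination hx - hz
  constructor
  · intro h5
    have h6 : σ x = x := by
      rcases mul_eq_zero.1 hxi with h7 | h7
      · have h8 : x = ζ ^ 2 := by linear_combination h7
        rw [h8, h5]
      · have h8 : x = -ζ ^ 2 := by linear_combination h7
        rw [h8, map_neg, h5]
    have h9 : σ y = y := by
      rcases hy with rfl | rfl
      · rw [map_sub, map_one, h6]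
      · rw [map_neg, map_sub, map_one, h6]
    rw [gal_pt, pt_inj]
    exact ⟨h6, h9⟩
  · intro h5
    have h6 : σ x = -x := by
      rcases mul_eq_zero.1 hxi with h7 | h7
      · have h8 : x = ζ ^ 2 := by linear_combination h7
        rw [h8, h5]
      · have h8 : x = -ζ ^ 2 := by linear_combination h7
        rw [h8, map_neg, h5]
    have h9 : σ y = x * y := by
      rcases hy with rfl | rfl
      · rw [map_sub, map_one, h6]
        linear_combination hx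
      · rw [map_neg, map_sub, map_one, h6]
        linear_combination -hx
    have h10 : (x * y) ^ 2 = (-x) ^ 3 - -x := by
      rw [← h6, ← h9, ← map_pow, ← map_pow, h, map_sub]
    rw [add_em h hx h10, gal_pt, pt_inj]
    exact ⟨h6, h9⟩

theorem tq_px (hb : B6 K a s) (hS : algebraMap (𝓞 K) K S = s) (hU : UD6 K F a s S τ ζ w z k v κ) :
    ∃ T : (cQ F).Point, T + T = ez F ∧ ∀ c, OddI c →
      PP z k v (Ideal.span {1 + S} * c) + PP z k v c =
        T + if Ideal.absNorm c % 4 = 1 then 0 else W14.em F := by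
  have hpq : algebraMap (𝓞 K) K (1 + S) = ((1 : ℤ) : K) + ((1 : ℤ) : K) * s := by
    rw [map_add, map_one, hS]
    push_cast
    ring
  have hαo : OddI (Ideal.span {1 + S}) := (oddI_span6 hb hpq).2 odd_one
  have hstep : ∀ c, OddI c → (PP z k v (Ideal.span {1 + S} * c) + PP z k v c) +
      (PP z k v (Ideal.span {1 + S} * c) + PP z k v c) = ez F := by
    intro c hc
    obtain ⟨h1, h2⟩ := hU.trq 1 1 (1 + S) odd_one odd_one hpq c hc
    exact step1 hU hc (odd_mul' hαo hc) h1 h2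
  refine ⟨PP z k v (Ideal.span {1 + S} * 1) + PP z k v 1, hstep 1 odd_one', ?_⟩
  intro c hc
  obtain ⟨σ, hσ⟩ := hU.mov c hc
  have hgal : PP z k v (Ideal.span {1 + S} * c) + PP z k v c =
      gal σ (PP z k v (Ideal.span {1 + S} * 1) + PP z k v 1) := by
    obtain ⟨a1, a2, a3⟩ := hσ.act (Ideal.span {1 + S} * 1) (odd_mul' hαo odd_one')
    obtain ⟨b1, b2, b3⟩ := hσ.act 1 odd_one'
    have e1 : c * (Ideal.span {1 + S} * 1) = Ideal.span {1 + S} * c := by rw [mul_one, mul_comm]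
    rw [e1] at a1 a2 a3
    rw [mul_one] at b1 b2 b3
    rw [map_add, gal_pp σ a1 a2 a3, gal_pp σ b1 b2 b3]
  have hσi : σ (ζ ^ 2) = (ζ ^ 2) ^ Ideal.absNorm c := by
    rw [map_pow, hσ.z8, ← pow_mul, ← pow_mul, mul_comm]
  have hi2 : (ζ ^ 2) ^ 2 = -1 := by
    rw [← hU.z8]
    ring
  have hodd2 : Odd (Ideal.absNorm c) := hc
  have h4 : Ideal.absNorm c % 4 = 1 ∨ Ideal.absNorm c % 4 = 3 := by
    rw [Nat.odd_iff] at hodd2
    omega
  have hpow4 : ((ζ ^ 2) ^ 4 : F) = 1 := by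
    rw [show ((ζ ^ 2) ^ 4 : F) = ((ζ ^ 2) ^ 2) ^ 2 by ring, hi2]
    norm_num
  obtain ⟨g1, g2⟩ := gal_T hU.z8 σ (hstep 1 odd_one')
  rw [hgal]
  rcases h4 with h4 | h4
  · have h5 : σ (ζ ^ 2) = ζ ^ 2 := by
      rw [hσi, ← Nat.div_add_mod (Ideal.absNorm c) 4, h4, pow_add, pow_mul, hpow4, one_pow,
        one_mul, pow_one]
    rw [if_pos h4, add_zero]
    exact g1 h5
  · have h5 : σ (ζ ^ 2) = -ζ ^ 2 := by
      rw [hσi, ← Nat.div_add_mod (Ideal.absNorm c) 4, h4, pow_add, pow_mul, hpow4, one_pow,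
        one_mul]
      linear_combination ζ ^ 2 * hi2
    rw [if_neg (by omega)]
    exact g2 h5

/-! ### the Fricke involution -/

private theorem sq_T0 {F : Type*} [Field F] {r : F} (hr : r ^ 2 = 2) :
    (r * (1 + r)) ^ 2 = (1 + r) ^ 3 - (1 + r) := by
  linear_combination (r ^ 2 + r) * hr

private theorem add_T0 {F : Type*} [Field F] [CharZero F] {X Y r : F} (h : Y ^ 2 = X ^ 3 - X)
    (hr : r ^ 2 = 2) (hX : X ≠ 1 + r) (h1 : (-Y) ^ 2 = X ^ 3 - X)
    (h2 : (r * (1 + r)) ^ 2 = (1 + r) ^ 3 - (1 + r)) :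
    ∃ (x y : F) (hxy : y ^ 2 = x ^ 3 - x), pt X (-Y) h1 + pt (1 + r) (r * (1 + r)) h2 =
      pt x y hxy ∧
      x * (X - (1 + r)) ^ 2 = (1 + r) * ((X ^ 2 + 2 * X - 1) + 2 * r * Y) ∧
      y * (X - (1 + r)) ^ 3 = r * ((1 + r) * X + 1) *
        (X ^ 2 + (2 * (1 + r) + 2) * X - (1 + r) ^ 2 + 2 * (1 + r) * Y) := by
  have hn : (cQ F).Nonsingular
      ((cQ F).addX X (1 + r) ((cQ F).slope X (1 + r) (-Y) (r * (1 + r))))
      ((cQ F).addY X (1 + r) (-Y) ((cQ F).slope X (1 + r) (-Y) (r * (1 + r)))) :=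
    WeierstrassCurve.Affine.nonsingular_add (cQ_nonsingular.2 h1) (cQ_nonsingular.2 h2)
      (fun hc => hX hc.1)
  have hd : X - (1 + r) ≠ 0 := sub_ne_zero.2 hX
  have hl : (cQ F).slope X (1 + r) (-Y) (r * (1 + r)) * (X - (1 + r)) = -Y - r * (1 + r) := by
    rw [WeierstrassCurve.Affine.slope_of_X_ne hX]
    exact div_mul_cancel₀ _ hd
  have hx : (cQ F).addX X (1 + r) ((cQ F).slope X (1 + r) (-Y) (r * (1 + r))) *
      (X - (1 + r)) ^ 2 = (1 + r) * ((X ^ 2 + 2 * X - 1) + 2 * r * Y) := by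
    generalize (cQ F).slope X (1 + r) (-Y) (r * (1 + r)) = lam at hl ⊢
    simp only [WeierstrassCurve.Affine.addX, cQ]
    linear_combination (lam * (X - (1 + r)) + (-Y - r * (1 + r))) * hl + h +
      (r ^ 2 + X + r) * hr
  refine ⟨_, _, cQ_nonsingular.1 hn, ?_, hx, ?_⟩
  · unfold pt
    rw [WeierstrassCurve.Affine.Point.add_of_X_ne hX]
  · unfold WeierstrassCurve.Affine.addY WeierstrassCurve.Affine.negAddY
    generalize hx3 : (cQ F).addX X (1 + r)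
      ((cQ F).slope X (1 + r) (-Y) (r * (1 + r))) = x3 at hx ⊢
    generalize hlam : (cQ F).slope X (1 + r) (-Y) (r * (1 + r)) = lam at hl ⊢
    simp only [WeierstrassCurve.Affine.negY, cQ]
    linear_combination (-(x3 * (X - (1 + r)) ^ 2 - X * (X - (1 + r)) ^ 2)) * hl -
      (-Y - r * (1 + r)) * hx + (2 * r ^ 2 + 2 * r) * h +
      (-2 * X * Y * r + X ^ 2 * r + 2 * Y * r ^ 2 - 2 * X * Y + 2 * X * r + 3 * Y * r + Y) * hr

private theorem I_eqs {F : Type*} [Field F] {X Y r x Q D B : F} (h : Y ^ 2 = X ^ 3 - X)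
    (hr : r ^ 2 = 2) (hQ : Q = X ^ 2 + 2 * X - 1) (hD : D = X - (1 + r))
    (hB : B = X ^ 2 + (2 * (1 + r) + 2) * X - (1 + r) ^ 2 + 2 * (1 + r) * Y)
    (hx : x * D ^ 2 = (1 + r) * (Q + 2 * r * Y)) :
    (x ^ 2 + 1) * D ^ 4 = 2 * r * (1 + r) * Q * B ∧
    (x ^ 2 + 2 * x - 1) * D ^ 4 = 4 * (1 + r) * (X ^ 2 + 1) * B ∧
    (x ^ 2 - 2 * x - 1) * D ^ 4 = 8 * (1 + r) * Y * B := by
  subst hQ hD hB
  refine ⟨?_, ?_, ?_⟩
  · linear_combination (x * (X - (1 + r)) ^ 2 + (1 + r) * ((X ^ 2 + 2 * X - 1) + 2 * r * Y)) * hx +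
      (4 * r ^ 4 + 8 * r ^ 3 + 4 * r ^ 2) * h +
      (4 * X ^ 3 * r ^ 2 + 2 * X ^ 2 * r ^ 2 + 4 * X ^ 3 * r - X ^ 4 - 2 * X ^ 2 * r +
        4 * X * r - 4 * X ^ 2 - r ^ 2 + 4 * X - 2 * r - 1) * hr
  · linear_combination (x * (X - (1 + r)) ^ 2 + (1 + r) * ((X ^ 2 + 2 * X - 1) + 2 * r * Y) +
        2 * (X - (1 + r)) ^ 2) * hx +
      (4 * r ^ 4 + 8 * r ^ 3 + 4 * r ^ 2) * h +
      (4 * X ^ 3 * r ^ 2 + 4 * X ^ 2 * Y * r + 8 * X ^ 3 * r + X ^ 4 - 4 * X * r ^ 2 +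
        4 * X ^ 2 * Y + 6 * X ^ 2 * r + 4 * X ^ 3 + 4 * Y * r ^ 2 + 6 * X ^ 2 + 8 * Y * r -
        r ^ 2 + 4 * X + 4 * Y - 2 * r - 1) * hr
  · linear_combination (x * (X - (1 + r)) ^ 2 + (1 + r) * ((X ^ 2 + 2 * X - 1) + 2 * r * Y) -
        2 * (X - (1 + r)) ^ 2) * hx +
      (4 * r ^ 4 + 8 * r ^ 3 - 12 * r ^ 2 - 32 * r - 16) * h +
      (4 * X ^ 3 * r ^ 2 + 4 * X ^ 2 * Y * r + 8 * X ^ 3 * r + X ^ 4 + 16 * X * Y * r -
        4 * X * r ^ 2 + 4 * X ^ 2 * Y - 2 * X ^ 2 * r + 4 * X ^ 3 - 4 * Y * r ^ 2 +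
        16 * X * Y - 8 * X * r - 2 * X ^ 2 - 8 * Y * r - r ^ 2 - 4 * X - 4 * Y - 2 * r - 1) * hr

private theorem step1f (hU : UD6 K F a s S τ ζ w z k v κ) {c c' : Ideal (𝓞 K)} (hc : OddI c)
    (hc' : OddI c') {r : F} (hr : r ^ 2 = 2)
    (h1 : v c' * (1 + v c ^ 2) = 2 / z c ^ 2 - 1)
    (h2 : (2 / z c' ^ 2 - 1) * (1 + v c ^ 2) = 2 * v c) :
    (PP z k v c' + PP z k v c) + (PP z k v c' + PP z k v c) = ep F := by
  obtain ⟨X, Y, h, e, hY, hX, -, -, -, -, hv, hu⟩ := pp_inv hU hc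
  obtain ⟨-, -, hvc⟩ := hU.ne c hc
  obtain ⟨-, -, hvc'⟩ := hU.ne c' hc'
  have two_ne : (2 : F) ≠ 0 := two_ne_zero
  have hvY : v c * (X ^ 2 + 1) = 2 * Y := by
    apply mul_right_cancel₀ hY
    linear_combination hv - 2 * h
  obtain ⟨Q, hQ⟩ : ∃ Q : F, Q = X ^ 2 + 2 * X - 1 := ⟨_, rfl⟩
  obtain ⟨D, hD⟩ : ∃ D : F, D = X - (1 + r) := ⟨_, rfl⟩
  obtain ⟨B, hB⟩ : ∃ B : F, B = X ^ 2 + (2 * (1 + r) + 2) * X - (1 + r) ^ 2 +
    2 * (1 + r) * Y := ⟨_, rfl⟩
  have hk : (1 + v c ^ 2) * (X ^ 2 + 1) ^ 2 = Q ^ 2 := by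
    rw [hQ]
    linear_combination (v c * (X ^ 2 + 1) + 2 * Y) * hvY + 4 * h
  have hQ0 : Q ≠ 0 := by
    intro h3
    rw [h3] at hk
    have h4 : (1 + v c ^ 2) * (X ^ 2 + 1) ^ 2 = 0 := by rw [hk]; ring
    have h5 : 1 + v c ^ 2 = 0 := (mul_eq_zero.1 h4).resolve_right (pow_ne_zero _ hX)
    rw [h5, mul_zero] at h2
    exact mul_ne_zero two_ne hvc h2.symm
  have hvQ : v c' * Q = X ^ 2 - 2 * X - 1 := by
    apply mul_right_cancel₀ hQ0
    linear_combination -v c' * hk + (X ^ 2 + 1) ^ 2 * h1 + hu - (X ^ 2 - 2 * X - 1) * hQ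
  have huQ : (2 / z c' ^ 2 - 1) * Q ^ 2 = 4 * Y * (X ^ 2 + 1) := by
    generalize 2 / z c' ^ 2 - 1 = U' at h2 ⊢
    linear_combination -U' * hk + (X ^ 2 + 1) ^ 2 * h2 + 2 * (X ^ 2 + 1) * hvY
  have hP : X ^ 2 - 2 * X - 1 ≠ 0 := by
    rw [← hvQ]
    exact mul_ne_zero hvc' hQ0
  have hr0 : r ≠ 0 := by
    intro h3
    rw [h3] at hr
    exact two_ne (by linear_combination -hr)
  have hr1 : (1 + r : F) ≠ 0 := by
    intro h3
    have h4 : r = -1 := by linear_combination h3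
    rw [h4] at hr
    have h5 : (1 : F) = 0 := by linear_combination -hr
    exact one_ne_zero h5
  have hD0 : D ≠ 0 := by
    intro h3
    apply hP
    have h4 : X = 1 + r := by rw [hD] at h3; linear_combination h3
    rw [h4]
    linear_combination hr
  have hE : D * ((1 + r) * X + 1) = (1 + r) * (X ^ 2 - 2 * X - 1) - X * (r ^ 2 - 2) := by
    rw [hD]
    ring
  have hE0 : (1 + r) * X + 1 ≠ 0 := by
    intro h3
    rw [h3, mul_zero, hr, sub_self, mul_zero, sub_zero] at hE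
    exact mul_ne_zero hr1 hP hE.symm
  have hXne : X ≠ 1 + r := by
    intro h3
    apply hD0
    rw [hD, h3, sub_self]
  have h1' : (-Y) ^ 2 = X ^ 3 - X := by rw [neg_sq]; exact h
  obtain ⟨x, y, hxy, e3, ex, ey⟩ := add_T0 h hr hXne h1' (sq_T0 hr)
  rw [← hQ, ← hD] at ex
  rw [← hD, ← hB] at ey
  obtain ⟨i3, i4, i5⟩ := I_eqs h hr hQ hD hB ex
  have hD4 : D ^ 4 ≠ 0 := pow_ne_zero _ hD0
  have hB0 : B ≠ 0 := by
    intro h3
    rw [h3, mul_zero] at i3 i4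
    have h4 : x ^ 2 + 1 = 0 := (mul_eq_zero.1 i3).resolve_right hD4
    have h5 : x ^ 2 + 2 * x - 1 = 0 := (mul_eq_zero.1 i4).resolve_right hD4
    have h6 : 2 * (x - 1) = 0 := by linear_combination h5 - h4
    have h7 : x = 1 := by
      have h8 := (mul_eq_zero.1 h6).resolve_left two_ne
      linear_combination h8
    rw [h7] at h4
    exact two_ne (by linear_combination h4)
  have hy : y ≠ 0 := by
    intro h3
    rw [h3, zero_mul] at ey
    exact mul_ne_zero (mul_ne_zero hr0 hE0) hB0 ey.symm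
  have hx1 : x ^ 2 + 1 ≠ 0 := by
    intro h3
    rw [h3, zero_mul] at i3
    exact mul_ne_zero (mul_ne_zero (mul_ne_zero (mul_ne_zero two_ne hr0) hr1) hQ0) hB0 i3.symm
  have hv1 : v c' * (x ^ 2 + 1) = 2 * y := by
    apply mul_right_cancel₀ (mul_ne_zero hQ0 hD4)
    linear_combination (x ^ 2 + 1) * D ^ 4 * hvQ + (X ^ 2 - 2 * X - 1) * i3 - 2 * Q * D * ey -
      2 * r * Q * B * hE + 2 * r * Q * B * X * hr
  have hv' : v c' * ((x ^ 2 + 1) * y) = 2 * x * (x ^ 2 - 1) := by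
    linear_combination y * hv1 + 2 * hxy
  have hu' : (2 / z c' ^ 2 - 1) * (x ^ 2 + 1) ^ 2 =
      2 * (x ^ 2 - 1) ^ 2 - (x ^ 2 + 1) ^ 2 := by
    apply mul_right_cancel₀ (mul_ne_zero (pow_ne_zero 2 hQ0) (pow_ne_zero 2 hD4))
    generalize 2 / z c' ^ 2 - 1 = U' at huQ ⊢
    linear_combination ((x ^ 2 + 1) * D ^ 4) ^ 2 * huQ +
      4 * Y * (X ^ 2 + 1) * ((x ^ 2 + 1) * D ^ 4 + 2 * r * (1 + r) * Q * B) * i3 -
      Q ^ 2 * ((x ^ 2 - 2 * x - 1) * D ^ 4) * i4 -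
      Q ^ 2 * (4 * (1 + r) * (X ^ 2 + 1) * B) * i5 +
      16 * Y * (X ^ 2 + 1) * (1 + r) ^ 2 * Q ^ 2 * B ^ 2 * hr
  have hneg : -(pt X Y h) = pt X (-Y) h1' := W5.neg_pt h
  obtain ⟨-, -, hz2, -, -, -⟩ := two_ep (F := F)
  have hT0 : pt (1 + r) (r * (1 + r)) (sq_T0 hr) + pt (1 + r) (r * (1 + r)) (sq_T0 hr) =
      ep F := by
    have hyn : r * (1 + r) ≠ 0 := mul_ne_zero hr0 hr1
    obtain ⟨x3, y3, e4, e5, e6⟩ := W5.dbl_pt (sq_T0 hr) hyn
    have h3 : x3 = 1 := by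
      apply mul_right_cancel₀ (pow_ne_zero 2 (mul_ne_zero two_ne hyn))
      rw [e6]
      linear_combination (-4 * (1 + r) ^ 2 + r ^ 2 + 4 * r + 2) * hr
    have h4 : y3 = 0 := by
      rw [h3] at e4
      have h5 : y3 ^ 2 = 0 := by rw [e4]; ring
      exact (pow_eq_zero_iff two_ne_zero).1 h5
    subst h3 h4
    exact e5
  have hsum : pt x y hxy + pt X Y h = pt (1 + r) (r * (1 + r)) (sq_T0 hr) := by
    rw [← e3, ← hneg]
    abel
  rw [e]
  rcases pp_of_vu hU hc' hxy hy hx1 hv' hu' with h9 | h9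
  · rw [h9, hsum, hT0]
  · have h10 : ∀ A B C : (cQ F).Point, A + C + B + (A + C + B) = A + B + (A + B) + (C + C) := by
      intro A B C
      abel
    rw [h9, h10, hsum, hT0, hz2, add_zero]

omit [NumberField F] in
private theorem order_four_p [CharZero F] {T : (cQ F).Point} (hT : T + T = ep F) :
    ∃ (x y : F) (h : y ^ 2 = x ^ 3 - x), T = pt x y h ∧ (x - 1) ^ 2 = 2 ∧
      (y = (x - 1) * x ∨ y = -((x - 1) * x)) := by
  have hez : ep F ≠ 0 := pt_ne _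
  rcases pt_cases T with h0 | ⟨x, y, h, hxy⟩
  · rw [h0, add_zero] at hT
    exact absurd hT.symm hez
  · have hy : y ≠ 0 := by
      rintro rfl
      apply hez
      have h3 : -(pt x 0 h) = pt x 0 h := by
        rw [W5.neg_pt, pt_inj]
        exact ⟨rfl, neg_zero⟩
      rw [← hT, hxy]
      nth_rewrite 2 [← h3]
      exact add_neg_cancel _
    obtain ⟨x3, y3, e4, e5, e6⟩ := W5.dbl_pt h hy
    have h3 : x3 = 1 := by
      rw [hxy, e5] at hT
      unfold ep at hT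
      rw [pt_inj] at hT
      exact hT.1
    rw [h3, one_mul] at e6
    have h4 : x ^ 2 - 2 * x - 1 = 0 := by
      have h5 : (x ^ 2 - 2 * x - 1) ^ 2 = 0 := by linear_combination 4 * h - e6
      exact (pow_eq_zero_iff two_ne_zero).1 h5
    refine ⟨x, y, h, hxy, by linear_combination h4, ?_⟩
    have h6 : (y - (x - 1) * x) * (y + (x - 1) * x) = 0 := by
      linear_combination h + (x - x ^ 2) * h4
    rcases mul_eq_zero.1 h6 with h7 | h7
    · left; linear_combination h7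
    · right; linear_combination h7

private theorem rho_sq {F : Type*} [Field F] {ζ : F} (hz : ζ ^ 4 = -1) :
    (ζ - ζ ^ 3) ^ 2 = 2 := by
  linear_combination (ζ ^ 2 - 2) * hz

theorem fr_px (hb : B6 K a s) (hS : algebraMap (𝓞 K) K S = s) (hU : UD6 K F a s S τ ζ w z k v κ) :
    ∃ T : (cQ F).Point, T + T = ep F ∧ ∀ c, OddI c →
      PP z k v (r6 S (a / 2) * c) + PP z k v c =
        T + if Ideal.absNorm c % 8 = 1 ∨ Ideal.absNorm c % 8 = 7 then 0 else ez F := by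
  have hm := hb.mod
  have hdvd : a / 2 ∣ a := Nat.div_dvd_of_dvd (by omega)
  have hno : OddI (r6 S (a / 2)) := by
    unfold OddI
    rw [norm_r6 hb hS hdvd, Nat.odd_iff]
    omega
  have hrho := rho_sq hU.z8
  have hstep : ∀ c, OddI c → (PP z k v (r6 S (a / 2) * c) + PP z k v c) +
      (PP z k v (r6 S (a / 2) * c) + PP z k v c) = ep F := by
    intro c hc
    exact step1f hU hc (odd_mul' hno hc) hrho (hU.fr1 c hc) (hU.fr2 c hc)
  refine ⟨PP z k v (r6 S (a / 2) * 1) + PP z k v 1, hstep 1 odd_one', ?_⟩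
  intro c hc
  obtain ⟨σ, hσ⟩ := hU.mov c hc
  obtain ⟨x, y, h, hT, hx, hy⟩ := order_four_p (hstep 1 odd_one')
  have hgal : PP z k v (r6 S (a / 2) * c) + PP z k v c =
      gal σ (PP z k v (r6 S (a / 2) * 1) + PP z k v 1) := by
    obtain ⟨a1, a2, a3⟩ := hσ.act (r6 S (a / 2) * 1) (odd_mul' hno odd_one')
    obtain ⟨b1, b2, b3⟩ := hσ.act 1 odd_one'
    have e1 : c * (r6 S (a / 2) * 1) = r6 S (a / 2) * c := by rw [mul_one, mul_comm]
    rw [e1] at a1 a2 a3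
    rw [mul_one] at b1 b2 b3
    rw [map_add, gal_pp σ a1 a2 a3, gal_pp σ b1 b2 b3]
  rw [hgal, hT]
  have hz8 : ζ ^ 8 = 1 := by
    rw [show ζ ^ 8 = (ζ ^ 4) ^ 2 by ring, hU.z8]
    norm_num
  have hzr : σ ζ = ζ ^ (Ideal.absNorm c % 8) := by
    rw [hσ.z8]
    conv_lhs => rw [← Nat.div_add_mod (Ideal.absNorm c) 8, pow_add, pow_mul, hz8, one_pow, one_mul]
  have hxi : (x - 1 - (ζ - ζ ^ 3)) * (x - 1 + (ζ - ζ ^ 3)) = 0 := by
    linear_combination hx - hrho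
  have hodd2 : Odd (Ideal.absNorm c) := hc
  have h4 : (Ideal.absNorm c % 8 = 1 ∨ Ideal.absNorm c % 8 = 7) ∨
      (Ideal.absNorm c % 8 = 3 ∨ Ideal.absNorm c % 8 = 5) := by
    rw [Nat.odd_iff] at hodd2
    omega
  have hz4 := hU.z8
  rcases h4 with h4 | h4
  · have h5 : σ (ζ - ζ ^ 3) = ζ - ζ ^ 3 := by
      rw [map_sub, map_pow, hzr]
      rcases h4 with h4 | h4
      · rw [h4, pow_one]
      · rw [h4]
        linear_combination (ζ ^ 3 - ζ ^ 17 + ζ ^ 13 - ζ ^ 9 + ζ ^ 5 - ζ) * hz4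
    have h6 : σ x = x := by
      rcases mul_eq_zero.1 hxi with h7 | h7
      · have h8 : x = 1 + (ζ - ζ ^ 3) := by linear_combination h7
        rw [h8, map_add, map_one, h5]
      · have h8 : x = 1 - (ζ - ζ ^ 3) := by linear_combination h7
        rw [h8, map_sub, map_one, h5]
    have h9 : σ y = y := by
      rcases hy with rfl | rfl
      · rw [map_mul, map_sub, map_one, h6]
      · rw [map_neg, map_mul, map_sub, map_one, h6]
    rw [if_pos h4, add_zero, gal_pt, pt_inj]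
    exact ⟨h6, h9⟩
  · have h5 : σ (ζ - ζ ^ 3) = -(ζ - ζ ^ 3) := by
      rw [map_sub, map_pow, hzr]
      rcases h4 with h4 | h4
      · rw [h4]
        linear_combination (-ζ ^ 5 + ζ) * hz4
      · rw [h4]
        linear_combination (ζ - ζ ^ 11 + ζ ^ 7 - ζ ^ 3) * hz4
    have h6 : σ x = 2 - x := by
      rcases mul_eq_zero.1 hxi with h7 | h7
      · have h8 : x = 1 + (ζ - ζ ^ 3) := by linear_combination h7
        rw [h8, map_add, map_one, h5]
        ring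
      · have h8 : x = 1 - (ζ - ζ ^ 3) := by linear_combination h7
        rw [h8, map_sub, map_one, h5]
        ring
    have hx0 : x ≠ 0 := by
      rintro rfl
      have h7 : (1 : F) = 0 := by linear_combination -hx
      exact one_ne_zero h7
    have h9 : σ y = y / x ^ 2 := by
      rw [eq_div_iff (pow_ne_zero 2 hx0)]
      rcases hy with rfl | rfl
      · rw [map_mul, map_sub, map_one, h6]
        linear_combination (x - 1) * x * hx
      · rw [map_neg, map_mul, map_sub, map_one, h6]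
        linear_combination -(x - 1) * x * hx
    obtain ⟨e3, h10⟩ := add_ez h hx0
    rw [if_neg (by omega), h10, gal_pt, pt_inj]
    refine ⟨?_, h9⟩
    rw [h6, eq_div_iff hx0]
    linear_combination -hx

end Pool.Agent.Work.MP_8efaaa_nt.V6
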