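import Mathlib
import Pool.Agent.Work.MP_8efaaa_nt.V6.Defs
import Pool.Agent.Work.MP_8efaaa_nt.V6.PEx
import Pool.Agent.Work.MP_8efaaa_nt.W14.CEq
import Pool.Agent.Work.MP_8efaaa_nt.W14.PGa
import Pool.Agent.Work.MP_8efaaa_nt.K6.ARg

/-!
# V6/PEt (M): translations

`α = x + y s`, `x` odd; `N α = x^2 + a y^2` (`norm_lin6`, `coords6`), `N α = 1 (mod 8)` so `y` is even. `P = PP z k v`.
(1) `P ((1+S)^2 c) = P c + em` for odd `c`: `tq_px` for `(1+S) c` and for `c`; `N ((1+S) c) = (1+a) N c` (`norm_g`), `1 + a = 7 (mod 8)`, so exactly one of the two norms is `1 (mod 4)`.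
(2) `4 ∣ y`: `UD6.tr1`: if `e8 x = 1`, then `P (α c) = P c`; otherwise `+ ez` (as in `nat_px`; e.g. `tr1` for `α` and for an integer `n = 3` give the same values). `x^2 = N α (mod 16)`, and `x^2 = 1 (mod 16)` iff `e8 x = 1`.
(3) `y = 2 y'`, `y'` odd: `α (1+S)^2 = x (1-a) - 4 a y' + 2 (x + y' (1-a)) s` and `x + y' (1-a)` is even, so (2) applies to `α (1+S)^2`, of norm `N α (1+a)^2 = N α (mod 16)`. So `P (α c) = P (α (1+S)^2 c) + em = P c + em + (0 or ez)`.
tr_pb: `qn em = 0`, `qn ep = n1`.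
-/

set_option autoImplicit false

namespace Pool.Agent.Work.MP_8efaaa_nt.V6

open NumberField Pool.Agent.Work.MP_8efaaa_nt.R Pool.Agent.Work.MP_8efaaa_nt.N5
  Pool.Agent.Work.MP_8efaaa_nt.K6 Pool.Agent.Work.MP_8efaaa_nt.W14
open scoped Classical nonZeroDivisors

variable {K F : Type*} [Field K] [NumberField K] [Field F] [NumberField F] [Algebra K F] {a : ℕ}
  {s : K} {S : 𝓞 K} {τ : 𝓞 K ≃+* 𝓞 K} {ζ : F} {w : ℕ → F} {z k v : Ideal (𝓞 K) → F}
  {κ : F ≃ₐ[ℚ] F}

omit [NumberField F] in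
private theorem add_eq [CharZero F] {x1 y1 x2 y2 x3 y3 L : F} (h1 : y1 ^ 2 = x1 ^ 3 - x1)
    (h2 : y2 ^ 2 = x2 ^ 3 - x2) (hx : x1 ≠ x2) (hL : L = (y1 - y2) / (x1 - x2))
    (h3x : x3 = L ^ 2 - x1 - x2) (h3y : y3 = -(L * (x3 - x1) + y1)) :
    ∃ h3, pt x1 y1 h1 + pt x2 y2 h2 = pt x3 y3 h3 := by
  have hn := WeierstrassCurve.Affine.nonsingular_add (cQ_nonsingular.2 h1) (cQ_nonsingular.2 h2)
    (fun hc => hx hc.1)
  have hs : (cQ F).slope x1 x2 y1 y2 = L := by
    rw [WeierstrassCurve.Affine.slope_of_X_ne hx, hL]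
  have eX : (cQ F).addX x1 x2 ((cQ F).slope x1 x2 y1 y2) = x3 := by
    rw [hs, h3x]
    simp only [WeierstrassCurve.Affine.addX, cQ]
    ring
  have eY : (cQ F).addY x1 x2 y1 ((cQ F).slope x1 x2 y1 y2) = y3 := by
    simp only [WeierstrassCurve.Affine.addY, WeierstrassCurve.Affine.negAddY, eX]
    rw [hs, h3y]
    simp only [WeierstrassCurve.Affine.negY, cQ]
    ring
  refine ⟨?_, ?_⟩
  · have h3 := cQ_nonsingular.1 hn
    rw [eX, eY] at h3
    exact h3
  · unfold pt
    rw [WeierstrassCurve.Affine.Point.add_of_X_ne hx,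
      WeierstrassCurve.Affine.Point.some.injEq]
    exact ⟨eX, eY⟩

omit [NumberField F] in
private theorem add_ez [CharZero F] {x y : F} (h : y ^ 2 = x ^ 3 - x) (hx : x ≠ 0) :
    ∃ h3, pt x y h + ez F = pt (-1 / x) (y / x ^ 2) h3 := by
  have h3x : -1 / x = (y / x) ^ 2 - x - 0 := by
    field_simp
    linear_combination -h
  unfold ez
  refine add_eq h _ hx rfl ?_ ?_
  · rw [sub_zero, sub_zero, sub_zero]
    rw [sub_zero] at h3x
    exact h3x
  · rw [sub_zero, sub_zero]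
    field_simp
    ring

private theorem pp_congr {c c' : Ideal (𝓞 K)} (h1 : z c' = z c) (h2 : k c' = k c)
    (h3 : v c' = v c) : PP z k v c' = PP z k v c := by
  unfold W14.PP
  rw [h1, h2, h3]

/-- the translations of the first kind -/
private theorem tr1_px (hU : UD6 K F a s S τ ζ w z k v κ) {c c' : Ideal (𝓞 K)} (hc : OddI c)
    (hc' : OddI c') {x : ℤ} (h1 : z c' = (e8 x : ℤ) * z c) (h2 : k c' = k c) (h3 : v c' = v c) :
    PP z k v c' = PP z k v c + (if e8 x = 1 then 0 else ez F) := by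
  by_cases he : e8 x = 1
  · rw [if_pos he, add_zero]
    rw [he, Int.cast_one, one_mul] at h1
    rw [pp_congr h1 h2 h3]
  · rw [if_neg he]
    have he' : e8 x = -1 := by
      unfold e8 at he ⊢
      split_ifs at he ⊢
      · exact absurd rfl he
      · rfl
    rw [he'] at h1
    push_cast at h1
    obtain ⟨x1, y1, e1, f1, hy1, hx1, g1, g2, g3, g4, -, -⟩ := pp_inv hU hc
    obtain ⟨x2, y2, e2, f2, hy2, hx2, g1', g2', g3', g4', -, -⟩ := pp_inv hU hc'
    obtain ⟨n1, n2, n3⟩ := hU.ne c hc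
    have hx10 : x1 ≠ 0 := by
      rintro rfl
      apply hy1
      have h5 : y1 ^ 2 = 0 := by rw [e1]; ring
      exact pow_eq_zero_iff two_ne_zero |>.1 h5
    obtain ⟨e3, h4⟩ := add_ez e1 hx10
    rw [f1, f2, h4]
    rw [pt_inj]
    have hzk := hU.zk c hc
    have hX : x2 = -1 / x1 := by
      rw [eq_div_iff hx10, g1, g1', h1, h2]
      field_simp
      linear_combination -hzk
    refine ⟨hX, ?_⟩
    rw [g2', hX, h1, h3, g2]
    field_simp

private theorem sq8 {p : ℤ} (hp : Odd p) : p ^ 2 % 8 = 1 := by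
  obtain ⟨k, rfl⟩ := hp
  have h1 : (2 * k + 1) ^ 2 = 4 * (k * (k + 1)) + 1 := by ring
  obtain ⟨l, hl⟩ := Int.even_mul_succ_self k
  rw [h1, hl]
  omega

private theorem e8_iff {x : ℤ} (hx : Odd x) : e8 x = 1 ↔ x ^ 2 % 16 = 1 := by
  have h16 : x % 16 = 1 ∨ x % 16 = 3 ∨ x % 16 = 5 ∨ x % 16 = 7 ∨ x % 16 = 9 ∨ x % 16 = 11 ∨
      x % 16 = 13 ∨ x % 16 = 15 := by
    obtain ⟨k, rfl⟩ := hx
    omega
  have hq : x ^ 2 % 16 = (x % 16) ^ 2 % 16 := by
    rw [pow_two, pow_two, Int.mul_emod]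
  rw [hq]
  unfold e8
  rcases h16 with h | h | h | h | h | h | h | h <;> rw [h]
  · rw [if_pos (by omega)]; norm_num
  · rw [if_neg (by omega)]; norm_num
  · rw [if_neg (by omega)]; norm_num
  · rw [if_pos (by omega)]; norm_num
  · rw [if_pos (by omega)]; norm_num
  · rw [if_neg (by omega)]; norm_num
  · rw [if_neg (by omega)]; norm_num
  · rw [if_pos (by omega)]; norm_num

private theorem odd_mul {b c : Ideal (𝓞 K)} (hb : OddI b) (hc : OddI c) : OddI (b * c) := by
  unfold OddI at *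
  rw [map_mul]
  exact hb.mul hc

private theorem odd_g (hb : B6 K a s) (hS : algebraMap (𝓞 K) K S = s) :
    OddI (Ideal.span {1 + S}) := by
  unfold OddI
  rw [norm_g hb hS, Nat.odd_iff]
  have := hb.mod
  omega

/-- `P ((1 + S) ^ 2 c) = P c + em` -/
private theorem g_sq (hb : B6 K a s) (hS : algebraMap (𝓞 K) K S = s)
    (hU : UD6 K F a s S τ ζ w z k v κ) {c : Ideal (𝓞 K)} (hc : OddI c) :
    PP z k v (Ideal.span {1 + S} * (Ideal.span {1 + S} * c)) = PP z k v c + W14.em F := by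
  obtain ⟨T, -, h⟩ := tq_px hb hS hU
  have hc2 : OddI (Ideal.span {1 + S} * c) := odd_mul (odd_g hb hS) hc
  have h1 := h c hc
  have h2 := h _ hc2
  have hN : Ideal.absNorm (Ideal.span {1 + S} * c) % 4 = 3 * Ideal.absNorm c % 4 := by
    rw [map_mul, norm_g hb hS, Nat.mul_mod]
    have hmod := hb.mod
    have h3 : (1 + a) % 4 = 3 := by omega
    rw [h3]
    omega
  have hodd : Ideal.absNorm c % 2 = 1 := Nat.odd_iff.1 hc
  have hee := (two_ep (F := F)).2.1
  by_cases h4 : Ideal.absNorm c % 4 = 1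
  · rw [if_pos h4, add_zero] at h1
    rw [if_neg (by omega)] at h2
    have h5 : PP z k v (Ideal.span {1 + S} * (Ideal.span {1 + S} * c)) = 
        (PP z k v (Ideal.span {1 + S} * (Ideal.span {1 + S} * c)) +
          PP z k v (Ideal.span {1 + S} * c)) - (PP z k v (Ideal.span {1 + S} * c) + PP z k v c) +
          PP z k v c := by abel
    rw [h5, h1, h2]
    abel
  · rw [if_neg h4] at h1
    rw [if_pos (by omega), add_zero] at h2
    have h5 : PP z k v (Ideal.span {1 + S} * (Ideal.span {1 + S} * c)) = 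
        (PP z k v (Ideal.span {1 + S} * (Ideal.span {1 + S} * c)) +
          PP z k v (Ideal.span {1 + S} * c)) - (PP z k v (Ideal.span {1 + S} * c) + PP z k v c) +
          PP z k v c := by abel
    rw [h5, h1, h2]
    have h6 : T - (T + W14.em F) + PP z k v c = PP z k v c + W14.em F -
      (W14.em F + W14.em F) := by abel
    rw [h6, hee, sub_zero]

theorem tr_px (hb : B6 K a s) (hS : algebraMap (𝓞 K) K S = s) (hU : UD6 K F a s S τ ζ w z k v κ)
    {α : 𝓞 K} (hα : Ideal.absNorm (Ideal.span {α}) % 8 = 1) :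
    ∃ ε : (cQ F).Point, (Ideal.absNorm (Ideal.span {α}) % 16 = 1 → ε = 0 ∨ ε = W14.em F) ∧
      (Ideal.absNorm (Ideal.span {α}) % 16 ≠ 1 → ε = ez F ∨ ε = ep F) ∧
      ∀ c, OddI c → PP z k v (Ideal.span {α} * c) = PP z k v c + ε := by
  obtain ⟨x, y, hxy⟩ := coords6 hb α
  have hn := norm_lin6 hb hxy
  have hodd : OddI (Ideal.span {α}) := by
    unfold OddI
    rw [Nat.odd_iff]
    omega
  have hx : Odd x := (oddI_span6 hb hxy).1 hodd
  have hx8 := sq8 hx
  obtain ⟨b, hb'⟩ : ∃ b : ℕ, a = 8 * b + 6 := ⟨a / 8, by have := hb.mod; omega⟩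
  have hy : Even y := by
    by_contra hy
    rw [Int.not_even_iff_odd] at hy
    have hy8 := sq8 hy
    have h3 : (a : ℤ) * y ^ 2 = 8 * (b * y ^ 2) + 6 * y ^ 2 := by
      rw [hb']
      push_cast
      ring
    rw [h3] at hn
    omega
  obtain ⟨y', hy'⟩ := hy
  have hee := (two_ep (F := F)).2.1
  rcases Int.even_or_odd y' with hy2 | hy2
  · obtain ⟨y2, hy2⟩ := hy2
    have hxy' : algebraMap (𝓞 K) K α = x + 4 * y2 * s := by
      rw [hxy, hy', hy2]
      push_cast
      ring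
    have h16 : e8 x = 1 ↔ Ideal.absNorm (Ideal.span {α}) % 16 = 1 := by
      rw [e8_iff hx]
      have h3 : (a : ℤ) * y ^ 2 = 16 * (a * y2 ^ 2) := by
        rw [hy', hy2]
        ring
      rw [h3] at hn
      omega
    refine ⟨if e8 x = 1 then 0 else ez F, fun h => ?_, fun h => ?_, fun c hc => ?_⟩
    · rw [if_pos (h16.2 h)]
      exact Or.inl rfl
    · rw [if_neg (fun h2 => h (h16.1 h2))]
      exact Or.inl rfl
    · obtain ⟨h1, h2, h3⟩ := hU.tr1 x y2 α hx hxy' c hc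
      exact tr1_px hU hc (odd_mul hodd hc) h1 h2 h3
  · -- `α (1 + S) ^ 2`
    obtain ⟨X, hX⟩ : ∃ X : ℤ, X = x * (1 - a) - 4 * a * y' := ⟨_, rfl⟩
    have hodda : Odd (1 - (a : ℤ)) := by
      rw [hb']
      push_cast
      exact ⟨-4 * b - 3, by ring⟩
    obtain ⟨Y2, hY2⟩ : Even (x + y' * (1 - (a : ℤ))) := hx.add_odd (hy2.mul hodda)
    have hXodd : Odd X := by
      rw [hX]
      apply (hx.mul hodda).sub_even
      exact ⟨2 * a * y', by ring⟩
    have hs2 := hb.sq
    have hα2 : algebraMap (𝓞 K) K (α * (1 + S) ^ 2) = X + 4 * Y2 * s := by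
      rw [map_mul, map_pow, map_add, map_one, hS, hxy, hX, hy']
      have h4 : (((x + y' * (1 - (a : ℤ)) : ℤ)) : K) = ((Y2 + Y2 : ℤ) : K) := by rw [hY2]
      push_cast at h4 ⊢
      linear_combination (x + 2 * (y' + y') * 1 + (y' + y') * s) * hs2 + 2 * s * h4
    have hXn : (Ideal.absNorm (Ideal.span {α}) : ℤ) * (1 + a) ^ 2 = X ^ 2 + 16 * (a * Y2 ^ 2) := by
      have h5 := norm_lin6 hb (δ := α * (1 + S) ^ 2) (x := X) (y := 4 * Y2) (by
        rw [hα2]
        push_cast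
        ring)
      rw [← Ideal.span_singleton_mul_span_singleton, ← Ideal.span_singleton_pow, map_mul, map_pow,
        norm_g hb hS] at h5
      push_cast at h5
      rw [h5]
      ring
    have h16 : e8 X = 1 ↔ Ideal.absNorm (Ideal.span {α}) % 16 = 1 := by
      rw [e8_iff hXodd]
      have h6 : (1 + (a : ℤ)) ^ 2 = 16 * (4 * b ^ 2 + 7 * b + 3) + 1 := by
        rw [hb']
        push_cast
        ring
      have h7 : (Ideal.absNorm (Ideal.span {α}) : ℤ) * (1 + a) ^ 2 =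
          16 * ((Ideal.absNorm (Ideal.span {α}) : ℤ) * (4 * b ^ 2 + 7 * b + 3)) +
            Ideal.absNorm (Ideal.span {α}) := by
        rw [h6]
        ring
      rw [h7] at hXn
      omega
    refine ⟨W14.em F + if e8 X = 1 then 0 else ez F, fun h => ?_, fun h => ?_, fun c hc => ?_⟩
    · rw [if_pos (h16.2 h), add_zero]
      exact Or.inr rfl
    · rw [if_neg (fun h2 => h (h16.1 h2))]
      exact Or.inr (two_ep (F := F)).2.2.2.2.2
    · obtain ⟨h1, h2, h3⟩ := hU.tr1 X Y2 (α * (1 + S) ^ 2) hXodd hα2 c hc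
      have hg := odd_g hb hS
      have e1 : Ideal.span {α * (1 + S) ^ 2} * c =
          Ideal.span {1 + S} * (Ideal.span {1 + S} * (Ideal.span {α} * c)) := by
        rw [← Ideal.span_singleton_mul_span_singleton, ← Ideal.span_singleton_pow]
        ring
      have hodd2 : OddI (Ideal.span {α * (1 + S) ^ 2} * c) := by
        rw [e1]
        exact odd_mul hg (odd_mul hg (odd_mul hodd hc))
      have h4 := tr1_px hU hc hodd2 h1 h2 h3
      rw [e1, g_sq hb hS hU (odd_mul hodd hc)] at h4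
      have h5 : PP z k v (Ideal.span {α} * c) = (PP z k v (Ideal.span {α} * c) + W14.em F) +
          W14.em F - (W14.em F + W14.em F) := by abel
      rw [h5, h4, hee, sub_zero]
      abel

theorem tr_pb (hb : B6 K a s) (hS : algebraMap (𝓞 K) K S = s) (hU : UD6 K F a s S τ ζ w z k v κ)
    {α : 𝓞 K} (hα : Ideal.absNorm (Ideal.span {α}) % 8 = 1) {c : Ideal (𝓞 K)} (hc : OddI c) :
    PB z k v (Ideal.span {α} * c) = PB z k v c + dd F (Ideal.absNorm (Ideal.span {α})) := by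
  obtain ⟨ε, h1, h2, h3⟩ := tr_px hb hS hU hα
  have hem : qn (W14.em F) = 0 :=
    (QuotientAddGroup.eq_zero_iff _).2 (AddSubgroup.mem_zmultiples _)
  unfold PB
  rw [h3 c hc, map_add]
  congr 1
  unfold dd
  by_cases h : Ideal.absNorm (Ideal.span {α}) % 16 = 1
  · rw [if_pos h]
    rcases h1 h with h4 | h4
    · rw [h4, map_zero]
    · rw [h4, hem]
  · rw [if_neg h]
    rcases h2 h with h4 | h4
    · rw [h4]
      rfl
    · rw [h4, ← (two_ep (F := F)).2.2.2.2.2, map_add, hem, zero_add]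
      rfl

end Pool.Agent.Work.MP_8efaaa_nt.V6
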