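import Mathlib
import Pool.Agent.Work.MP_8efaaa_nt.V6.Defs
import Pool.Agent.Work.MP_8efaaa_nt.W14.PGa
import Pool.Agent.Work.MP_8efaaa_nt.W14.LTo
import Pool.Agent.Work.MP_8efaaa_nt.W5.E1

/-!
# V6/QFa (S): the group `QB`

Models `W14/PGa.lean` (`qm_ep`, `qm_eq_zero`) and `W14/LTo.lean` (`ev_tors`, `m1_nmem`, `two_nmem`). `em + em = 0`, so `zmultiples (em F) = {0, em}`. dd_mul: for `m, n = 1 (mod 8)`.
eb_tors: `e = qn R`, `R ∈ E1 V`, `2^n e = 0`: `2^n R = 0` or `em`; `em ∉ E1 V` (`two_nmem`), so `2^n R = 0` and `R = 0` (`E1` has no 2-torsion, `W5`). `variable`s as in W14/LTo: `V` belongs to a prime ideal `L` with `2 ∉ L`.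
-/

set_option autoImplicit false

namespace Pool.Agent.Work.MP_8efaaa_nt.V6

open NumberField Pool.Agent.Work.MP_8efaaa_nt.R Pool.Agent.Work.MP_8efaaa_nt.N5
  Pool.Agent.Work.MP_8efaaa_nt.K6 Pool.Agent.Work.MP_8efaaa_nt.W14
open scoped Classical nonZeroDivisors

variable {F : Type*} [Field F] [NumberField F] {Γ : Type*} [LinearOrderedCommGroupWithZero Γ]
  {V : Valuation F Γ}

private theorem qz {F : Type*} [Field F] [CharZero F] {R : (cQ F).Point} :
    qn R = 0 ↔ R = 0 ∨ R = W14.em F := by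
  have h0 : qn R = 0 ↔ R ∈ AddSubgroup.zmultiples (W14.em F) := QuotientAddGroup.eq_zero_iff R
  rw [h0, AddSubgroup.mem_zmultiples_iff]
  constructor
  · rintro ⟨n, rfl⟩
    have h1 : (2 : ℤ) • W14.em F = 0 := by
      rw [two_zsmul]
      exact two_ep.2.1
    rcases Int.even_or_odd' n with ⟨l, h | h⟩
    · left
      rw [h, mul_comm, mul_zsmul, h1, zsmul_zero]
    · right
      rw [h, add_zsmul, mul_comm, mul_zsmul, h1, zsmul_zero, zero_add, one_zsmul]
  · rintro (rfl | rfl)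
    · exact ⟨0, zero_zsmul _⟩
    · exact ⟨1, one_zsmul _⟩

theorem qn_em {F : Type*} [Field F] [CharZero F] : qn (W14.em F) = 0 ∧ qn (ez F) = n1 F ∧
    qn (ep F) = n1 F ∧ n1 F + n1 F = 0 ∧ n1 F ≠ 0 := by
  obtain ⟨h1, h2, h3, h4, h5, h6⟩ := two_ep (F := F)
  have e1 : qn (W14.em F) = 0 := qz.2 (Or.inr rfl)
  refine ⟨e1, rfl, ?_, ?_, ?_⟩
  · rw [← h6, map_add, e1, zero_add]
    rfl
  · unfold n1
    rw [← map_add, h3, map_zero]
  · intro h
    unfold n1 at h
    rcases qz.1 h with h7 | h7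
    · rw [h7, add_zero] at h6
      unfold ep W14.em at h6
      rw [pt_inj] at h6
      have h8 : (2 : F) = 0 := by linear_combination -h6.1
      exact two_ne_zero h8
    · unfold ez W14.em at h7
      rw [pt_inj] at h7
      have h8 : (1 : F) = 0 := by linear_combination h7.1
      exact one_ne_zero h8

theorem qn_eq_zero {F : Type*} [Field F] [CharZero F] {R : (cQ F).Point} :
    qn R = 0 ↔ R = 0 ∨ R = W14.em F := by
  exact qz

theorem galB_n1 {F : Type*} [Field F] [CharZero F] {k0 : Type*} [Field k0] [Algebra k0 F]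
    (σ : F ≃ₐ[k0] F) : galB σ (n1 F) = n1 F ∧ ∀ n, galB σ (dd F n) = dd F n := by
  have h1 : galB σ (n1 F) = n1 F := by
    unfold n1
    rw [galB_qn, (gal_two σ).2.1]
  refine ⟨h1, fun n => ?_⟩
  unfold dd
  split_ifs
  · exact map_zero _
  · exact h1

theorem dd_add {F : Type*} [Field F] [CharZero F] (n : ℕ) : dd F n + dd F n = 0 := by
  unfold dd
  split_ifs
  · exact add_zero _
  · exact qn_em.2.2.2.1

theorem dd_mul {F : Type*} [Field F] [CharZero F] {m n : ℕ} (hm : m % 8 = 1) (hn : n % 8 = 1) :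
    dd F (m * n) = dd F m + dd F n := by
  have h := (qn_em (F := F)).2.2.2.1
  have hm' : m % 16 = 1 ∨ m % 16 = 9 := by omega
  have hn' : n % 16 = 1 ∨ n % 16 = 9 := by omega
  unfold dd
  rcases hm' with hm' | hm' <;> rcases hn' with hn' | hn' <;>
    simp [Nat.mul_mod, hm', hn', h]

private theorem qn_mem {R : (cQ F).Point} : qn R ∈ EB V ↔ R ∈ W5.E1 V ∨ R + W14.em F ∈ W5.E1 V := by
  unfold EB
  rw [AddSubgroup.mem_map]
  constructor
  · rintro ⟨R', hR', e⟩
    have h1 : qn (R' - R) = 0 := by rw [map_sub, e, sub_self]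
    rcases qz.1 h1 with h2 | h2
    · left
      rw [← sub_eq_zero.1 h2]
      exact hR'
    · right
      rw [← h2, add_sub_cancel]
      exact hR'
  · rintro (h | h)
    · exact ⟨R, h, rfl⟩
    · refine ⟨R + W14.em F, h, ?_⟩
      rw [map_add, qn_em.1, add_zero]

theorem eb_tors (h2 : V 2 = 1) {e : QB F} (he : e ∈ EB V) {n : ℕ} (h : ((2 : ℤ) ^ n) • e = 0) :
    e = 0 := by
  unfold EB at he
  rw [AddSubgroup.mem_map] at he
  obtain ⟨R, hR, rfl⟩ := he
  rw [← map_zsmul] at h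
  have h2 : ((2 : ℤ) ^ (n + 1)) • R = 0 := by
    rw [pow_succ', mul_smul, two_zsmul]
    rcases qz.1 h with h3 | h3
    · rw [h3, add_zero]
    · rw [h3]
      exact two_ep.2.1
  rw [W5.two_pow_tors hR (n + 1) h2, map_zero]

theorem n1_nmem (h2 : V 2 = 1) : n1 F ∉ EB V := by
  unfold n1
  rw [qn_mem]
  rintro (h | h)
  · exact two_nmem.2.1 h
  · rw [add_comm, two_ep.2.2.2.2.2] at h
    exact two_nmem.2.2 h

end Pool.Agent.Work.MP_8efaaa_nt.V6
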