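import Mathlib
import Pool.Agent.Work.MP_8efaaa_nt.V6.Defs
import Pool.Agent.Work.MP_8efaaa_nt.W14.CCl
import Pool.Agent.Work.MP_8efaaa_nt.W14.CEq
import Pool.Agent.Work.MP_8efaaa_nt.K6.ARg
import Pool.Agent.Work.MP_8efaaa_nt.K6.ARm

/-!
# V6/GSu (M): the classes of the ideals of norm `1 (mod 8)`, `a = 6 (mod 16)`

clN_surj: `clM_surj` / `cls_surj` (W14/CCl) gives a representative `c` of norm `1` or `3` modulo `8`; in the second case take `r6 S (a/2) * c` (norm `(a/2) N c`, `a/2 = 3 (mod 8)`, class `cls (r6 S 2) * cls c`, `cls_two`).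
clN_eq: if `cls b = cls (r6 S 2) * cls c` (or equal up to a power of `cls (r6 S 2)`, whose square is `1`) then `b * cj τ c * r6 S 2 = (γ)` (`prin_of_cls`, `cls_cj`), `2 N b N c = x^2 + a y^2`, `x = 2 x'`, `N b N c = 2 x'^2 + (a/2) y^2`, `y` odd, so `1 = 2 x'^2 + 3 (mod 8)`: impossible.
equivN: `equiv6` gives `α`, `β` with `N β = 1`, `N α = ±1 (mod 8)`; `N α N b = N β N c` gives `N α = 1 (mod 8)`.
-/

set_option autoImplicit false

namespace Pool.Agent.Work.MP_8efaaa_nt.V6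

open NumberField Pool.Agent.Work.MP_8efaaa_nt.R Pool.Agent.Work.MP_8efaaa_nt.N5
  Pool.Agent.Work.MP_8efaaa_nt.K6 Pool.Agent.Work.MP_8efaaa_nt.W14
open scoped Classical nonZeroDivisors

variable {K : Type*} [Field K] [NumberField K] {a : ℕ} {s : K} {S : 𝓞 K} {τ : 𝓞 K ≃+* 𝓞 K}

private theorem gsu_sq16 (x : ℤ) : x ^ 2 % 16 = 0 ∨ x ^ 2 % 16 = 1 ∨ x ^ 2 % 16 = 4 ∨
    x ^ 2 % 16 = 9 := by
  have h : x ^ 2 % 16 = (x % 16) ^ 2 % 16 := by
    rw [pow_two, pow_two, Int.mul_emod]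
  have h1 : 0 ≤ x % 16 := Int.emod_nonneg _ (by norm_num)
  have h2 : x % 16 < 16 := Int.emod_lt_of_pos _ (by norm_num)
  rw [h]
  generalize x % 16 = z at h1 h2 ⊢
  interval_cases z <;> norm_num

theorem clN_surj (hb : B6 K a s) (hS : algebraMap (𝓞 K) K S = s) (ha : a % 16 = 6) :
    Function.Surjective (clN S) := by
  intro g
  obtain ⟨c, hc⟩ := clM_surj hb hS g
  rcases c.2 with h1 | h3
  · exact ⟨⟨c, h1⟩, hc⟩
  · have hd : a / 2 ∣ a := ⟨2, by omega⟩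
    have hn := norm_r6 hb hS hd
    have hc0 : (c : Ideal (𝓞 K)) ≠ 0 := M13.ne c.2
    have h4 : Ideal.absNorm (r6 S (a / 2) * (c : Ideal (𝓞 K))) % 8 = 1 := by
      rw [map_mul, hn, Nat.mul_mod, h3, show a / 2 % 8 = 3 by omega]
    refine ⟨⟨r6 S (a / 2) * (c : Ideal (𝓞 K)), h4⟩, ?_⟩
    rw [← hc]
    show (QuotientGroup.mk (cls (r6 S (a / 2) * (c : Ideal (𝓞 K)))) : CG S) =
      QuotientGroup.mk (cls (c : Ideal (𝓞 K)))
    rw [cls_mul (r6_ne hb hS hd) hc0, (cls_two hb hS).2, QuotientGroup.mk_mul,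
      (QuotientGroup.eq_one_iff (cls (r6 S 2))).2 (Subgroup.mem_zpowers _), one_mul]

theorem clN_eq (hb : B6 K a s) (hS : algebraMap (𝓞 K) K S = s) (hτ : τ S = -S) (ha : a % 16 = 6)
    {b c : M1 K} (h : clN S b = clN S c) : cls (b : Ideal (𝓞 K)) = cls (c : Ideal (𝓞 K)) := by
  have h' : clM S (⟨b, Or.inl b.2⟩ : M13 K) = clM S (⟨c, Or.inl c.2⟩ : M13 K) := h
  rcases (clM_eq hb hS).1 h' with h1 | h1
  · exact h1
  · exfalso
    have h1' : cls (b : Ideal (𝓞 K)) = cls (r6 S 2) * cls (c : Ideal (𝓞 K)) := h1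
    have hb0 := M1.ne b.2
    have hc0 := M1.ne c.2
    obtain ⟨hcj0, hcj⟩ := cls_cj hb hS hτ hc0
    have h20 : (2 : ℕ) ∣ a := by omega
    have hr0 := r6_ne hb hS h20
    obtain ⟨γ, -, h2⟩ := prin_of_cls (b := r6 S 2 * (b : Ideal (𝓞 K)) * cj τ c)
      (mul_ne_zero (mul_ne_zero hr0 hb0) hcj0)
      (by rw [cls_mul (mul_ne_zero hr0 hb0) hcj0, cls_mul hr0 hb0, hcj, h1',
            ← mul_assoc (cls (r6 S 2)), (cls_two hb hS).1, one_mul, mul_inv_cancel])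
    obtain ⟨x, y, hxy⟩ := coords6 hb γ
    have h3 := norm_lin6 hb hxy
    rw [← h2, map_mul, map_mul, (norm_cj6 hb hS hτ c).1, norm_r6 hb hS h20] at h3
    have hbn := M1.nrm b.2
    have hcn := M1.nrm c.2
    have h4 : Ideal.absNorm (b : Ideal (𝓞 K)) * Ideal.absNorm (c : Ideal (𝓞 K)) % 8 = 1 := by
      rw [Nat.mul_mod, hbn, hcn]
    have h5 : ((2 * Ideal.absNorm (b : Ideal (𝓞 K)) * Ideal.absNorm (c : Ideal (𝓞 K)) : ℕ) : ℤ)
        % 16 = 2 := by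
      have : 2 * Ideal.absNorm (b : Ideal (𝓞 K)) * Ideal.absNorm (c : Ideal (𝓞 K)) % 16 = 2 := by
        rw [mul_assoc]
        omega
      exact_mod_cast this
    rw [h3] at h5
    obtain ⟨k, hk⟩ : ∃ k : ℕ, a = 16 * k + 6 := ⟨a / 16, by omega⟩
    have hk' : (a : ℤ) = 16 * k + 6 := by exact_mod_cast hk
    have h6 : (a : ℤ) * y ^ 2 = 16 * (k * y ^ 2) + 6 * y ^ 2 := by
      rw [hk']
      ring
    rw [h6] at h5
    have hx := gsu_sq16 x
    have hy := gsu_sq16 y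
    omega

theorem equivN (hb : B6 K a s) (hS : algebraMap (𝓞 K) K S = s) (hτ : τ S = -S)
    {b c : Ideal (𝓞 K)} (hb1 : b ∈ M1 K) (hc : c ∈ M1 K) (h : cls b = cls c) :
    ∃ α β : 𝓞 K, Ideal.span {α} * b = Ideal.span {β} * c ∧
      Ideal.absNorm (Ideal.span {β}) % 8 = 1 ∧ Ideal.absNorm (Ideal.span {α}) % 8 = 1 := by
  obtain ⟨α, β, h1, h2, h3⟩ := equiv6 hb hS hτ (M1.odd hb1) (M1.odd hc) h
  refine ⟨α, β, h1, h2, ?_⟩
  have h4 := congrArg (fun I : Ideal (𝓞 K) => Ideal.absNorm I % 8) h1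
  simp only [map_mul] at h4
  rw [Nat.mul_mod, Nat.mul_mod (Ideal.absNorm (Ideal.span {β})), h2, M1.nrm hb1, M1.nrm hc] at h4
  rcases h3 with h3 | h3
  · exact h3
  · rw [h3] at h4
    norm_num at h4

end Pool.Agent.Work.MP_8efaaa_nt.V6
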