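import Mathlib
import Pool.Agent.Work.MP_8efaaa_nt.V6.Defs
import Pool.Agent.Work.MP_8efaaa_nt.V6.PEt
import Pool.Agent.Work.MP_8efaaa_nt.V6.GSu
import Pool.Agent.Work.MP_8efaaa_nt.V6.QFa
import Pool.Agent.Work.MP_8efaaa_nt.V6.QFa

/-!
# V6/GPi (M): the function of the classes

kk_px: `equivN`: `(α) b = (β) c`; `tr_px` for `α` (at `b x`) and for `β` (at `c x`): `PP (b x) + εα = PP (c x) + εβ`; `ε = εα + εβ` (`ε + ε = 0`; the four points `0, ep, em, ez` form a group, `two_ep`), and `N α N β N b N c = (N β N c)^2 = 1 (mod 16)` (`N α N b = N β N c`), so `ε ∈ {0, em}` iff `N b N c = 1 (mod 16)`.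
exists_pi: `Function.Surjective.lift` / choose `r g` with `clN S (r g) = g` and `f g = PB (r g) + dd (N (r g))`; by kk_px (or `tr_pb`) with `x = 1`: `PB b + dd (N b) = PB c + dd (N c)` if `clN S b = clN S c`.
-/

set_option autoImplicit false

namespace Pool.Agent.Work.MP_8efaaa_nt.V6

open NumberField Pool.Agent.Work.MP_8efaaa_nt.R Pool.Agent.Work.MP_8efaaa_nt.N5
  Pool.Agent.Work.MP_8efaaa_nt.K6 Pool.Agent.Work.MP_8efaaa_nt.W14
open scoped Classical nonZeroDivisors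

variable {K F : Type*} [Field K] [NumberField K] [Field F] [NumberField F] [Algebra K F] {a : ℕ}
  {s : K} {S : 𝓞 K} {τ : 𝓞 K ≃+* 𝓞 K} {ζ : F} {w : ℕ → F} {z k v : Ideal (𝓞 K) → F}
  {κ : F ≃ₐ[ℚ] F}

private theorem gp_odd_mul {c d : Ideal (𝓞 K)} (hc : OddI c) (hd : OddI d) : OddI (c * d) := by
  unfold OddI at *
  rw [map_mul]
  exact hc.mul hd

private theorem gp_eps {e : (cQ F).Point} {n : ℕ} (h1 : n % 16 = 1 → e = 0 ∨ e = W14.em F)
    (h2 : n % 16 ≠ 1 → e = ez F ∨ e = ep F) : e + e = 0 ∧ qn e = dd F n := by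
  obtain ⟨t1, t2, t3, -, -, -⟩ := two_ep (F := F)
  obtain ⟨q1, q2, q3, -, -⟩ := qn_em (F := F)
  by_cases h : n % 16 = 1
  · have hd : dd F n = 0 := by
      unfold dd
      rw [if_pos h]
    rcases h1 h with rfl | rfl
    · exact ⟨add_zero _, by rw [map_zero, hd]⟩
    · exact ⟨t2, by rw [q1, hd]⟩
  · have hd : dd F n = n1 F := by
      unfold dd
      rw [if_neg h]
    rcases h2 h with rfl | rfl
    · exact ⟨t3, by rw [q2, hd]⟩
    · exact ⟨t1, by rw [q3, hd]⟩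

private theorem gp_mod {A B C D : ℕ} (hA : A % 8 = 1) (hB : B % 8 = 1) (hC : C % 8 = 1)
    (hD : D % 8 = 1) (h : A * C = B * D) : (A * B) % 16 = (C * D) % 16 := by
  have e1 : A % 16 = 1 ∨ A % 16 = 9 := by omega
  have e2 : B % 16 = 1 ∨ B % 16 = 9 := by omega
  have e3 : C % 16 = 1 ∨ C % 16 = 9 := by omega
  have e4 : D % 16 = 1 ∨ D % 16 = 9 := by omega
  have h2 : (A * C) % 16 = (B * D) % 16 := by rw [h]
  rw [Nat.mul_mod] at h2
  rw [Nat.mul_mod B D] at h2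
  rw [Nat.mul_mod A B, Nat.mul_mod C D]
  rcases e1 with e1 | e1 <;> rcases e2 with e2 | e2 <;> rcases e3 with e3 | e3 <;>
    rcases e4 with e4 | e4 <;> rw [e1, e3, e2, e4] at h2 <;> rw [e1, e2, e3, e4] <;> omega

theorem kk_px (hb : B6 K a s) (hS : algebraMap (𝓞 K) K S = s) (hτ : τ S = -S) (ha : a % 16 = 6)
    (hU : UD6 K F a s S τ ζ w z k v κ) {b c : M1 K} (h : clN S b = clN S c) :
    ∃ ε : (cQ F).Point, ε + ε = 0 ∧ (qn ε = dd F (Ideal.absNorm (b : Ideal (𝓞 K)) *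
      Ideal.absNorm (c : Ideal (𝓞 K)))) ∧
      ∀ x, OddI x → PP z k v ((b : Ideal (𝓞 K)) * x) = PP z k v ((c : Ideal (𝓞 K)) * x) + ε := by
  obtain ⟨α, β, hαβ, hβ, hα⟩ := equivN hb hS hτ b.2 c.2 (clN_eq hb hS hτ ha h)
  obtain ⟨e, h1, h2, he⟩ := tr_px hb hS hU hα
  obtain ⟨f, h3, h4, hf⟩ := tr_px hb hS hU hβ
  obtain ⟨e2, eq⟩ := gp_eps h1 h2
  obtain ⟨f2, fq⟩ := gp_eps h3 h4
  refine ⟨e + f, ?_, ?_, ?_⟩
  · calc e + f + (e + f) = (e + e) + (f + f) := by abel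
      _ = 0 := by rw [e2, f2, add_zero]
  · rw [map_add, eq, fq, ← dd_mul hα hβ]
    have h5 : Ideal.absNorm (Ideal.span {α}) * Ideal.absNorm (b : Ideal (𝓞 K)) =
        Ideal.absNorm (Ideal.span {β}) * Ideal.absNorm (c : Ideal (𝓞 K)) := by
      rw [← map_mul, ← map_mul, hαβ]
    unfold dd
    rw [gp_mod hα hβ (M1.nrm b.2) (M1.nrm c.2) h5]
  · intro x hx
    have hbx := gp_odd_mul (M1.odd b.2) hx
    have hcx := gp_odd_mul (M1.odd c.2) hx
    have h5 := he _ hbx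
    have h6 := hf _ hcx
    rw [← mul_assoc, hαβ, mul_assoc, h6] at h5
    have h7 : PP z k v ((b : Ideal (𝓞 K)) * x) + e = PP z k v ((c : Ideal (𝓞 K)) * x) + f :=
      h5.symm
    calc PP z k v ((b : Ideal (𝓞 K)) * x) = (PP z k v ((b : Ideal (𝓞 K)) * x) + e) + e := by
          rw [add_assoc, e2, add_zero]
      _ = PP z k v ((c : Ideal (𝓞 K)) * x) + (e + f) := by
          rw [h7, add_assoc, add_comm f e]

theorem exists_pi (hb : B6 K a s) (hS : algebraMap (𝓞 K) K S = s) (hτ : τ S = -S)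
    (ha : a % 16 = 6) (hU : UD6 K F a s S τ ζ w z k v κ) : ∃ f : CG S → QB F, HPi S z k v f := by
  refine ⟨fun g => if h : ∃ c : M1 K, clN S c = g then
    PB z k v (h.choose : Ideal (𝓞 K)) + dd F (Ideal.absNorm (h.choose : Ideal (𝓞 K))) else 0, ?_⟩
  intro c
  have hex : ∃ c' : M1 K, clN S c' = clN S c := ⟨c, rfl⟩
  show _ = (if h : ∃ c' : M1 K, clN S c' = clN S c then
    PB z k v (h.choose : Ideal (𝓞 K)) + dd F (Ideal.absNorm (h.choose : Ideal (𝓞 K))) else 0)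
  rw [dif_pos hex]
  obtain ⟨ε, -, hq, hx⟩ := kk_px hb hS hτ ha hU hex.choose_spec
  have h1 : OddI (1 : Ideal (𝓞 K)) := by
    unfold OddI
    rw [map_one]
    exact odd_one
  have h2 := hx 1 h1
  rw [mul_one, mul_one] at h2
  have h3 : PB z k v (hex.choose : Ideal (𝓞 K)) = PB z k v c +
      (dd F (Ideal.absNorm (hex.choose : Ideal (𝓞 K))) +
        dd F (Ideal.absNorm (c : Ideal (𝓞 K)))) := by
    unfold PB
    rw [h2, map_add, hq, dd_mul (M1.nrm hex.choose.2) (M1.nrm c.2)]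
  rw [h3]
  have h4 := dd_add (F := F) (Ideal.absNorm (hex.choose : Ideal (𝓞 K)))
  calc PB z k v c + dd F (Ideal.absNorm (c : Ideal (𝓞 K)))
      = PB z k v c + dd F (Ideal.absNorm (c : Ideal (𝓞 K))) +
        (dd F (Ideal.absNorm (hex.choose : Ideal (𝓞 K))) +
          dd F (Ideal.absNorm (hex.choose : Ideal (𝓞 K)))) := by rw [h4, add_zero]
    _ = _ := by abel

end Pool.Agent.Work.MP_8efaaa_nt.V6
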