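import Mathlib
import Pool.Agent.Work.MP_8efaaa_nt.V6.Defs
import Pool.Agent.Work.MP_8efaaa_nt.W14.LEp
import Pool.Agent.Work.MP_8efaaa_nt.W14.LTw
import Pool.Agent.Work.MP_8efaaa_nt.W14.LVx
import Pool.Agent.Work.MP_8efaaa_nt.W14.PGa

/-!
# V6/LLe (M): the local lemma, `r = 3 (mod 8)`

Model `W14/LLo.lean`, `LTw.lean`. `ρ = ζ - ζ^3`, `ρ^2 = 2`, `i = ζ^2`, `e = i ρ`, `e^2 = -2`. `q0 = pt (ρ - 1) (e (ρ - 1))`: `q0 + q0 = em`. `φ ζ = ζ^r = ζ^3` exactly (both are eighth roots of unity, congruent modulo `V`; as in `frob_it`), so `φ ρ = -ρ`, `φ i = -i`, `φ e = e`, `gal φ q0 = pt (-ρ - 1) (-e (ρ + 1))`, and `q0 - gal φ q0 = ep` (line through `q0` and `-gal φ q0 = (-ρ-1, e (ρ+1))`: slope `-e/ρ`, its square is `-1`,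
so the third coordinate is `-1 - (ρ - 1) - (-ρ - 1) = 1`). If `x + x - em ∈ E1 V` then `u = x - q0` satisfies `u + u ∈ E1 V`, so (`ep_cases`) `u - ε ∈ E1 V` for one of `ε = 0, ep, em, ez`; `gal φ ε = ε`, `gal φ` maps `E1 V` to itself (`gal_e1`, `vl_gt` or `hφ'`), so `u - gal φ u ∈ E1 V`.
-/

set_option autoImplicit false

namespace Pool.Agent.Work.MP_8efaaa_nt.V6

open NumberField Pool.Agent.Work.MP_8efaaa_nt.R Pool.Agent.Work.MP_8efaaa_nt.N5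
  Pool.Agent.Work.MP_8efaaa_nt.K6 Pool.Agent.Work.MP_8efaaa_nt.W14
open scoped Classical nonZeroDivisors

variable {F : Type*} [Field F] [NumberField F] {Γ : Type*} [LinearOrderedCommGroupWithZero Γ]
  {V : Valuation F Γ} {L : Ideal (𝓞 F)} {k0 : Type*} [Field k0] [Algebra k0 F]

theorem frob_z (h2 : V 2 = 1) {r : ℕ} (hr8 : r % 8 = 3) {ζ : F} (hz : ζ ^ 4 = -1)
    {φ : F ≃ₐ[k0] F} (hφ : ∀ x : F, V x ≤ 1 → V (φ x) ≤ 1 ∧ V (φ x - x ^ r) < 1) :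
    φ ζ = ζ ^ 3 := by
  have hVz4 : V ζ ^ 4 = 1 := by
    rw [← map_pow, hz, Valuation.map_neg, map_one]
  have hVz : V ζ = 1 := by
    rcases lt_trichotomy (V ζ) 1 with h1 | h1 | h1
    · exact absurd hVz4 (ne_of_lt (pow_lt_one₀ zero_le h1 (by norm_num)))
    · exact h1
    · exact absurd hVz4 (ne_of_gt (one_lt_pow₀ h1 (by norm_num)))
  obtain ⟨hφ1, hφ2⟩ := hφ ζ hVz.le
  have hzl : ζ ^ r = ζ ^ 3 := by
    obtain ⟨n, hn⟩ : ∃ n, r = 8 * n + 3 := ⟨r / 8, by omega⟩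
    have h8 : ζ ^ 8 = 1 := by linear_combination (ζ ^ 4 - 1) * hz
    rw [hn, pow_add, pow_mul, h8, one_pow, one_mul]
  rw [hzl] at hφ2
  set w := φ ζ with hw
  have hw4 : w ^ 4 = -1 := by
    rw [hw, ← map_pow, hz, map_neg, map_one]
  have hVzp : ∀ n : ℕ, V (ζ ^ n) = 1 := fun n => by rw [map_pow, hVz, one_pow]
  have hsq : V (w ^ 2 + ζ ^ 2) < 1 := by
    have h1 : w ^ 2 + ζ ^ 2 = (w + ζ ^ 3) * (w - ζ ^ 3) := by
      linear_combination ζ ^ 2 * hz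
    rw [h1]
    refine W5.vltm V (W5.vle V hφ1 ?_) hφ2
    rw [hVzp]
  have hw2 : w ^ 2 = -ζ ^ 2 := by
    have h1 : (w ^ 2) ^ 2 = (ζ ^ 2) ^ 2 := by rw [← pow_mul, ← pow_mul, hw4, hz]
    rcases sq_eq_sq_iff_eq_or_eq_neg.mp h1 with h3 | h3
    · exfalso
      rw [h3, show ζ ^ 2 + ζ ^ 2 = 2 * ζ ^ 2 by ring, map_mul, h2, hVzp, one_mul] at hsq
      exact lt_irrefl _ hsq
    · exact h3
  have h1 : w ^ 2 = (ζ ^ 3) ^ 2 := by
    linear_combination hw2 - ζ ^ 2 * hz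
  rcases sq_eq_sq_iff_eq_or_eq_neg.mp h1 with h3 | h3
  · exact h3
  · exfalso
    rw [h3, show -ζ ^ 3 - ζ ^ 3 = -(2 * ζ ^ 3) by ring, Valuation.map_neg, map_mul, h2, hVzp,
      one_mul] at hφ2
    exact lt_irrefl _ hφ2

theorem loc_em (h2 : V 2 = 1) {r : ℕ} (hr8 : r % 8 = 3) {ζ : F} (hz : ζ ^ 4 = -1)
    {φ : F ≃ₐ[k0] F} (hφ : ∀ x : F, V x ≤ 1 → V (φ x) ≤ 1 ∧ V (φ x - x ^ r) < 1)
    (hφ' : ∀ x : F, 1 < V x → 1 < V (φ x)) {x : (cQ F).Point}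
    (hx : x + x - W14.em F ∈ W5.E1 V) : x - gal φ x - ep F ∈ W5.E1 V := by
  have hfz := frob_z h2 hr8 hz hφ
  have hρ : (ζ - ζ ^ 3) ^ 2 = 2 := by linear_combination (ζ ^ 2 - 2) * hz
  have he : (ζ + ζ ^ 3) ^ 2 = -2 := by linear_combination (ζ ^ 2 + 2) * hz
  have hfρ : φ (ζ - ζ ^ 3) = -(ζ - ζ ^ 3) := by
    rw [map_sub, map_pow, hfz]
    linear_combination (-ζ ^ 5 + ζ) * hz
  have hfe : φ (ζ + ζ ^ 3) = ζ + ζ ^ 3 := by
    rw [map_add, map_pow, hfz]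
    linear_combination (ζ ^ 5 - ζ) * hz
  generalize ζ - ζ ^ 3 = ρ at hρ hfρ
  generalize ζ + ζ ^ 3 = e at he hfe
  have h20 : (2 : F) ≠ 0 := two_ne_zero
  have hρ0 : ρ ≠ 0 := by
    rintro rfl
    rw [zero_pow two_ne_zero] at hρ
    exact h20 hρ.symm
  have he0 : e ≠ 0 := by
    rintro rfl
    rw [zero_pow two_ne_zero] at he
    exact h20 (by linear_combination he)
  have hρ1 : ρ - 1 ≠ 0 := by
    intro h0
    have h1 : (1 : F) = 0 := by linear_combination -hρ + (ρ + 1) * h0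
    exact one_ne_zero h1
  have hc : (e * (ρ - 1)) ^ 2 = (ρ - 1) ^ 3 - (ρ - 1) := by
    linear_combination (ρ - 1) ^ 2 * he + (-(ρ - 1)) * hρ
  set q0 : (cQ F).Point := pt (ρ - 1) (e * (ρ - 1)) hc with hq0
  have hqq : q0 + q0 = W14.em F := by
    obtain ⟨x3, y3, h3, e1, e2⟩ := W5.dbl_pt hc (mul_ne_zero he0 hρ1)
    rw [hq0, e1]
    have hx3 : x3 = -1 := by
      have h5 : (2 * (e * (ρ - 1))) ^ 2 ≠ 0 :=
        pow_ne_zero 2 (mul_ne_zero h20 (mul_ne_zero he0 hρ1))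
      apply mul_right_cancel₀ h5
      rw [e2]
      linear_combination (4 * (ρ - 1) ^ 2) * he + (ρ ^ 2 - 4 * ρ + 2) * hρ
    subst hx3
    have hy3 : y3 = 0 := by
      have h5 : y3 ^ 2 = 0 := by rw [h3]; ring
      exact (pow_eq_zero_iff two_ne_zero).1 h5
    subst hy3
    rfl
  have hgq : q0 - gal φ q0 = ep F := by
    have hx12 : ρ - 1 ≠ φ (ρ - 1) := by
      rw [map_sub, map_one, hfρ]
      intro h0
      have h1 : 2 * ρ = 0 := by linear_combination h0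
      exact (mul_ne_zero h20 hρ0) h1
    rw [sub_eq_add_neg, hq0, gal_pt, W5.neg_pt]
    obtain ⟨x3, y3, h3, e1, e2⟩ := W5.add_pt hc
      (by rw [neg_sq]; exact gal_eq φ hc : (-(φ (e * (ρ - 1)))) ^ 2 = (φ (ρ - 1)) ^ 3 - φ (ρ - 1))
      hx12
    rw [e1]
    rw [map_mul, map_sub, map_one, hfρ, hfe] at e2
    have hx3 : x3 = 1 := by
      have h5 : (8 : F) ≠ 0 := by norm_num
      apply mul_right_cancel₀ h5
      linear_combination e2 + (-4 * x3 + 8) * hρ + 4 * he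
    subst hx3
    have hy3 : y3 = 0 := by
      have h5 : y3 ^ 2 = 0 := by rw [h3]; ring
      exact (pow_eq_zero_iff two_ne_zero).1 h5
    subst hy3
    rfl
  -- the point of the torsion
  set u := x - q0 with hu
  have huu : u + u ∈ W5.E1 V := by
    have h3 : u + u = x + x - W14.em F := by
      rw [hu, ← hqq]
      abel
    rw [h3]
    exact hx
  have hxu : x - gal φ x - ep F = u - gal φ u := by
    rw [hu, map_sub, ← hgq]
    abel
  rw [hxu]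
  have key : ∀ ε : (cQ F).Point, gal φ ε = ε → u - ε ∈ W5.E1 V → u - gal φ u ∈ W5.E1 V := by
    intro ε hε h3
    have h4 := (W5.E1 V).sub_mem h3 (gal_e1 hφ' h3)
    rw [map_sub, hε, sub_sub_sub_cancel_right] at h4
    exact h4
  rcases ep_cases h2 huu with h3 | h3 | h3 | h3
  · exact key 0 (map_zero _) (by rwa [sub_zero])
  · exact key _ (W14.gal_ep φ) h3
  · exact key _ (gal_two φ).1 h3
  · exact key _ (gal_two φ).2.1 h3

end Pool.Agent.Work.MP_8efaaa_nt.V6
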