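import Mathlib
import Pool.Agent.Work.MP_8efaaa_nt.V6.Defs
import Pool.Agent.Work.MP_8efaaa_nt.V6.PEx
import Pool.Agent.Work.MP_8efaaa_nt.V6.GPi
import Pool.Agent.Work.MP_8efaaa_nt.V6.QFa
import Pool.Agent.Work.MP_8efaaa_nt.V6.LLe
import Pool.Agent.Work.MP_8efaaa_nt.W14.LPt
import Pool.Agent.Work.MP_8efaaa_nt.W14.LVx
import Pool.Agent.Work.MP_8efaaa_nt.W14.CEq

/-!
# V6/SFr (M): Frobenius at a ramified prime `r = 3 (mod 8)`

`pp_frob` (W14/LPt) gives `φ`. fr_pi: `ρ = r6 S (a/2) * r6 S r`, `c ∈ M1`: `fr_px` for `r6 S r * c` (norm `3 (mod 8)`): `PP (ρ * c) + PP (r6 S r * c) = T' + ez`, and `PP (r6 S r * c) - gal φ (PP c) ∈ E1 V`; so `PP (ρ c) + gal φ (PP c) - (T' + ez) ∈ E1 V`, then `qn`, `HPi` (`clN (ρ c) = clN ρ * clN c`, `dd_mul`, `galB_n1`). `T3 = qn T' + n1 + dd (N ρ)`, `T3 + T3 = qn ep = n1`.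
fr_T: `φ (ζ^2) = ζ^6 = -ζ^2` (`frob_z`), `gal_T`: `gal φ T = T + em`, so `qn (gal φ T) = qn T`.
-/

set_option autoImplicit false

namespace Pool.Agent.Work.MP_8efaaa_nt.V6

open NumberField Pool.Agent.Work.MP_8efaaa_nt.R Pool.Agent.Work.MP_8efaaa_nt.N5
  Pool.Agent.Work.MP_8efaaa_nt.K6 Pool.Agent.Work.MP_8efaaa_nt.W14
open scoped Classical nonZeroDivisors

variable {K F : Type*} [Field K] [NumberField K] [Field F] [NumberField F] [Algebra K F] {a : ℕ}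
  {s : K} {S : 𝓞 K} {τ : 𝓞 K ≃+* 𝓞 K} {ζ : F} {w : ℕ → F} {z k v : Ideal (𝓞 K) → F}
  {κ : F ≃ₐ[ℚ] F}

theorem fr_pi (hb : B6 K a s) (hS : algebraMap (𝓞 K) K S = s)
    (ha : a % 16 = 6) (hU : UD6 K F a s S τ ζ w z k v κ) {Γ : Type}
    [LinearOrderedCommGroupWithZero Γ] {V : Valuation F Γ} {r : ℕ} (hr8 : r % 8 = 3)
    (hra : r ∣ a) {φ : F ≃ₐ[K] F}
    (hφ : ∀ c, OddI c → PP z k v (r6 S r * c) - gal φ (PP z k v c) ∈ W5.E1 V) {ρ : M1 K}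
    (hρ : (ρ : Ideal (𝓞 K)) = r6 S (a / 2) * r6 S r) {f : CG S → QB F} (hf : HPi S z k v f)
    (hsu : Function.Surjective (clN S)) :
    ∃ T3 : QB F, T3 + T3 = n1 F ∧ ∀ g, f (clN S ρ * g) + galB φ (f g) - T3 ∈ EB V := by
  obtain ⟨T', hT', hfr⟩ := fr_px hb hS hU
  obtain ⟨q1, q2, q3, q4, -⟩ := qn_em (F := F)
  refine ⟨qn T' + n1 F + dd F (Ideal.absNorm (ρ : Ideal (𝓞 K))), ?_, fun g => ?_⟩
  · have h1 : qn T' + n1 F + dd F (Ideal.absNorm (ρ : Ideal (𝓞 K))) +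
        (qn T' + n1 F + dd F (Ideal.absNorm (ρ : Ideal (𝓞 K)))) =
        qn (T' + T') + (n1 F + n1 F) +
        (dd F (Ideal.absNorm (ρ : Ideal (𝓞 K))) + dd F (Ideal.absNorm (ρ : Ideal (𝓞 K)))) := by
      rw [map_add]
      abel
    rw [h1, hT', q3, q4, dd_add, add_zero, add_zero]
  · obtain ⟨c, rfl⟩ := hsu g
    rw [← map_mul, ← hf (ρ * c), ← hf c]
    have hc := M1.odd c.2
    have hnr : Ideal.absNorm (r6 S r * (c : Ideal (𝓞 K))) =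
        r * Ideal.absNorm (c : Ideal (𝓞 K)) := by
      rw [map_mul, norm_r6 hb hS hra]
    have h8 : Ideal.absNorm (r6 S r * (c : Ideal (𝓞 K))) % 8 = 3 := by
      rw [hnr, Nat.mul_mod, hr8, M1.nrm c.2]
    have hrc : OddI (r6 S r * (c : Ideal (𝓞 K))) := by
      unfold OddI
      rw [Nat.odd_iff]
      omega
    have h1 := hfr _ hrc
    rw [if_neg (by omega)] at h1
    have h2 : ((ρ * c : M1 K) : Ideal (𝓞 K)) =
        r6 S (a / 2) * (r6 S r * (c : Ideal (𝓞 K))) := by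
      rw [Submonoid.coe_mul, hρ, mul_assoc]
    have h3 : Ideal.absNorm ((ρ * c : M1 K) : Ideal (𝓞 K)) =
        Ideal.absNorm (ρ : Ideal (𝓞 K)) * Ideal.absNorm (c : Ideal (𝓞 K)) := by
      rw [Submonoid.coe_mul, map_mul]
    have h4 : PB z k v ((ρ * c : M1 K) : Ideal (𝓞 K)) = qn T' + n1 F -
        qn (PP z k v (r6 S r * (c : Ideal (𝓞 K)))) := by
      unfold PB
      rw [h2, eq_sub_iff_add_eq, ← map_add, h1, map_add]
      rfl
    rw [h4, h3, dd_mul (M1.nrm ρ.2) (M1.nrm c.2), map_add, (galB_n1 φ).2]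
    have h5 : galB φ (PB z k v (c : Ideal (𝓞 K))) = qn (gal φ (PP z k v (c : Ideal (𝓞 K)))) := rfl
    rw [h5]
    have h6 := dd_add (F := F) (Ideal.absNorm (c : Ideal (𝓞 K)))
    have h7 : qn T' + n1 F - qn (PP z k v (r6 S r * (c : Ideal (𝓞 K)))) +
        (dd F (Ideal.absNorm (ρ : Ideal (𝓞 K))) + dd F (Ideal.absNorm (c : Ideal (𝓞 K)))) +
        (qn (gal φ (PP z k v (c : Ideal (𝓞 K)))) + dd F (Ideal.absNorm (c : Ideal (𝓞 K)))) -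
        (qn T' + n1 F + dd F (Ideal.absNorm (ρ : Ideal (𝓞 K)))) =
        -qn (PP z k v (r6 S r * (c : Ideal (𝓞 K))) - gal φ (PP z k v (c : Ideal (𝓞 K)))) +
        (dd F (Ideal.absNorm (c : Ideal (𝓞 K))) + dd F (Ideal.absNorm (c : Ideal (𝓞 K)))) := by
      rw [map_sub]
      abel
    rw [h7, h6, add_zero]
    exact (EB V).neg_mem (AddSubgroup.mem_map_of_mem qn (hφ _ hc))

theorem fr_T {F : Type*} [Field F] [NumberField F] {Γ : Type*} [LinearOrderedCommGroupWithZero Γ]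
    {V : Valuation F Γ} {k0 : Type*} [Field k0] [Algebra k0 F] (h2 : V 2 = 1) {r : ℕ}
    (hr8 : r % 8 = 3) {ζ : F} (hz : ζ ^ 4 = -1) {φ : F ≃ₐ[k0] F}
    (hφ : ∀ x : F, V x ≤ 1 → V (φ x) ≤ 1 ∧ V (φ x - x ^ r) < 1) {T : (cQ F).Point}
    (hT : T + T = ez F) (n : ℕ) : qn T + dd F n - galB φ (qn T + dd F n) = 0 := by
  have h1 := frob_z h2 hr8 hz hφ
  have h3 : φ (ζ ^ 2) = -ζ ^ 2 := by
    rw [map_pow, h1]
    linear_combination ζ ^ 2 * hz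
  have h4 := (gal_T hz φ hT).2 h3
  rw [map_add, (galB_n1 φ).2, galB_qn, h4, map_add, qn_em.1, add_zero, sub_self]

end Pool.Agent.Work.MP_8efaaa_nt.V6
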