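import Mathlib
import Pool.Agent.Work.MP_8efaaa_nt.V6.Defs
import Pool.Agent.Work.MP_8efaaa_nt.V6.PEx
import Pool.Agent.Work.MP_8efaaa_nt.V6.GPi
import Pool.Agent.Work.MP_8efaaa_nt.V6.QFa
import Pool.Agent.Work.MP_8efaaa_nt.W14.LPt
import Pool.Agent.Work.MP_8efaaa_nt.W14.LVx
import Pool.Agent.Work.MP_8efaaa_nt.W14.CEq
import Pool.Agent.Work.MP_8efaaa_nt.K6.DAc
import Pool.Agent.Work.MP_8efaaa_nt.K6.DIn
import Pool.Agent.Work.MP_8efaaa_nt.R.EInt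

/-!
# V6/SIn (M): inertia at a ramified prime `l`, `a = 6 (mod 16)`

See `pp_inert` (W14/LPt.lean; copy its proof to get also the symbols of the `d` divisible by `l`, from `inert_act6`): `b` with `N b = 7 (mod 8)` and `PP (b * cj τ c) - PP c ∈ E1 V`. `w0 = (1+S) * b`, norm `(1+a) N b = 49 = 1 (mod 8)` (`norm_g`; `1 + a` is prime to `a`). `tq_px` for `b * cj τ c`, of norm `7 N c = 3 (mod 4)`: `PP (w0 * cj τ c) + PP (b * cj τ c) = T + em`. So `in_pp`. `in_pi`: `qn`; `clN (w0 * cj τ c) = clN w0 * (clN c)⁻¹`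
(`cls_cj`), `HPi`; `T1 = qn T + dd (N w0)`: `T1 + T1 = qn ez = n1`.
-/

set_option autoImplicit false

namespace Pool.Agent.Work.MP_8efaaa_nt.V6

open NumberField Pool.Agent.Work.MP_8efaaa_nt.R Pool.Agent.Work.MP_8efaaa_nt.N5
  Pool.Agent.Work.MP_8efaaa_nt.K6 Pool.Agent.Work.MP_8efaaa_nt.W14
open scoped Classical nonZeroDivisors

variable {K F : Type*} [Field K] [NumberField K] [Field F] [NumberField F] [Algebra K F] {a : ℕ}
  {s : K} {S : 𝓞 K} {τ : 𝓞 K ≃+* 𝓞 K} {ζ : F} {w : ℕ → F} {z k v : Ideal (𝓞 K) → F}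
  {κ : F ≃ₐ[ℚ] F}

theorem in_pp [IsGalois ℚ F] (hb : B6 K a s) (hS : algebraMap (𝓞 K) K S = s) (hτ : τ S = -S)
    (ha : a % 16 = 6) (hU : UD6 K F a s S τ ζ w z k v κ) {T : (cQ F).Point}
    (hT : ∀ c, OddI c → PP z k v (Ideal.span {1 + S} * c) + PP z k v c =
        T + if Ideal.absNorm c % 4 = 1 then 0 else W14.em F) {Γ : Type}
    [LinearOrderedCommGroupWithZero Γ] {V : Valuation F Γ} {L : Ideal (𝓞 F)} (hV : VL V L)
    {l : ℕ} (hl : l.Prime) (hl2 : l ≠ 2) (hla : l ∣ a) (hlL : (l : 𝓞 F) ∈ L) :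
    ∃ (b : Ideal (𝓞 K)) (w0 : M1 K), Ideal.absNorm b % 8 = 7 ∧
      Nat.Coprime (Ideal.absNorm b) a ∧ (w0 : Ideal (𝓞 K)) = Ideal.span {1 + S} * b ∧
      (∀ d, d ∣ a → ¬ l ∣ d → jacobiSym d (Ideal.absNorm b) = 1) ∧
      (∀ d, d ∣ a → l ∣ d → jacobiSym d (Ideal.absNorm b) = -1) ∧
      ∀ c ∈ M1 K, PP z k v ((w0 : Ideal (𝓞 K)) * cj τ c) + PP z k v c - (T + W14.em F) ∈ W5.E1 V := by
  obtain ⟨ι, hin, hι⟩ := exists_inert6 hb hl hl2 hla hV.prime hlL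
  obtain ⟨b, h8, hba, hj, hj', hact⟩ := inert_act6 hb hS hτ hU hl hl2 hla hlL hin hι
  obtain ⟨h2L, hV2, -⟩ := vl_odd hV hl hl2 hlL
  have hmem : ∀ c, OddI c → PP z k v (b * cj τ c) - PP z k v c ∈ W5.E1 V := by
    intro c hc
    obtain ⟨e1, e2, e3⟩ := hact c hc
    have hg : gal ι (PP z k v c) = PP z k v (b * cj τ c) := gal_pp ι e1 e2 e3
    obtain ⟨x, y, h, e, hVx, hVy⟩ := pp_val hU hV h2L hc
    have hred := vl_red hV (σ := ι) (n := 1) (fun t => by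
      obtain ⟨u, hu, hu2⟩ := hin.triv t
      exact ⟨u, hu, by rw [hu2, pow_one]⟩)
    rw [← hg, e, gal_pt]
    have hx1 := (hred x hVx).2
    have hy1 := (hred y hVy).2
    rw [pow_one] at hx1 hy1
    exact W5.sub_mem hV2 hVx hx1 hy1
  have hw0 : Ideal.absNorm (Ideal.span {1 + S} * b) % 8 = 1 := by
    rw [map_mul, norm_g hb hS, Nat.mul_mod, h8]
    have h5 : (1 + a) % 8 = 7 := by omega
    rw [h5]
  refine ⟨b, ⟨Ideal.span {1 + S} * b, hw0⟩, h8, hba, rfl, hj, hj', fun c hc => ?_⟩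
  have hco := M1.odd hc
  obtain ⟨n1', -, -⟩ := norm_cj6 hb hS hτ c
  have hN : Ideal.absNorm (b * cj τ c) % 8 = 7 := by
    rw [map_mul, n1', Nat.mul_mod, h8, M1.nrm hc]
  have hodd : OddI (b * cj τ c) := by
    unfold OddI
    rw [Nat.odd_iff]
    omega
  have h1 := hT _ hodd
  rw [if_neg (by omega), ← mul_assoc] at h1
  have h2 : PP z k v (Ideal.span {1 + S} * b * cj τ c) + PP z k v c - (T + W14.em F) =
      -(PP z k v (b * cj τ c) - PP z k v c) := by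
    rw [← h1]
    abel
  show PP z k v (Ideal.span {1 + S} * b * cj τ c) + PP z k v c - (T + W14.em F) ∈ W5.E1 V
  rw [h2]
  exact (W5.E1 V).neg_mem (hmem c hco)

theorem in_pi (hb : B6 K a s) (hS : algebraMap (𝓞 K) K S = s) (hτ : τ S = -S)
    (ha : a % 16 = 6) {T : (cQ F).Point} (hT : T + T = ez F) {Γ : Type}
    [LinearOrderedCommGroupWithZero Γ] {V : Valuation F Γ} {w0 : M1 K}
    (h : ∀ c ∈ M1 K, PP z k v ((w0 : Ideal (𝓞 K)) * cj τ c) + PP z k v c - (T + W14.em F) ∈ W5.E1 V)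
    {f : CG S → QB F} (hf : HPi S z k v f) :
    (∀ g, f (clN S w0 * g⁻¹) + f g - (qn T + dd F (Ideal.absNorm (w0 : Ideal (𝓞 K)))) ∈ EB V) ∧
    (qn T + dd F (Ideal.absNorm (w0 : Ideal (𝓞 K)))) +
      (qn T + dd F (Ideal.absNorm (w0 : Ideal (𝓞 K)))) = n1 F := by
  constructor
  · intro g
    obtain ⟨c, rfl⟩ := clN_surj hb hS ha g
    obtain ⟨n1', -, -⟩ := norm_cj6 hb hS hτ (c : Ideal (𝓞 K))
    have hc' : cj τ (c : Ideal (𝓞 K)) ∈ M1 K := by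
      show Ideal.absNorm (cj τ (c : Ideal (𝓞 K))) % 8 = 1
      rw [n1']
      exact M1.nrm c.2
    have hinv : clN S ⟨cj τ (c : Ideal (𝓞 K)), hc'⟩ = (clN S c)⁻¹ := by
      show QuotientGroup.mk (cls (cj τ (c : Ideal (𝓞 K)))) = (QuotientGroup.mk (cls (c : Ideal (𝓞 K))))⁻¹
      rw [(cls_cj hb hS hτ (M1.ne c.2)).2]
      rfl
    rw [← hinv, ← map_mul, ← hf (w0 * ⟨cj τ (c : Ideal (𝓞 K)), hc'⟩), ← hf c]
    have e1 : ((w0 * ⟨cj τ (c : Ideal (𝓞 K)), hc'⟩ : M1 K) : Ideal (𝓞 K)) =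
        (w0 : Ideal (𝓞 K)) * cj τ (c : Ideal (𝓞 K)) := rfl
    have e2 : Ideal.absNorm ((w0 : Ideal (𝓞 K)) * cj τ (c : Ideal (𝓞 K))) =
        Ideal.absNorm (w0 : Ideal (𝓞 K)) * Ideal.absNorm (c : Ideal (𝓞 K)) := by
      rw [map_mul, n1']
    rw [e1, e2, dd_mul (M1.nrm w0.2) (M1.nrm c.2)]
    have h6 := dd_add (F := F) (Ideal.absNorm (c : Ideal (𝓞 K)))
    have h7 : PB z k v ((w0 : Ideal (𝓞 K)) * cj τ (c : Ideal (𝓞 K))) +
        (dd F (Ideal.absNorm (w0 : Ideal (𝓞 K))) + dd F (Ideal.absNorm (c : Ideal (𝓞 K)))) +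
        (PB z k v (c : Ideal (𝓞 K)) + dd F (Ideal.absNorm (c : Ideal (𝓞 K)))) -
        (qn T + dd F (Ideal.absNorm (w0 : Ideal (𝓞 K)))) =
        qn (PP z k v ((w0 : Ideal (𝓞 K)) * cj τ (c : Ideal (𝓞 K))) +
          PP z k v (c : Ideal (𝓞 K)) - (T + W14.em F)) +
        (dd F (Ideal.absNorm (c : Ideal (𝓞 K))) + dd F (Ideal.absNorm (c : Ideal (𝓞 K)))) := by
      unfold PB
      rw [map_sub, map_add, map_add, qn_em.1, add_zero]
      abel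
    rw [h7, h6, add_zero]
    exact AddSubgroup.mem_map_of_mem qn (h _ c.2)
  · have h1 : qn T + dd F (Ideal.absNorm (w0 : Ideal (𝓞 K))) +
        (qn T + dd F (Ideal.absNorm (w0 : Ideal (𝓞 K)))) = qn (T + T) +
        (dd F (Ideal.absNorm (w0 : Ideal (𝓞 K))) + dd F (Ideal.absNorm (w0 : Ideal (𝓞 K)))) := by
      rw [map_add]
      abel
    rw [h1, hT, dd_add, add_zero]
    rfl

end Pool.Agent.Work.MP_8efaaa_nt.V6
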