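import Mathlib
import Pool.Agent.Work.MP_8efaaa_nt.V6.Defs
import Pool.Agent.Work.MP_8efaaa_nt.W14.CCh
import Pool.Agent.Work.MP_8efaaa_nt.W14.CEq
import Pool.Agent.Work.MP_8efaaa_nt.W14.CCo
import Pool.Agent.Work.MP_8efaaa_nt.K6.ARg
import Pool.Agent.Work.MP_8efaaa_nt.K6.ARm

/-!
# V6/GNu (M): symbols of the ideals of the square classes

Model `chi_sq` (W14/CCh.lean). `C = cls c` with `N c` prime to `2 q N b` (`exists_cop`). (1) `cls b = C * C`: `b * (cj τ c)^2 = (γ)`, `N b (N c)^2 = x^2 + a y^2`, `num_desc`. (2) `cls b = cls (r6 S 2) * (C * C)`: `b * r6 S 2 * (cj τ c)^2 = (γ)`, `2 N b (N c)^2 = x^2 + a y^2`, `num_desc` with `n = 2 N b`, `jacobiSym.mul_left`.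
two_nsq: `r6 S 2 * (cj τ c)^2 = (γ)`, `2 (N c)^2 = x^2 + a y^2`, so `jacobiSym 2 q = 1`, `q = ±1 (mod 8)` (`ZMod.exists_sq_eq_two_iff`).
-/

set_option autoImplicit false

namespace Pool.Agent.Work.MP_8efaaa_nt.V6

open NumberField Pool.Agent.Work.MP_8efaaa_nt.R Pool.Agent.Work.MP_8efaaa_nt.N5
  Pool.Agent.Work.MP_8efaaa_nt.K6 Pool.Agent.Work.MP_8efaaa_nt.W14
open scoped Classical nonZeroDivisors

variable {K : Type*} [Field K] [NumberField K] {a : ℕ} {s : K} {S : 𝓞 K} {τ : 𝓞 K ≃+* 𝓞 K}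

theorem chi_sq1 (hb : B6 K a s) (hS : algebraMap (𝓞 K) K S = s) (hτ : τ S = -S) {q : ℕ}
    (hq : q.Prime) (hq2 : q ≠ 2) (hqa : q ∣ a) {b : Ideal (𝓞 K)} (hb0 : b ≠ 0)
    (hbq : ¬ q ∣ Ideal.absNorm b) {C : ClassGroup (𝓞 K)} :
    (cls b = C * C → jacobiSym (Ideal.absNorm b) q = 1) ∧
    (cls b = cls (r6 S 2) * (C * C) → jacobiSym (Ideal.absNorm b) q = jacobiSym 2 q) := by
  obtain ⟨c, hc, rfl⟩ := cls_surj hb hS C
  have hc0 := M13.ne hc
  obtain ⟨hcj0, hcj⟩ := cls_cj hb hS hτ hc0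
  have hNc : Ideal.absNorm c ≠ 0 := fun h0 => hc0 (Ideal.absNorm_eq_zero_iff.1 h0)
  have hcc0 : cj τ c * cj τ c ≠ 0 := mul_ne_zero hcj0 hcj0
  have hcc : cls (cj τ c * cj τ c) = (cls c * cls c)⁻¹ := by
    rw [cls_mul hcj0 hcj0, hcj, mul_inv]
  have hNcc : Ideal.absNorm (cj τ c * cj τ c) = Ideal.absNorm c ^ 2 := by
    rw [map_mul, (norm_cj6 hb hS hτ c).1, pow_two]
  constructor
  · intro h
    obtain ⟨γ, -, h2⟩ := prin_of_cls (b := b * (cj τ c * cj τ c)) (mul_ne_zero hb0 hcc0)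
      (by rw [cls_mul hb0 hcc0, hcc, h, mul_inv_cancel])
    obtain ⟨x, y, hxy⟩ := coords6 hb γ
    have h3 := norm_lin6 hb hxy
    rw [← h2, map_mul, hNcc] at h3
    push_cast at h3
    exact num_desc hq hq2 hqa hb.sf hNc hbq h3
  · intro h
    have h20 : (2 : ℕ) ∣ a := by
      have := hb.mod
      omega
    have hr0 := r6_ne hb hS h20
    obtain ⟨γ, -, h2⟩ := prin_of_cls (b := r6 S 2 * b * (cj τ c * cj τ c))
      (mul_ne_zero (mul_ne_zero hr0 hb0) hcc0)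
      (by rw [cls_mul (mul_ne_zero hr0 hb0) hcc0, cls_mul hr0 hb0, hcc, h, ← mul_assoc (cls (r6 S 2)),
            (cls_two hb hS).1, one_mul, mul_inv_cancel])
    obtain ⟨x, y, hxy⟩ := coords6 hb γ
    have h3 := norm_lin6 hb hxy
    rw [← h2, map_mul, map_mul, hNcc, norm_r6 hb hS h20] at h3
    have hnq : ¬ q ∣ 2 * Ideal.absNorm b := by
      intro h4
      rcases (Nat.Prime.dvd_mul hq).1 h4 with h5 | h5
      · exact hq2 ((Nat.prime_dvd_prime_iff_eq hq Nat.prime_two).1 h5)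
      · exact hbq h5
    have h4 := num_desc (n := 2 * Ideal.absNorm b) hq hq2 hqa hb.sf hNc hnq
      (by push_cast at h3 ⊢; exact h3)
    push_cast at h4
    rw [jacobiSym.mul_left] at h4
    exact (Int.eq_of_mul_eq_one h4).symm

theorem two_nsq (hb : B6 K a s) (hS : algebraMap (𝓞 K) K S = s) (hτ : τ S = -S) {q : ℕ}
    (hq : q.Prime) (hq8 : q % 8 = 3 ∨ q % 8 = 5) (hqa : q ∣ a) (C : ClassGroup (𝓞 K)) :
    C * C ≠ cls (r6 S 2) := by
  intro h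
  have hq2 : q ≠ 2 := by
    rintro rfl
    omega
  have h20 : (2 : ℕ) ∣ a := by
    have := hb.mod
    omega
  have hr0 := r6_ne hb hS h20
  have hn := norm_r6 hb hS h20
  have hnq : ¬ q ∣ Ideal.absNorm (r6 S 2) := by
    rw [hn]
    intro h4
    exact hq2 ((Nat.prime_dvd_prime_iff_eq hq Nat.prime_two).1 h4)
  have h1 := (chi_sq1 hb hS hτ hq hq2 hqa hr0 hnq (C := C)).1 h.symm
  have hodd : Odd q := hq.odd_of_ne_two hq2
  rw [hn] at h1
  push_cast at h1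
  rw [jacobiSym.at_two hodd, ZMod.χ₈_nat_eq_if_mod_eight] at h1
  have h5 : q % 2 ≠ 0 := by omega
  have h6 : ¬ (q % 8 = 1 ∨ q % 8 = 7) := by omega
  rw [if_neg h5, if_neg h6] at h1
  norm_num at h1

end Pool.Agent.Work.MP_8efaaa_nt.V6
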