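import Mathlib
import Pool.Agent.Work.MP_8efaaa_nt.V6.Defs
import Pool.Agent.Work.MP_8efaaa_nt.V6.GSu
import Pool.Agent.Work.MP_8efaaa_nt.V6.GNu
import Pool.Agent.Work.MP_8efaaa_nt.W14.CCo
import Pool.Agent.Work.MP_8efaaa_nt.W14.CEq

/-!
# V6/GGe (M-L): squares in `CG S`

gen_nsq: `g = mk C`, `g * g = clN S w0 = mk (cls b)`: `cls b = C * C` or `cls (r6 S 2) * (C * C)`; `chi_sq1` for `p` and `q`: both symbols of `N b` are `1`, or both are `jacobiSym 2 _ = -1` (`p = q = 5 (mod 8)`); but they are different.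
gen_sq: let `T` be the set of the `g : CG S` for which there is `c : M1 K` with `clN S c = g`, `N c` prime to `p q` and `jacobiSym (N c) p = jacobiSym (N c) q = 1`. (Every `g` has representatives of norm prime to `p q` in `M1 K`: `exists_cop` with `M = 2 a`, and multiply by `r6 S (a/2)`, `(1+S)`... or better: `C = cls c'`, `N c'` prime to `2 a`; if `N c' ≠ 1 (mod 8)` multiply by
`(1 + 2 S)`, or an element `1 + x S`, `x` odd, of norm `1 + a x^2` prime to `a` (always), norm `7 (mod 8)`, and by an ideal of norm `3 (mod 8)`, prime to `a`, in the class `t`; e.g. `2 + S` has norm `4 + a = 2 (2 + a/2)`, and `(2 + S) = r6 S 2 * c2`, `N c2 = 2 + a/2 = 5 (mod 8)`, prime to `a`.) If `clN S c = clN S c'`, then the symbols of `N c`, `N c'` modulo `p` and `q` agree (`clN_eq`: `c * cj τ c' = (γ)`, `N c N c' = x^2 + a y^2`, `num_desc` with `M = 1`).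
So `T` is a subgroup; it contains all squares, and its index is at least `4`: `u1`, `u2`, `u1 u2` and `1` are different modulo `T`. The squares have the index `|{g : g * g = 1}| ≤ 4` (`h4`). So `T` = the squares (`W14/TGe.lean` is a model).
-/

set_option autoImplicit false

namespace Pool.Agent.Work.MP_8efaaa_nt.V6

open NumberField Pool.Agent.Work.MP_8efaaa_nt.R Pool.Agent.Work.MP_8efaaa_nt.N5
  Pool.Agent.Work.MP_8efaaa_nt.K6 Pool.Agent.Work.MP_8efaaa_nt.W14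
open scoped Classical nonZeroDivisors

variable {K : Type*} [Field K] [NumberField K] {a : ℕ} {s : K} {S : 𝓞 K} {τ : 𝓞 K ≃+* 𝓞 K}

private theorem J_pm {p : ℕ} (hp : p.Prime) {n : ℕ} (h : ¬ p ∣ n) :
    jacobiSym n p = 1 ∨ jacobiSym n p = -1 := by
  apply jacobiSym.eq_one_or_neg_one
  rw [Int.gcd_natCast_natCast]
  exact ((Nat.Prime.coprime_iff_not_dvd hp).2 h).symm

private theorem J_ne {p : ℕ} (hp : p.Prime) {n : ℕ} (h : jacobiSym n p ≠ 0) : ¬ p ∣ n := by
  intro h1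
  apply h
  haveI : NeZero p := ⟨hp.ne_zero⟩
  rw [jacobiSym.eq_zero_iff_not_coprime]
  rw [Int.gcd_natCast_natCast, Nat.gcd_eq_right h1]
  exact hp.one_lt.ne'

private theorem J_two {q : ℕ} (hq : q.Prime) (hq8 : q % 8 = 5) : jacobiSym 2 q = -1 := by
  haveI := Fact.mk hq
  rw [← jacobiSym.legendreSym.to_jacobiSym, legendreSym.at_two (by omega)]
  have h1 : ((q : ℕ) : ZMod 8) = (5 : ℕ) := by
    rw [ZMod.natCast_eq_natCast_iff']
    omega
  rw [h1]
  decide

private theorem wdp (hb : B6 K a s) (hS : algebraMap (𝓞 K) K S = s) (hτ : τ S = -S)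
    {p : ℕ} (hp : p.Prime) (hp2 : p ≠ 2) (hpa : p ∣ a)
    {b c : Ideal (𝓞 K)} (hb0 : b ≠ 0) (hc0 : c ≠ 0) (hbp : ¬ p ∣ Ideal.absNorm b)
    (hcp : ¬ p ∣ Ideal.absNorm c) (h : cls b = cls c) :
    jacobiSym (Ideal.absNorm b) p = jacobiSym (Ideal.absNorm c) p := by
  obtain ⟨h1, h2⟩ := cls_cj hb hS hτ hc0
  obtain ⟨γ, hγ0, hγ⟩ := prin_of_cls (mul_ne_zero hb0 h1)
    (by rw [cls_mul hb0 h1, h2, h, mul_inv_cancel])
  obtain ⟨x, y, hxy⟩ := coords6 hb γ
  have h3 := norm_lin6 hb hxy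
  rw [← hγ, map_mul, (norm_cj6 hb hS hτ c).1] at h3
  have h4 : jacobiSym ((Ideal.absNorm b * Ideal.absNorm c : ℕ) : ℤ) p = 1 := by
    refine num_desc hp hp2 (a := a) hpa hb.sf (M := 1) (x := x) (y := y)
      one_ne_zero ?_ ?_
    · intro h5
      rcases (Nat.Prime.dvd_mul hp).1 h5 with h6 | h6
      · exact hbp h6
      · exact hcp h6
    · rw [h3]
      push_cast
      ring
  rw [Nat.cast_mul, jacobiSym.mul_left] at h4
  rcases J_pm hp hbp with h5 | h5 <;> rcases J_pm hp hcp with h6 | h6 <;> rw [h5, h6] at h4 ⊢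
  · norm_num at h4
  · norm_num at h4

/-- the elements of the class of `1` in `CG S` -/
private theorem mk_eq_cases (hb : B6 K a s) (hS : algebraMap (𝓞 K) K S = s)
    {B C : ClassGroup (𝓞 K)} (h : (QuotientGroup.mk C : CG S) = QuotientGroup.mk B) :
    B = C ∨ B = cls (r6 S 2) * C := by
  have ht : cls (r6 S 2) * cls (r6 S 2) = 1 := (cls_two hb hS).1
  rw [QuotientGroup.eq] at h
  obtain ⟨k, hk⟩ := Subgroup.mem_zpowers_iff.1 h
  have hcb : B = C * cls (r6 S 2) ^ k := by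
    rw [hk, mul_inv_cancel_left]
  rcases Int.even_or_odd' k with ⟨j, rfl | rfl⟩
  · left
    rw [hcb, zpow_mul, zpow_two, ht, one_zpow, mul_one]
  · right
    rw [hcb, zpow_add, zpow_mul, zpow_two, ht, one_zpow, one_mul, zpow_one, mul_comm]

/-- representatives of norm prime to `a` -/
private theorem exists_rep (hb : B6 K a s) (hS : algebraMap (𝓞 K) K S = s) (hτ : τ S = -S)
    (ha : a % 16 = 6) (g : CG S) :
    ∃ c : M1 K, clN S c = g ∧ Nat.Coprime (Ideal.absNorm (c : Ideal (𝓞 K))) a := by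
  obtain ⟨c0, hc0⟩ := clN_surj hb hS ha g
  have ha0 : a ≠ 0 := hb.sf.ne_zero
  obtain ⟨c, hc1, hc2, hc3⟩ := exists_cop (K := K) (cls (c0 : Ideal (𝓞 K)))
    (M := 2 * a) (mul_ne_zero two_ne_zero ha0)
  have hca : Nat.Coprime (Ideal.absNorm c) a := Nat.Coprime.coprime_dvd_right ⟨2, by ring⟩ hc2
  have hcodd : OddI c := by
    have h1 : Nat.Coprime (Ideal.absNorm c) 2 := Nat.Coprime.coprime_dvd_right ⟨a, rfl⟩ hc2
    exact Nat.coprime_two_right.1 h1
  have h00 : (c0 : Ideal (𝓞 K)) ≠ 0 := M1.ne c0.2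
  have h08 := M1.nrm c0.2
  obtain ⟨k1, k2⟩ := cls_cj hb hS hτ h00
  obtain ⟨γ, hγ0, hγ⟩ := prin_of_cls (mul_ne_zero hc1 k1)
    (by rw [cls_mul hc1 k1, k2, hc3, mul_inv_cancel])
  have hγn : Ideal.absNorm (Ideal.span {γ}) = Ideal.absNorm c *
      Ideal.absNorm (c0 : Ideal (𝓞 K)) := by
    rw [← hγ, map_mul, (norm_cj6 hb hS hτ _).1]
  have hγo : OddI (Ideal.span {γ}) := by
    unfold OddI
    rw [hγn]
    exact Odd.mul hcodd (M1.odd c0.2)
  have h8 := norm_prin hb hS hγo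
  rw [hγn, Nat.mul_mod, h08, mul_one, Nat.mod_mod] at h8
  rcases h8 with h8 | h8
  · refine ⟨⟨c, h8⟩, ?_, hca⟩
    rw [← hc0]
    show (QuotientGroup.mk (cls c) : CG S) = QuotientGroup.mk (cls (c0 : Ideal (𝓞 K)))
    rw [hc3]
  · have hg := norm_g hb hS
    have hg0 : Ideal.span {(1 + S : 𝓞 K)} ≠ 0 := by
      intro h
      rw [h, map_zero] at hg
      omega
    have hg1 : cls (Ideal.span {(1 + S : 𝓞 K)}) = 1 := cls_span (by
      intro h
      apply hg0
      rw [h]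
      exact Ideal.span_singleton_eq_bot.2 rfl)
    have hm : Ideal.absNorm (Ideal.span {(1 + S : 𝓞 K)} * c) % 8 = 1 := by
      rw [map_mul, hg, Nat.mul_mod, h8]
      have : (1 + a) % 8 = 7 := by omega
      rw [this]
    refine ⟨⟨Ideal.span {(1 + S : 𝓞 K)} * c, hm⟩, ?_, ?_⟩
    · rw [← hc0]
      show (QuotientGroup.mk (cls (Ideal.span {(1 + S : 𝓞 K)} * c)) : CG S) =
        QuotientGroup.mk (cls (c0 : Ideal (𝓞 K)))
      rw [cls_mul hg0 hc1, hg1, one_mul, hc3]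
    · show Nat.Coprime (Ideal.absNorm (Ideal.span {(1 + S : 𝓞 K)} * c)) a
      rw [map_mul, hg]
      refine Nat.Coprime.mul_left ?_ hca
      simp

private theorem genus_hom (hb : B6 K a s) (hS : algebraMap (𝓞 K) K S = s) (hτ : τ S = -S)
    (ha : a % 16 = 6)
    {p q : ℕ} (hp : p.Prime) (hq : q.Prime) (hp2 : p ≠ 2) (hq2 : q ≠ 2) (hpa : p ∣ a)
    (hqa : q ∣ a) :
    ∃ φ : CG S →* ℤ × ℤ,
      (∀ b : M1 K, Nat.Coprime (Ideal.absNorm (b : Ideal (𝓞 K))) a →
        φ (clN S b) = (jacobiSym (Ideal.absNorm (b : Ideal (𝓞 K))) p,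
          jacobiSym (Ideal.absNorm (b : Ideal (𝓞 K))) q)) ∧
      (∀ C, ((φ C).1 = 1 ∨ (φ C).1 = -1) ∧ ((φ C).2 = 1 ∨ (φ C).2 = -1)) := by
  choose r hrC hrc using fun g : CG S => exists_rep hb hS hτ ha g
  have hnd : ∀ {l : ℕ}, l.Prime → l ∣ a → ∀ {n : ℕ}, Nat.Coprime n a → ¬ l ∣ n := by
    intro l hl hla n hn hln
    have h1 : Nat.Coprime n l := Nat.Coprime.coprime_dvd_right hla hn
    exact hl.one_lt.ne' ((Nat.gcd_eq_right hln).symm.trans h1)
  have key : ∀ b c : M1 K, Nat.Coprime (Ideal.absNorm (b : Ideal (𝓞 K))) a →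
      Nat.Coprime (Ideal.absNorm (c : Ideal (𝓞 K))) a → clN S b = clN S c →
      (jacobiSym (Ideal.absNorm (b : Ideal (𝓞 K))) p, jacobiSym (Ideal.absNorm (b : Ideal (𝓞 K))) q)
      = (jacobiSym (Ideal.absNorm (c : Ideal (𝓞 K))) p,
        jacobiSym (Ideal.absNorm (c : Ideal (𝓞 K))) q) := by
    intro b c hbc hcc h
    have h1 := clN_eq hb hS hτ ha h
    rw [wdp hb hS hτ hp hp2 hpa (M1.ne b.2) (M1.ne c.2) (hnd hp hpa hbc) (hnd hp hpa hcc) h1,
      wdp hb hS hτ hq hq2 hqa (M1.ne b.2) (M1.ne c.2) (hnd hq hqa hbc) (hnd hq hqa hcc) h1]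
  refine ⟨⟨⟨fun g => (jacobiSym (Ideal.absNorm (r g : Ideal (𝓞 K))) p,
    jacobiSym (Ideal.absNorm (r g : Ideal (𝓞 K))) q), ?_⟩, ?_⟩, ?_, ?_⟩
  · have h1 := key (r 1) 1 (hrc 1) (by
      show Nat.Coprime (Ideal.absNorm (1 : Ideal (𝓞 K))) a
      rw [map_one]
      exact Nat.coprime_one_left a) (by rw [hrC, map_one])
    rw [h1]
    show (jacobiSym (Ideal.absNorm (1 : Ideal (𝓞 K))) p,
      jacobiSym (Ideal.absNorm (1 : Ideal (𝓞 K))) q) = 1
    rw [map_one, Nat.cast_one, jacobiSym.one_left, jacobiSym.one_left]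
    rfl
  · intro g h
    have h1 := key (r (g * h)) (r g * r h) (hrc _) (by
      show Nat.Coprime (Ideal.absNorm ((r g : Ideal (𝓞 K)) * (r h : Ideal (𝓞 K)))) a
      rw [map_mul]
      exact Nat.Coprime.mul_left (hrc g) (hrc h)) (by rw [hrC, map_mul, hrC, hrC])
    show (jacobiSym (Ideal.absNorm (r (g * h) : Ideal (𝓞 K))) p,
      jacobiSym (Ideal.absNorm (r (g * h) : Ideal (𝓞 K))) q) = _
    rw [h1]
    show (jacobiSym (Ideal.absNorm ((r g : Ideal (𝓞 K)) * (r h : Ideal (𝓞 K)))) p,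
      jacobiSym (Ideal.absNorm ((r g : Ideal (𝓞 K)) * (r h : Ideal (𝓞 K)))) q) = _
    rw [map_mul, Nat.cast_mul, jacobiSym.mul_left, jacobiSym.mul_left]
    rfl
  · intro b hbc
    exact key _ b (hrc _) hbc (hrC _)
  · intro C
    exact ⟨J_pm hp (hnd hp hpa (hrc C)), J_pm hq (hnd hq hqa (hrc C))⟩

theorem gen_nsq (hb : B6 K a s) (hS : algebraMap (𝓞 K) K S = s) (hτ : τ S = -S) {p q : ℕ}
    (hp : p.Prime) (hq : q.Prime) (hp8 : p % 8 = 5) (hq8 : q % 8 = 5) (hpa : p ∣ a)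
    (hqa : q ∣ a) {b : Ideal (𝓞 K)} (hb0 : b ≠ 0) (hbc : Nat.Coprime (Ideal.absNorm b) a)
    (hbp : jacobiSym (Ideal.absNorm b) p = -1) (hbq : jacobiSym (Ideal.absNorm b) q = 1)
    {w0 : M1 K} (hw : cls (w0 : Ideal (𝓞 K)) = cls b) (g : CG S) : g * g ≠ clN S w0 := by
  intro hg
  obtain ⟨C, rfl⟩ := QuotientGroup.mk_surjective g
  have h1 : (QuotientGroup.mk (C * C) : CG S) = QuotientGroup.mk (cls b) := by
    rw [← hw]
    exact hg
  have hnp : ¬ p ∣ Ideal.absNorm b := J_ne hp (by rw [hbp]; norm_num)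
  have hnq : ¬ q ∣ Ideal.absNorm b := J_ne hq (by rw [hbq]; norm_num)
  rcases mk_eq_cases hb hS h1 with h2 | h2
  · have h3 := (chi_sq1 hb hS hτ hp (by omega) hpa hb0 hnp).1 h2
    rw [hbp] at h3
    norm_num at h3
  · have h3 := (chi_sq1 hb hS hτ hq (by omega) hqa hb0 hnq).2 h2
    rw [hbq, J_two hq hq8] at h3
    norm_num at h3

theorem gen_sq (hb : B6 K a s) (hS : algebraMap (𝓞 K) K S = s) (hτ : τ S = -S) (ha : a % 16 = 6)
    {p q : ℕ} (hp : p.Prime) (hq : q.Prime) (hp2 : p ≠ 2) (hq2 : q ≠ 2) (hpa : p ∣ a)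
    (hqa : q ∣ a) {e0 e1 : CG S} (h4 : ∀ g : CG S, g * g = 1 → g = 1 ∨ g = e0 ∨ g = e1 ∨ g = e0 * e1)
    {u1 u2 u : M1 K} (c1 : Nat.Coprime (Ideal.absNorm (u1 : Ideal (𝓞 K))) a)
    (c2 : Nat.Coprime (Ideal.absNorm (u2 : Ideal (𝓞 K))) a)
    (c : Nat.Coprime (Ideal.absNorm (u : Ideal (𝓞 K))) a)
    (h1p : jacobiSym (Ideal.absNorm (u1 : Ideal (𝓞 K))) p = -1)
    (h1q : jacobiSym (Ideal.absNorm (u1 : Ideal (𝓞 K))) q = 1)
    (h2p : jacobiSym (Ideal.absNorm (u2 : Ideal (𝓞 K))) p = 1)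
    (h2q : jacobiSym (Ideal.absNorm (u2 : Ideal (𝓞 K))) q = -1)
    (hup : jacobiSym (Ideal.absNorm (u : Ideal (𝓞 K))) p = 1)
    (huq : jacobiSym (Ideal.absNorm (u : Ideal (𝓞 K))) q = 1) :
    ∃ g : CG S, g * g = clN S u := by
  obtain ⟨ψ, ψ1, ψ3⟩ := genus_hom hb hS hτ ha hp hq hp2 hq2 hpa hqa
  have hbk : clN S u ∈ ψ.ker := by
    rw [MonoidHom.mem_ker, ψ1 u c, hup, huq]
    rfl
  -- the squares
  let sqh : CG S →* CG S := powMonoidHom 2
  have hQ : sqh.range ≤ ψ.ker := by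
    rintro _ ⟨C, rfl⟩
    rw [MonoidHom.mem_ker]
    show ψ (C ^ 2) = 1
    rw [map_pow]
    obtain ⟨h1, h2⟩ := ψ3 C
    apply Prod.ext
    · rw [Prod.pow_fst]
      rcases h1 with h | h <;> rw [h] <;> norm_num
    · rw [Prod.pow_snd]
      rcases h2 with h | h <;> rw [h] <;> norm_num
  -- the kernel of the squaring
  have hfin : Finite (CG S) := inferInstance
  have hk4 : Nat.card sqh.ker ≤ 4 := by
    have h1 : (sqh.ker : Set (CG S)) ⊆ ({1, e0, e1, e0 * e1} : Finset (CG S)) := by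
      intro C hC
      have hC' : C * C = 1 := by
        have := MonoidHom.mem_ker.1 hC
        rw [← pow_two]
        exact this
      have := h4 C hC'
      simpa using this
    have h2 : Nat.card sqh.ker ≤ Finset.card ({1, e0, e1, e0 * e1} : Finset (CG S)) := by
      have h3 := Set.ncard_le_ncard h1 (Finset.finite_toSet _)
      rw [Set.ncard_coe_finset] at h3
      exact h3
    exact h2.trans Finset.card_le_four
  have hG1 : Nat.card (CG S) = Nat.card sqh.ker * Nat.card sqh.range := by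
    rw [← Subgroup.index_ker]
    exact (Subgroup.card_mul_index _).symm
  -- the index of the kernel of `ψ`
  set g3 : CG S := clN S u1 with hg3
  set g1 : CG S := clN S u2 with hg1
  have hψ3 : (ψ g3).1 = -1 := by rw [hg3, ψ1 u1 c1, h1p]
  have hψ32 : (ψ g3).2 = 1 := by rw [hg3, ψ1 u1 c1, h1q]
  have hψ11 : (ψ g1).1 = 1 := by rw [hg1, ψ1 u2 c2, h2p]
  have hψ12 : (ψ g1).2 = -1 := by rw [hg1, ψ1 u2 c2, h2q]
  let f : Bool × Bool × ψ.ker → CG S := fun x =>
    (if x.1 then g3 else 1) * (if x.2.1 then g1 else 1) * x.2.2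
  have hf : Function.Injective f := by
    rintro ⟨x, y, t⟩ ⟨x', y', t'⟩ h
    have h' : (if x then g3 else 1) * (if y then g1 else 1) * (t : CG S) =
      (if x' then g3 else 1) * (if y' then g1 else 1) * (t' : CG S) := h
    have h1 := congrArg ψ h'
    rw [map_mul, map_mul, map_mul, map_mul, MonoidHom.mem_ker.1 t.2, MonoidHom.mem_ker.1 t'.2,
      mul_one, mul_one] at h1
    have h2 := congrArg Prod.fst h1
    have h3 := congrArg Prod.snd h1
    rw [Prod.fst_mul, Prod.fst_mul] at h2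
    rw [Prod.snd_mul, Prod.snd_mul] at h3
    have hxx : x = x' := by
      clear h h' h1 h3 hG1 hk4 hQ
      have e1 : (ψ 1).1 = 1 := by rw [map_one]; rfl
      have e2 : ∀ y : Bool, (ψ (if y then g1 else 1)).1 = 1 := by
        intro y
        cases y
        · rw [if_neg Bool.false_ne_true]; exact e1
        · rw [if_pos rfl]; exact hψ11
      rw [e2, e2, mul_one, mul_one] at h2
      cases x <;> cases x'
      · rfl
      · rw [if_neg Bool.false_ne_true, if_pos rfl, e1, hψ3] at h2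
        norm_num at h2
      · rw [if_neg Bool.false_ne_true, if_pos rfl, e1, hψ3] at h2
        norm_num at h2
      · rfl
    subst hxx
    have hyy : y = y' := by
      clear h h' h1 h2 hG1 hk4 hQ
      have e1 : (ψ 1).2 = 1 := by rw [map_one]; rfl
      have e2 : (ψ (if x then g3 else 1)).2 ≠ 0 := by
        rcases (ψ3 (if x then g3 else 1)).2 with h4 | h4 <;> rw [h4] <;> norm_num
      have h4 := mul_left_cancel₀ e2 h3
      cases y <;> cases y'
      · rfl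
      · rw [if_neg Bool.false_ne_true, if_pos rfl, e1, hψ12] at h4
        norm_num at h4
      · rw [if_neg Bool.false_ne_true, if_pos rfl, e1, hψ12] at h4
        norm_num at h4
      · rfl
    subst hyy
    have h5 : (t : CG S) = t' := mul_left_cancel h'
    rw [Subtype.ext h5]
  have hG2 : 4 * Nat.card ψ.ker ≤ Nat.card (CG S) := by
    have h1 := Nat.card_le_card_of_injective f hf
    rw [Nat.card_prod, Nat.card_prod, Nat.card_eq_fintype_card (α := Bool), Fintype.card_bool] at h1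
    omega
  have hle : Nat.card ψ.ker ≤ Nat.card sqh.range := by
    have h1 : Nat.card sqh.ker * Nat.card sqh.range ≤ 4 * Nat.card sqh.range :=
      Nat.mul_le_mul_right _ hk4
    omega
  have heq : sqh.range = ψ.ker := Subgroup.eq_of_le_of_card_ge hQ hle
  rw [← heq] at hbk
  obtain ⟨g, hg⟩ := hbk
  refine ⟨g, ?_⟩
  rw [← hg]
  show g * g = g ^ 2
  rw [pow_two]

end Pool.Agent.Work.MP_8efaaa_nt.V6
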