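import Mathlib
import Pool.Agent.Work.MP_8efaaa_nt.V6.Defs
import Pool.Agent.Work.MP_8efaaa_nt.V6.GSu
import Pool.Agent.Work.MP_8efaaa_nt.V6.GPi
import Pool.Agent.Work.MP_8efaaa_nt.V6.QFa
import Pool.Agent.Work.MP_8efaaa_nt.V6.PEx
import Pool.Agent.Work.MP_8efaaa_nt.W14.DTo
import Pool.Agent.Work.MP_8efaaa_nt.W14.DYt
import Pool.Agent.Work.MP_8efaaa_nt.W14.PGa
import Pool.Agent.Work.MP_8efaaa_nt.W14.CEq

/-!
# V6/STo (M-L): the sum over the classes is a torsion point, `a = 6 (mod 16)`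

Model `W14/DYt.lean`, `y_tor` (step (2) there is the same: complex multiplication by `i`, `fixed_pt`, `tor_B6`). `r g : M1 K` with `clN S (r g) = g` (`clN_surj`), `W = ∑ PP (r g)`; `qn (4 W) = 4 ∑ f g` (`HPi`, `4 dd = 0`).
CLAIM: for `σ : F ≃ₐ[K] F`, `σ (ζ^2) = ζ^2`: `8 gal σ W = 8 W`; `σ (ζ^2) = -ζ^2`: `8 gal σ W = -8 W`. PROOF: `UD6.act σ`: `gal σ (PP c) = PP (b c)`, `N b = 1 (mod 4)` iff `σ (ζ^2) = ζ^2`. `N b = 1 (mod 8)`: `b' = b`. `N b = 7`: `b' = (1+S) b`, `4 PP (b' c) = -4 PP (b c)` (`tq_px`, `4 T = 0`). `N b = 3`: `b' = r6 S (a/2) b` (norm `(a/2) N b = 9 (mod 8)`), `4 PP (b' c) = -4 PP (b c)` (`fr_px`).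
`N b = 5`: `b' = (1+S) r6 S (a/2) b` (norm `7 * 3 * 5 = 1 (mod 8)`), `4 PP (b' c) = 4 PP (b c)`. In all cases `b' ∈ M1 K` and `4 PP (b c) = ± 4 PP (b' c)`, with `+` iff `N b = 1 (mod 4)`. `4 PB (b' r g) = 4 f (clN b' * g)` (`HPi`), and `g ↦ clN b' * g` is a bijection. So `qn (4 gal σ W) = ± 4 ∑ f = ± qn (4 W)`, `8 gal σ W = ± 8 W` (`qn_eq_zero`, `em + em = 0`).
-/

set_option autoImplicit false

namespace Pool.Agent.Work.MP_8efaaa_nt.V6

open NumberField Pool.Agent.Work.MP_8efaaa_nt.R Pool.Agent.Work.MP_8efaaa_nt.N5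
  Pool.Agent.Work.MP_8efaaa_nt.K6 Pool.Agent.Work.MP_8efaaa_nt.W14
open scoped Classical nonZeroDivisors

variable {K F : Type*} [Field K] [NumberField K] [Field F] [NumberField F] [Algebra K F] {a : ℕ}
  {s : K} {S : 𝓞 K} {τ : 𝓞 K ≃+* 𝓞 K} {ζ : F} {w : ℕ → F} {z k v : Ideal (𝓞 K) → F}
  {κ : F ≃ₐ[ℚ] F}

/-- four times a point killed by four, in the quotient -/
private theorem four_sum {A : Type*} [AddCommGroup A] {x y t u : A} (h : x + y = t + u)
    (ht : (4 : ℤ) • t = 0) (hu : (4 : ℤ) • u = 0) : (4 : ℤ) • y = -((4 : ℤ) • x) := by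
  have h1 : (4 : ℤ) • x + (4 : ℤ) • y = 0 := by
    rw [← smul_add, h, smul_add, ht, hu, add_zero]
  exact eq_neg_of_add_eq_zero_right h1

private theorem four_of_two {A : Type*} [AddCommGroup A] {x y : A} (h : x + x = y)
    (h2 : y + y = 0) : (4 : ℤ) • x = 0 := by
  have h4 : (4 : ℤ) • x = (x + x) + (x + x) := by abel
  rw [h4, h, h2]

/-- the action of the automorphisms on four times the sum -/
private theorem act_sum (hb : B6 K a s)
    (hS : algebraMap (𝓞 K) K S = s) (ha : a % 16 = 6)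
    (hU : UD6 K F a s S τ ζ w z k v κ) {f : CG S → QB F} (hf : HPi S z k v f) [Fintype (CG S)]
    (r : CG S → M1 K) (hr : ∀ g, clN S (r g) = g) (σ : F ≃ₐ[K] F) :
    (σ (ζ ^ 2) = ζ ^ 2 ∧ (4 : ℤ) • galB σ (∑ g, PB z k v (r g : Ideal (𝓞 K))) =
      (4 : ℤ) • ∑ g, PB z k v (r g : Ideal (𝓞 K))) ∨
    (σ (ζ ^ 2) = -ζ ^ 2 ∧ (4 : ℤ) • galB σ (∑ g, PB z k v (r g : Ideal (𝓞 K))) =
      -((4 : ℤ) • ∑ g, PB z k v (r g : Ideal (𝓞 K)))) := by
  obtain ⟨b, hbo, -, hact⟩ := hU.act σ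
  obtain ⟨T, hT, hTq⟩ := tq_px hb hS hU
  obtain ⟨T', hT', hFr⟩ := fr_px hb hS hU
  have h2 := two_ep (F := F)
  -- four times the point of an ideal of norm one
  have hf4 : ∀ c : M1 K, (4 : ℤ) • PB z k v (c : Ideal (𝓞 K)) = (4 : ℤ) • f (clN S c) := by
    intro c
    rw [← hf c, smul_add]
    have h1 : (4 : ℤ) • dd F (Ideal.absNorm (c : Ideal (𝓞 K))) = 0 :=
      four_of_two (dd_add _) (add_zero 0)
    rw [h1, add_zero]
  -- the action on the points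
  have hg : ∀ c, OddI c → galB σ (PB z k v c) = PB z k v (b * c) := by
    intro c hc
    obtain ⟨h1, h2, h3⟩ := hact.act c hc
    unfold PB
    rw [galB_qn, gal_pp σ h1 h2 h3]
  -- the two relations
  have hA : ∀ c, OddI c → (4 : ℤ) • PB z k v c =
      -((4 : ℤ) • PB z k v (Ideal.span {(1 : 𝓞 K) + S} * c)) := by
    intro c hc
    have h1 := four_sum (hTq c hc) (four_of_two hT h2.2.2.1) (by
      split_ifs
      · exact smul_zero _
      · exact four_of_two h2.2.1 (add_zero 0))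
    unfold PB
    rw [← map_zsmul, ← map_zsmul, h1, map_neg]
  have hB : ∀ c, OddI c → (4 : ℤ) • PB z k v c =
      -((4 : ℤ) • PB z k v (r6 S (a / 2) * c)) := by
    intro c hc
    have h1 := four_sum (hFr c hc) (four_of_two hT' h2.1) (by
      split_ifs
      · exact smul_zero _
      · exact four_of_two h2.2.2.1 (add_zero 0))
    unfold PB
    rw [← map_zsmul, ← map_zsmul, h1, map_neg]
  -- the powers of `ζ ^ 2`
  have hζ : ζ ^ 8 = 1 := by
    have : ζ ^ 8 = (ζ ^ 4) ^ 2 := by ring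
    rw [this, hU.z8]
    norm_num
  have hσi : σ (ζ ^ 2) = ζ ^ (2 * (Ideal.absNorm b % 4)) := by
    rw [map_pow, hact.z8, ← pow_mul]
    have h1 : Ideal.absNorm b * 2 = 2 * (Ideal.absNorm b % 4) + 8 * (Ideal.absNorm b / 4) := by
      omega
    rw [h1, pow_add, pow_mul ζ 8, hζ, one_pow, mul_one]
  have h1 : Ideal.absNorm b % 4 = 1 → σ (ζ ^ 2) = ζ ^ 2 := by
    intro h
    rw [hσi, h]
  have h3 : Ideal.absNorm b % 4 = 3 → σ (ζ ^ 2) = -ζ ^ 2 := by
    intro h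
    rw [hσi, h]
    have : ζ ^ (2 * 3) = ζ ^ 4 * ζ ^ 2 := by ring
    rw [this, hU.z8]
    ring
  have hbo' := hbo
  unfold OddI at hbo'
  rw [Nat.odd_iff] at hbo'
  -- the sums
  have key : ∀ (b' : M1 K) (e : ℤ), (∀ c, OddI c → (4 : ℤ) • PB z k v (b * c) =
      e • ((4 : ℤ) • PB z k v ((b' : Ideal (𝓞 K)) * c))) →
      (4 : ℤ) • galB σ (∑ g, PB z k v (r g : Ideal (𝓞 K))) =
      e • ((4 : ℤ) • ∑ g, PB z k v (r g : Ideal (𝓞 K))) := by
    intro b' e h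
    rw [map_sum, Finset.smul_sum, Finset.smul_sum]
    have e1 : ∀ g : CG S, (4 : ℤ) • galB σ (PB z k v (r g : Ideal (𝓞 K))) =
        e • ((4 : ℤ) • f (clN S b' * g)) := by
      intro g
      rw [hg _ (M1.odd (r g).2), h _ (M1.odd (r g).2)]
      have h4 := hf4 (b' * r g)
      rw [map_mul, hr] at h4
      rw [← h4]
      rfl
    have e2 : ∀ g : CG S, (4 : ℤ) • PB z k v (r g : Ideal (𝓞 K)) = (4 : ℤ) • f g := by
      intro g
      rw [hf4, hr]
    rw [Finset.sum_congr rfl (fun g _ => e1 g), Finset.sum_congr rfl (fun g _ => e2 g),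
      ← Finset.smul_sum]
    congr 1
    exact Equiv.sum_comp (Equiv.mulLeft (clN S b')) (fun g => (4 : ℤ) • f g)
  have hng : Ideal.absNorm (Ideal.span {(1 : 𝓞 K) + S}) % 8 = 7 := by
    rw [norm_g hb hS]
    omega
  have ha2 : a / 2 ∣ a := Nat.div_dvd_of_dvd (by omega)
  have hnr : Ideal.absNorm (r6 S (a / 2)) % 8 = 3 := by
    rw [norm_r6 hb hS ha2]
    omega
  rcases (by omega : Ideal.absNorm b % 8 = 1 ∨ Ideal.absNorm b % 8 = 3 ∨
      Ideal.absNorm b % 8 = 5 ∨ Ideal.absNorm b % 8 = 7) with hb8 | hb8 | hb8 | hb8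
  · -- norm one
    refine Or.inl ⟨h1 (by omega), ?_⟩
    rw [key ⟨b, hb8⟩ 1 (fun c _ => by rw [one_smul]), one_smul]
  · -- norm three
    have hM : r6 S (a / 2) * b ∈ M1 K := by
      show Ideal.absNorm (r6 S (a / 2) * b) % 8 = 1
      rw [map_mul, Nat.mul_mod, hnr, hb8]
    refine Or.inr ⟨h3 (by omega), ?_⟩
    rw [key ⟨_, hM⟩ (-1) (fun c hc => by
      rw [neg_one_zsmul, hB (b * c) (hbo.mul hc), mul_assoc]), neg_one_zsmul]
  · -- norm five
    have hro : OddI (r6 S (a / 2)) := by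
      unfold OddI
      rw [Nat.odd_iff]
      omega
    have hM : Ideal.span {(1 : 𝓞 K) + S} * (r6 S (a / 2) * b) ∈ M1 K := by
      show Ideal.absNorm (Ideal.span {(1 : 𝓞 K) + S} * (r6 S (a / 2) * b)) % 8 = 1
      rw [map_mul, Nat.mul_mod, hng, map_mul, Nat.mul_mod (Ideal.absNorm (r6 S (a / 2))), hnr,
        hb8]
    refine Or.inl ⟨h1 (by omega), ?_⟩
    rw [key ⟨_, hM⟩ 1 (fun c hc => by
      rw [one_smul, hB (b * c) (hbo.mul hc), hA (r6 S (a / 2) * (b * c)) (hro.mul (hbo.mul hc)),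
        neg_neg, mul_assoc, mul_assoc]), one_smul]
  · -- norm seven
    have hM : Ideal.span {(1 : 𝓞 K) + S} * b ∈ M1 K := by
      show Ideal.absNorm (Ideal.span {(1 : 𝓞 K) + S} * b) % 8 = 1
      rw [map_mul, Nat.mul_mod, hng, hb8]
    refine Or.inr ⟨h3 (by omega), ?_⟩
    rw [key ⟨_, hM⟩ (-1) (fun c hc => by
      rw [neg_one_zsmul, hA (b * c) (hbo.mul hc), mul_assoc]), neg_one_zsmul]

theorem sum_tor [FiniteDimensional K F] [IsGalois K F] (hb : B6 K a s)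
    (hS : algebraMap (𝓞 K) K S = s) (hτ : τ S = -S) (ha : a % 16 = 6)
    (hU : UD6 K F a s S τ ζ w z k v κ) (hnc : ¬ IsCongruent a) {f : CG S → QB F}
    (hf : HPi S z k v f) [Fintype (CG S)] : (16 : ℤ) • ∑ g, f g = 0 := by
  obtain ⟨I, hI⟩ := exists_cmi (i_sq hU.z8)
  obtain ⟨r, hr⟩ : ∃ r : CG S → M1 K, ∀ g, clN S (r g) = g :=
    ⟨fun g => (clN_surj hb hS ha g).choose, fun g => (clN_surj hb hS ha g).choose_spec⟩
  -- the point
  have hW : ∃ W : (cQ F).Point, qn W = ∑ g, PB z k v (r g : Ideal (𝓞 K)) := by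
    refine ⟨∑ g, PP z k v (r g : Ideal (𝓞 K)), ?_⟩
    rw [map_sum]
    rfl
  obtain ⟨W, hW⟩ := hW
  -- the kernel of `qn` is killed by two
  have hk : ∀ R : (cQ F).Point, qn R = 0 → (2 : ℤ) • R = 0 := by
    intro R hR
    rw [two_zsmul]
    rcases qn_eq_zero.1 hR with rfl | rfl
    · rw [add_zero]
    · exact two_ep.2.1
  have hZ : ∀ σ : F ≃ₐ[K] F, gal σ (I ((8 : ℤ) • W)) = I ((8 : ℤ) • W) := by
    intro σ
    have h0 := act_sum hb hS ha hU hf r hr σ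
    rw [← hW, galB_qn] at h0
    rcases h0 with ⟨h1, h2⟩ | ⟨h1, h2⟩
    · have h3 : qn ((4 : ℤ) • gal σ W - (4 : ℤ) • W) = 0 := by
        rw [map_sub, map_zsmul, map_zsmul, h2, sub_self]
      have h4 := hk _ h3
      have h5 : gal σ ((8 : ℤ) • W) = (8 : ℤ) • W := by
        rw [map_zsmul, ← sub_eq_zero, ← h4]
        abel
      rw [hI.gal_comm h1, h5]
    · have h3 : qn ((4 : ℤ) • gal σ W + (4 : ℤ) • W) = 0 := by
        rw [map_add, map_zsmul, map_zsmul, h2, neg_add_cancel]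
      have h4 := hk _ h3
      have h5 : gal σ ((8 : ℤ) • W) = -((8 : ℤ) • W) := by
        rw [map_zsmul, eq_neg_iff_add_eq_zero, ← h4]
        abel
      rw [hI.gal_anti h1, h5, map_neg, neg_neg]
  have hZ2 : (2 : ℤ) • I ((8 : ℤ) • W) = 0 := by
    rcases fixed_pt hZ with h0 | ⟨x, y, h, h0⟩
    · rw [h0, smul_zero]
    · rw [h0]
      have hxy : y ^ 2 = x ^ 3 - x := by
        apply (algebraMap K F).injective
        rw [map_pow, map_sub, map_pow]
        exact h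
      have hy := tor_B6 hb hnc hxy
      rw [two_zsmul]
      unfold pt
      exact double_zero _ (by rw [hy, map_zero])
  have h16 : (16 : ℤ) • W = 0 := by
    rw [← map_zsmul, smul_smul] at hZ2
    norm_num at hZ2
    have h1 : I (I ((16 : ℤ) • W)) = 0 := by
      rw [map_zsmul, hZ2, map_zero]
    rw [hI.sq] at h1
    exact neg_eq_zero.1 h1
  have h4 : (4 : ℤ) • ∑ g, f g = (4 : ℤ) • ∑ g, PB z k v (r g : Ideal (𝓞 K)) := by
    rw [Finset.smul_sum, Finset.smul_sum]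
    refine Finset.sum_congr rfl fun g _ => ?_
    have h1 := hf (r g)
    rw [hr] at h1
    rw [← h1, smul_add, four_of_two (dd_add _) (add_zero 0), add_zero]
  have h5 : (16 : ℤ) • ∑ g, f g = (4 : ℤ) • ((4 : ℤ) • ∑ g, f g) := by
    rw [smul_smul]
    norm_num
  have h6 : (4 : ℤ) • ((4 : ℤ) • ∑ g, PB z k v (r g : Ideal (𝓞 K))) = qn ((16 : ℤ) • W) := by
    rw [smul_smul, ← hW, map_zsmul]
    norm_num
  rw [h5, h4, h6, h16, map_zero]

end Pool.Agent.Work.MP_8efaaa_nt.V6
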