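import Mathlib
import Pool.Agent.Work.MP_8efaaa_nt.V6.Defs
import Pool.Agent.Work.MP_8efaaa_nt.V6.GNu
import Pool.Agent.Work.MP_8efaaa_nt.W14.CEq
import Pool.Agent.Work.MP_8efaaa_nt.W14.CHi
import Pool.Agent.Work.MP_8efaaa_nt.W14.CNp
import Pool.Agent.Work.MP_8efaaa_nt.K6.ARg
import Pool.Agent.Work.MP_8efaaa_nt.K6.ARm

/-!
# V6/GTw (M): classes of order two in `CG S`, `a = 2 r p q`, `r = 3`, `p = q = 5 (mod 8)`

r6_one: if `r6 S d = (x + y S)` then `d = x^2 + a y^2` (`norm_r6`, `norm_lin6`/`coords6`); `d < a` gives `y = 0`, `d = x^2`, and `d` is squarefree, so `d = 1`.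
exists_grp6: `CG S = ClassGroup / ⟨t⟩`, `t = cls (r6 S 2)`, `t * t = 1` (`cls_two`). The norms: `(a/2) r = r^2 p q = 9 (mod 8)`; `(1+a) r q = 7 * 15 (mod 8)` (`norm_g`, `norm_r6`). The class of `ρ` is `t * cls (r6 S r)`, that of `a0` is `cls (r6 S (r * q))`. `g = mk C`, `g * g = 1` iff `C * C ∈ {1, t}`; `C * C = t` is excluded by `two_nsq`; `C * C = 1`: `hil6`: `C = cls (r6 S d)`, `d ∣ a`; `d` or
`a/d` is odd... so modulo `t` (`r6_mul`, `r6_all`: `cls (r6 S d) = cls (r6 S (a/d))`, `cls (r6 S (2 d)) = t cls (r6 S d)`) it is one of `1`, `r`, `q`, `r q` (`d ∣ r p q`; `d ↔ (r p q)/d` changes the class by `t`). Distinct: e.g. `mk (cls (r6 S r)) = 1` gives `cls (r6 S r) = 1` or `= t`, i.e. `cls (r6 S (2 r)) = 1`, excluded by r6_one.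
-/

set_option autoImplicit false

namespace Pool.Agent.Work.MP_8efaaa_nt.V6

open NumberField Pool.Agent.Work.MP_8efaaa_nt.R Pool.Agent.Work.MP_8efaaa_nt.N5
  Pool.Agent.Work.MP_8efaaa_nt.K6 Pool.Agent.Work.MP_8efaaa_nt.W14
open scoped Classical nonZeroDivisors

variable {K : Type*} [Field K] [NumberField K] {a : ℕ} {s : K} {S : 𝓞 K} {τ : 𝓞 K ≃+* 𝓞 K}

theorem r6_one (hb : B6 K a s) (hS : algebraMap (𝓞 K) K S = s) {d : ℕ} (hd : d ∣ a)
    (h1 : d ≠ 1) (h2 : d ≠ a) : cls (r6 S d) ≠ 1 := by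
  intro h
  have ha0 : a ≠ 0 := hb.sf.ne_zero
  have hd0 : d ≠ 0 := by
    rintro rfl
    exact ha0 (Nat.eq_zero_of_zero_dvd hd)
  have hlt : d < a := lt_of_le_of_ne (Nat.le_of_dvd (Nat.pos_of_ne_zero ha0) hd) h2
  obtain ⟨γ, -, hγ⟩ := prin_of_cls (r6_ne hb hS hd) h
  obtain ⟨x, y, hxy⟩ := coords6 hb γ
  have h3 := norm_lin6 hb hxy
  rw [← hγ, norm_r6 hb hS hd] at h3
  have h4 : y = 0 := by
    by_contra hy
    have h5 : 1 ≤ y ^ 2 := by
      have := sq_nonneg y
      have h6 : y ^ 2 ≠ 0 := pow_ne_zero 2 hy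
      omega
    have h7 : (d : ℤ) < a := by exact_mod_cast hlt
    nlinarith [sq_nonneg x]
  rw [h4] at h3
  have h5 : d = x.natAbs * x.natAbs := by
    have h6 : ((x.natAbs * x.natAbs : ℕ) : ℤ) = x ^ 2 := by
      push_cast
      rw [← pow_two, sq_abs]
    have h7 : (d : ℤ) = ((x.natAbs * x.natAbs : ℕ) : ℤ) := by
      rw [h6, h3]
      ring
    exact_mod_cast h7
  have h6 : IsUnit x.natAbs := hb.sf _ (h5 ▸ hd)
  rw [Nat.isUnit_iff] at h6
  rw [h6] at h5
  omega

private theorem gtw_S (hb : B6 K a s) (hS : algebraMap (𝓞 K) K S = s) : S ≠ 0 := by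
  rintro rfl
  rw [map_zero] at hS
  have h := hb.sq
  rw [← hS] at h
  have h1 : (a : K) = 0 := by linear_combination h
  exact hb.sf.ne_zero (by exact_mod_cast h1)

private theorem gtw_sq (hb : B6 K a s) (hS : algebraMap (𝓞 K) K S = s) {d : ℕ} (hd : d ∣ a) :
    cls (r6 S d) * cls (r6 S d) = 1 := by
  have h := r6_ne hb hS hd
  rw [← cls_mul h h, r6_sq hb hS hd]
  apply cls_span
  have h1 : d ≠ 0 := by
    rintro rfl
    exact hb.sf.ne_zero (Nat.eq_zero_of_zero_dvd hd)
  exact_mod_cast h1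

private theorem gtw_mul (hb : B6 K a s) (hS : algebraMap (𝓞 K) K S = s) {d e : ℕ}
    (hd : d * e ∣ a) : cls (r6 S (d * e)) = cls (r6 S d) * cls (r6 S e) := by
  rw [r6_mul hb hS hd, cls_mul (r6_ne hb hS (dvd_of_mul_right_dvd hd))
    (r6_ne hb hS (dvd_of_mul_left_dvd hd))]

private theorem gtw_all (hb : B6 K a s) (hS : algebraMap (𝓞 K) K S = s) :
    cls (r6 S a) = 1 := by
  rw [r6_all hb hS]
  exact cls_span (gtw_S hb hS)

private theorem gtw_one (hb : B6 K a s) (hS : algebraMap (𝓞 K) K S = s) :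
    cls (r6 S 1) = 1 := by
  have h := gtw_sq hb hS (one_dvd a)
  have h1 := gtw_mul hb hS (d := 1) (e := 1) (by rw [mul_one]; exact one_dvd a)
  rw [mul_one, h] at h1
  exact h1

private theorem gtw_zp (hb : B6 K a s) (hS : algebraMap (𝓞 K) K S = s)
    (g : ClassGroup (𝓞 K)) : (QuotientGroup.mk g : CG S) = 1 ↔
      g = 1 ∨ g = cls (r6 S 2) := by
  obtain ⟨ht, -⟩ := cls_two hb hS
  rw [QuotientGroup.eq_one_iff, Subgroup.mem_zpowers_iff]
  constructor
  · rintro ⟨k, rfl⟩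
    rcases Int.even_or_odd' k with ⟨j, rfl | rfl⟩
    · left
      rw [zpow_mul, zpow_two, ht, one_zpow]
    · right
      rw [zpow_add, zpow_mul, zpow_two, ht, one_zpow, one_mul, zpow_one]
  · rintro (rfl | rfl)
    · exact ⟨0, zpow_zero _⟩
    · exact ⟨1, zpow_one _⟩

/-- the class of a ramified ideal is nontrivial in `CG S` -/
private theorem gtw_ne (hb : B6 K a s) (hS : algebraMap (𝓞 K) K S = s) {d : ℕ}
    (hd : 2 * d ∣ a) (h1 : d ≠ 1) (h2 : 2 * d ≠ a) (hda : d ≠ a) :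
    (QuotientGroup.mk (cls (r6 S d)) : CG S) ≠ 1 := by
  intro h
  have hda' : d ∣ a := dvd_of_mul_left_dvd hd
  rcases (gtw_zp hb hS _).1 h with h3 | h3
  · exact r6_one hb hS hda' h1 hda h3
  · have h4 := gtw_mul hb hS hd
    rw [h3, (cls_two hb hS).1] at h4
    refine r6_one hb hS hd ?_ h2 h4
    omega

theorem exists_grp6 {r p q : ℕ} (hr : r.Prime) (hp : p.Prime) (hq : q.Prime) (hr8 : r % 8 = 3)
    (hp8 : p % 8 = 5) (hq8 : q % 8 = 5) (hpq : p ≠ q) (hb : B6 K (2 * r * p * q) s)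
    (hS : algebraMap (𝓞 K) K S = s) (hτ : τ S = -S) :
    ∃ ρ a0 : M1 K, (ρ : Ideal (𝓞 K)) = r6 S ((2 * r * p * q) / 2) * r6 S r ∧
      (a0 : Ideal (𝓞 K)) = Ideal.span {1 + S} * r6 S (r * q) ∧ clN S ρ ≠ 1 ∧ clN S a0 ≠ 1 ∧
      clN S ρ ≠ clN S a0 ∧
      ∀ g : CG S, g * g = 1 ↔ g = 1 ∨ g = clN S ρ ∨ g = clN S a0 ∨ g = clN S ρ * clN S a0 := by
  have _ := hpq
  set a : ℕ := 2 * r * p * q with ha
  have hr3 : 2 < r := by
    have := hr.two_le
    omega
  have hp3 : 2 < p := by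
    have := hp.two_le
    omega
  have hq3 : 2 < q := by
    have := hq.two_le
    omega
  have d2 : 2 ∣ a := ⟨r * p * q, by rw [ha]; ring⟩
  have dr : r ∣ a := ⟨2 * p * q, by rw [ha]; ring⟩
  have dp : p ∣ a := ⟨2 * r * q, by rw [ha]; ring⟩
  have dq : q ∣ a := ⟨2 * r * p, by rw [ha]; ring⟩
  have drq : r * q ∣ a := ⟨2 * p, by rw [ha]; ring⟩
  have d2r : 2 * r ∣ a := ⟨p * q, by rw [ha]; ring⟩
  have d2q : 2 * q ∣ a := ⟨r * p, by rw [ha]; ring⟩
  have d2rp : 2 * r * p ∣ a := ⟨q, by rw [ha]⟩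
  have d2rq : 2 * (r * q) ∣ a := ⟨p, by rw [ha]; ring⟩
  have ha2 : a / 2 = r * p * q := by
    rw [ha, show 2 * r * p * q = 2 * (r * p * q) by ring]
    exact Nat.mul_div_cancel_left _ (by norm_num)
  have da2 : a / 2 ∣ a := ⟨2, by rw [ha2, ha]; ring⟩
  have hmr : r * r % 8 = 1 := by rw [Nat.mul_mod, hr8]
  have hmpq : p * q % 8 = 1 := by rw [Nat.mul_mod, hp8, hq8]
  have hmrq : r * q % 8 = 7 := by rw [Nat.mul_mod, hr8, hq8]
  -- the two ideals
  have hN1 : Ideal.absNorm (r6 S (a / 2) * r6 S r) % 8 = 1 := by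
    rw [map_mul, norm_r6 hb hS da2, norm_r6 hb hS dr, ha2,
      show r * p * q * r = (r * r) * (p * q) by ring, Nat.mul_mod, hmr, hmpq]
  have ha16 : (1 + a) % 8 = 7 := by
    have h1 : a = 2 * (p * (r * q)) := by rw [ha]; ring
    have h2 : p * (r * q) % 8 = 3 := by rw [Nat.mul_mod, hp8, hmrq]
    omega
  have hN2 : Ideal.absNorm (Ideal.span {1 + S} * r6 S (r * q)) % 8 = 1 := by
    rw [map_mul, norm_g hb hS, norm_r6 hb hS drq, Nat.mul_mod, ha16, hmrq]
  have hg0 : (1 + S : 𝓞 K) ≠ 0 := by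
    intro h0
    have h1 := norm_g hb hS
    rw [h0] at h1
    simp at h1
    omega
  have hg1 : Ideal.span {(1 + S : 𝓞 K)} ≠ (0 : Ideal (𝓞 K)) := by
    intro h2
    exact hg0 (Ideal.span_singleton_eq_bot.1 h2)
  -- the classes
  set R : CG S := QuotientGroup.mk (cls (r6 S r)) with hR
  set P : CG S := QuotientGroup.mk (cls (r6 S p)) with hP
  set Q : CG S := QuotientGroup.mk (cls (r6 S q)) with hQ
  have hT : (QuotientGroup.mk (cls (r6 S 2)) : CG S) = 1 := (gtw_zp hb hS _).2 (Or.inr rfl)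
  have hRR : R * R = 1 := by
    rw [hR, ← QuotientGroup.mk_mul, gtw_sq hb hS dr, QuotientGroup.mk_one]
  have hPP : P * P = 1 := by
    rw [hP, ← QuotientGroup.mk_mul, gtw_sq hb hS dp, QuotientGroup.mk_one]
  have hQQ : Q * Q = 1 := by
    rw [hQ, ← QuotientGroup.mk_mul, gtw_sq hb hS dq, QuotientGroup.mk_one]
  have hRPQ : R * P * Q = 1 := by
    have h1 := gtw_all hb hS
    rw [ha, gtw_mul hb hS (d := 2 * r * p) (e := q) dvd_rfl,
      gtw_mul hb hS (d := 2 * r) (e := p) d2rp, gtw_mul hb hS (d := 2) (e := r) d2r] at h1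
    have h2 := congrArg (fun g : ClassGroup (𝓞 K) => (QuotientGroup.mk g : CG S)) h1
    simp only [QuotientGroup.mk_mul, QuotientGroup.mk_one] at h2
    rw [hT, one_mul] at h2
    exact h2
  have hPe : P = R * Q := by
    calc P = (R * R) * P * (Q * Q) := by rw [hRR, hQQ, one_mul, mul_one]
      _ = (R * P * Q) * (R * Q) := by ac_rfl
      _ = R * Q := by rw [hRPQ, one_mul]
  have hρ : clN S ⟨r6 S (a / 2) * r6 S r, hN1⟩ = R := by
    show (QuotientGroup.mk (cls (r6 S (a / 2) * r6 S r)) : CG S) = R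
    rw [cls_mul (r6_ne hb hS da2) (r6_ne hb hS dr), (cls_two hb hS).2, QuotientGroup.mk_mul, hT,
      one_mul]
  have ha0 : clN S ⟨Ideal.span {1 + S} * r6 S (r * q), hN2⟩ = R * Q := by
    show (QuotientGroup.mk (cls (Ideal.span {1 + S} * r6 S (r * q))) : CG S) = R * Q
    rw [cls_mul hg1 (r6_ne hb hS drq), cls_span hg0, one_mul, gtw_mul hb hS drq,
      QuotientGroup.mk_mul]
  have hR1 : R ≠ 1 := by
    refine gtw_ne hb hS d2r (by omega) ?_ ?_
    · intro h
      have h1 : 2 * r * 1 = 2 * r * (p * q) := by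
        rw [mul_one]
        exact h.trans (by rw [ha]; ring)
      have h2 := Nat.eq_of_mul_eq_mul_left (by omega) h1
      nlinarith
    · intro h
      have h1 : r * 1 = r * (2 * p * q) := by
        calc r * 1 = a := by rw [mul_one]; exact h
          _ = r * (2 * p * q) := by rw [ha]; ring
      have h2 := Nat.eq_of_mul_eq_mul_left (by omega) h1
      nlinarith
  have hQ1 : Q ≠ 1 := by
    refine gtw_ne hb hS d2q (by omega) ?_ ?_
    · intro h
      have h1 : 2 * q * 1 = 2 * q * (r * p) := by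
        rw [mul_one]
        exact h.trans (by rw [ha]; ring)
      have h2 := Nat.eq_of_mul_eq_mul_left (by omega) h1
      nlinarith
    · intro h
      have h1 : q * 1 = q * (2 * r * p) := by
        calc q * 1 = a := by rw [mul_one]; exact h
          _ = q * (2 * r * p) := by rw [ha]; ring
      have h2 := Nat.eq_of_mul_eq_mul_left (by omega) h1
      nlinarith
  have hRQ1 : R * Q ≠ 1 := by
    have h0 : (QuotientGroup.mk (cls (r6 S (r * q))) : CG S) ≠ 1 := by
      refine gtw_ne hb hS d2rq ?_ ?_ ?_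
      · intro h
        nlinarith
      · intro h
        have h1 : 2 * (r * q) * 1 = 2 * (r * q) * p := by
          rw [mul_one]
          exact h.trans (by rw [ha]; ring)
        have h2 := Nat.eq_of_mul_eq_mul_left (by positivity) h1
        omega
      · intro h
        have h1 : (r * q) * 1 = (r * q) * (2 * p) := by
          calc (r * q) * 1 = a := by rw [mul_one]; exact h
            _ = (r * q) * (2 * p) := by rw [ha]; ring
        have h2 := Nat.eq_of_mul_eq_mul_left (by positivity) h1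
        omega
    rw [gtw_mul hb hS drq, QuotientGroup.mk_mul] at h0
    exact h0
  refine ⟨⟨r6 S (a / 2) * r6 S r, hN1⟩, ⟨Ideal.span {1 + S} * r6 S (r * q), hN2⟩, rfl, rfl, ?_, ?_,
    ?_, ?_⟩
  · rw [hρ]; exact hR1
  · rw [ha0]; exact hRQ1
  · rw [hρ, ha0]
    intro h
    have h1 : R * 1 = R * Q := by rw [mul_one]; exact h
    exact hQ1 (mul_left_cancel h1).symm
  · intro g
    rw [hρ, ha0]
    have hq' : R * (R * Q) = Q := by rw [← mul_assoc, hRR, one_mul]
    rw [hq']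
    constructor
    · intro hg
      obtain ⟨C, rfl⟩ := QuotientGroup.mk_surjective g
      rw [← QuotientGroup.mk_mul] at hg
      have hCC : C * C = 1 := by
        rcases (gtw_zp hb hS _).1 hg with h1 | h1
        · exact h1
        · exact absurd h1 (two_nsq hb hS hτ hq (Or.inr hq8) dq C)
      obtain ⟨d, hd, rfl⟩ := hil6 hb hS hτ hCC
      rw [ha] at hd
      obtain ⟨x, z, hx, hz, rfl⟩ := (Nat.dvd_mul).1 hd
      obtain ⟨x', y, hx', hy, rfl⟩ := (Nat.dvd_mul).1 hx
      obtain ⟨u, v, hu, hv, rfl⟩ := (Nat.dvd_mul).1 hx'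
      have hu1 := (Nat.dvd_prime Nat.prime_two).1 hu
      have hv1 := (Nat.dvd_prime hr).1 hv
      have hy1 := (Nat.dvd_prime hp).1 hy
      have hz1 := (Nat.dvd_prime hq).1 hz
      have hdd : u * v * y ∣ 2 * r * p * q := (dvd_mul_right _ _).trans hd
      have hddd : u * v ∣ 2 * r * p * q := (dvd_mul_right _ _).trans hdd
      rw [gtw_mul hb hS hd, gtw_mul hb hS hdd, gtw_mul hb hS hddd]
      simp only [QuotientGroup.mk_mul]
      have e1 : (QuotientGroup.mk (cls (r6 S 1)) : CG S) = 1 := by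
        rw [gtw_one hb hS, QuotientGroup.mk_one]
      have hu2 : (QuotientGroup.mk (cls (r6 S u)) : CG S) = 1 := by
        rcases hu1 with rfl | rfl
        · exact e1
        · exact hT
      have hv2 : (QuotientGroup.mk (cls (r6 S v)) : CG S) = 1 ∨
          (QuotientGroup.mk (cls (r6 S v)) : CG S) = R := by
        rcases hv1 with rfl | rfl
        · exact Or.inl e1
        · exact Or.inr rfl
      have hy2 : (QuotientGroup.mk (cls (r6 S y)) : CG S) = 1 ∨
          (QuotientGroup.mk (cls (r6 S y)) : CG S) = R * Q := by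
        rcases hy1 with rfl | rfl
        · exact Or.inl e1
        · exact Or.inr hPe
      have hz2 : (QuotientGroup.mk (cls (r6 S z)) : CG S) = 1 ∨
          (QuotientGroup.mk (cls (r6 S z)) : CG S) = Q := by
        rcases hz1 with rfl | rfl
        · exact Or.inl e1
        · exact Or.inr rfl
      rw [hu2, one_mul]
      rcases hv2 with h1 | h1 <;> rcases hy2 with h2 | h2 <;> rcases hz2 with h3 | h3 <;>
        rw [h1, h2, h3]
      · left; rw [one_mul, one_mul]
      · right; right; right; rw [one_mul, one_mul]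
      · right; right; left; rw [one_mul, mul_one]
      · right; left; rw [one_mul, mul_assoc, hQQ, mul_one]
      · right; left; rw [mul_one, mul_one]
      · right; right; left; rw [mul_one]
      · right; right; right; rw [mul_one, hq']
      · left; rw [hq', hQQ]
    · rintro (rfl | rfl | rfl | rfl)
      · exact mul_one 1
      · exact hRR
      · rw [mul_mul_mul_comm, hRR, hQQ, one_mul]
      · exact hQQ

end Pool.Agent.Work.MP_8efaaa_nt.V6
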