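import Mathlib
import Pool.Agent.Work.MP_8efaaa_nt.V6.Defs

/-!
# V6/Abs (M): the abstract lemma

`G` a finite abelian group (multiplicative) with exactly four elements with `g * g = 1`, so `4 ∣ card G`. At `E1`: `g ↦ ω g⁻¹` is an involution without fixed points: `∑ f ≡ (card G / 2) T1 = (card G / 4) n1` modulo `E1` (`T1 + T1 = n1`; `card G / 2` is even). With `htor`, `hE1` (`n1 + n1 = 0`, so `16 (∑ f - ..) = 0`): `∑ f = (card G / 4) n1`.
At `E2`: the fixed points of `g ↦ ω' g⁻¹` are `g0, ρ g0, a0 g0, ρ a0 g0`; the others are `(card G - 4) / 2` pairs, so they give `((card G - 4) / 2) T2 = (card G / 4 - 1) n1`. The fixed ones: `f g0 + f (ρ g0) ≡ f g0 - φ (f g0) + T3`, `f (a0 g0) + f (ρ a0 g0) ≡ f (a0 g0) - φ (f (a0 g0)) + T3`. With `D = f (a0 g0) - f g0`: the sum is `2 f g0 - φ (2 f g0) + (D - φ D) + 2 T3`, `2 f g0 ≡ T2` (h2 with `g = g0`), `φ (2 f g0) ≡ φ T2` (`hE2`), `D - φ D ≡ n1` (`hloc`), `2 T3 = n1`; together `0`. So `∑ f ≡ (card G / 4 - 1) n1`, and `n1 ∈ E2`, contradiction.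
Hint for pairs without fixed points: `Finset.sum_involution`-like argument or a half system; see `W14/DSu.lean`, `W5/CTw.lean` (`half_sys`), `M7/ESm4.lean`; working in the quotient `A ⧸ E` helps.
-/

set_option autoImplicit false

namespace Pool.Agent.Work.MP_8efaaa_nt.V6

open NumberField Pool.Agent.Work.MP_8efaaa_nt.R Pool.Agent.Work.MP_8efaaa_nt.N5
  Pool.Agent.Work.MP_8efaaa_nt.K6 Pool.Agent.Work.MP_8efaaa_nt.W14
open scoped Classical nonZeroDivisors

private theorem half_sum {G B : Type*} [DecidableEq G] [AddCommGroup B] (σ : G → G) (f : G → B) (T : B)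
    (s : Finset G) (h1 : ∀ g ∈ s, σ g ∈ s) (h2 : ∀ g ∈ s, σ (σ g) = g) (h3 : ∀ g ∈ s, σ g ≠ g)
    (h4 : ∀ g ∈ s, f (σ g) + f g = T) : ∃ k : ℕ, s.card = 2 * k ∧ ∑ g ∈ s, f g = k • T := by
  induction s using Finset.strongInduction with
  | H s ih =>
    rcases s.eq_empty_or_nonempty with rfl | ⟨g, hg⟩
    · exact ⟨0, by simp, by simp⟩
    · have hsg : σ g ∈ s := h1 g hg
      have hne : σ g ≠ g := h3 g hg
      have hmem : ∀ x, x ∈ (s.erase g).erase (σ g) ↔ x ≠ σ g ∧ x ≠ g ∧ x ∈ s := by
        intro x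
        rw [Finset.mem_erase, Finset.mem_erase]
      have hsg' : σ g ∈ s.erase g := Finset.mem_erase.2 ⟨hne, hsg⟩
      obtain ⟨k, hk1, hk2⟩ := ih ((s.erase g).erase (σ g)) (by
          refine Finset.ssubset_of_subset_of_ssubset (Finset.erase_subset _ _)
            (Finset.erase_ssubset hg))
        (by
          intro x hx
          rw [hmem] at hx
          obtain ⟨ha, hb, hc⟩ := hx
          rw [hmem]
          refine ⟨?_, ?_, h1 x hc⟩
          · intro he
            apply hb
            rw [← h2 x hc, he, h2 g hg]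
          · intro he
            apply ha
            rw [← h2 x hc, he])
        (fun x hx => h2 x ((hmem x).1 hx).2.2) (fun x hx => h3 x ((hmem x).1 hx).2.2)
        (fun x hx => h4 x ((hmem x).1 hx).2.2)
      refine ⟨k + 1, ?_, ?_⟩
      · have e1 := Finset.card_erase_of_mem hsg'
        have e2 := Finset.card_erase_of_mem hg
        have p1 : 0 < s.card := Finset.card_pos.2 ⟨g, hg⟩
        have p2 : 0 < (s.erase g).card := Finset.card_pos.2 ⟨σ g, hsg'⟩
        omega
      · rw [← Finset.add_sum_erase s f hg, ← Finset.add_sum_erase (s.erase g) f hsg', hk2,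
          add_smul, one_smul, ← h4 g hg]
        abel

theorem abs6 {G A : Type*} [CommGroup G] [Fintype G] [AddCommGroup A] {f : G → A}
    {E1 E2 : AddSubgroup A} {φ : A →+ A} {ω ω' ρ a0 g0 : G} {T1 T2 T3 n1 : A}
    (hn : n1 + n1 = 0) (hT1 : T1 + T1 = n1) (hT2 : T2 + T2 = n1) (hT3 : T3 + T3 = n1)
    (h1 : ∀ g, f (ω * g⁻¹) + f g - T1 ∈ E1) (hω : ∀ g, g * g ≠ ω)
    (h2 : ∀ g, f (ω' * g⁻¹) + f g - T2 ∈ E2) (hg0 : g0 * g0 = ω')
    (hρ : ρ ≠ 1) (ha0 : a0 ≠ 1) (hρa : ρ ≠ a0)
    (hG : ∀ g : G, g * g = 1 ↔ g = 1 ∨ g = ρ ∨ g = a0 ∨ g = ρ * a0)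
    (hf : ∀ g, f (ρ * g) + φ (f g) - T3 ∈ E2) (hφT : T2 - φ T2 ∈ E2)
    (hE2 : ∀ e ∈ E2, φ e ∈ E2)
    (hloc : (f (a0 * g0) - f g0) - φ (f (a0 * g0) - f g0) - n1 ∈ E2)
    (hE1 : ∀ e ∈ E1, (16 : ℤ) • e = 0 → e = 0) (htor : (16 : ℤ) • ∑ g, f g = 0)
    (hn1 : n1 ∉ E2) : False := by
  classical
  have hρ2 : ρ * ρ = 1 := (hG ρ).2 (Or.inr (Or.inl rfl))
  have ha2 : a0 * a0 = 1 := (hG a0).2 (Or.inr (Or.inr (Or.inl rfl)))
  have hρ0 : ρ * a0 ≠ 1 := by
    intro h
    apply hρa
    have : ρ * a0 = a0 * a0 := by rw [h, ha2]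
    exact mul_right_cancel this
  -- the four fixed points
  set g1 := ρ * g0 with hg1
  set g2 := a0 * g0 with hg2
  set g3 := ρ * (a0 * g0) with hg3
  have n01 : g0 ≠ g1 := by
    intro h
    apply hρ
    exact mul_eq_right.1 h.symm
  have n02 : g0 ≠ g2 := by
    intro h
    apply ha0
    exact mul_eq_right.1 h.symm
  have n03 : g0 ≠ g3 := by
    intro h
    apply hρ0
    rw [hg3, ← mul_assoc] at h
    exact mul_eq_right.1 h.symm
  have n12 : g1 ≠ g2 := by
    intro h
    exact hρa (mul_right_cancel h)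
  have n13 : g1 ≠ g3 := by
    intro h
    rw [hg1, hg3] at h
    have := mul_left_cancel h
    exact n02 this
  have n23 : g2 ≠ g3 := by
    intro h
    rw [hg3, ← hg2] at h
    exact hρ (mul_eq_right.1 h.symm)
  have hfix : ∀ g : G, ω' * g⁻¹ = g ↔ g = g0 ∨ g = g1 ∨ g = g2 ∨ g = g3 := by
    intro g
    have e1 : ω' * g⁻¹ = g ↔ (g * g0⁻¹) * (g * g0⁻¹) = 1 := by
      rw [mul_inv_eq_iff_eq_mul, ← hg0]
      constructor
      · intro h
        have : (g * g0⁻¹) * (g * g0⁻¹) = (g * g) * (g0 * g0)⁻¹ := by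
          rw [mul_inv]
          exact mul_mul_mul_comm _ _ _ _
        rw [this, h, mul_inv_cancel]
      · intro h
        have : (g * g0⁻¹) * (g * g0⁻¹) = (g * g) * (g0 * g0)⁻¹ := by
          rw [mul_inv]
          exact mul_mul_mul_comm _ _ _ _
        rw [this, mul_inv_eq_one] at h
        exact h.symm
    rw [e1, hG, mul_inv_eq_iff_eq_mul, mul_inv_eq_iff_eq_mul, mul_inv_eq_iff_eq_mul,
      mul_inv_eq_iff_eq_mul, one_mul, mul_assoc ρ a0 g0]
  -- first step
  obtain ⟨k, hk1, hk2⟩ := half_sum (fun g : G => ω * g⁻¹)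
    (fun g => QuotientAddGroup.mk' E1 (f g)) (QuotientAddGroup.mk' E1 T1) Finset.univ
    (fun _ _ => Finset.mem_univ _) (fun g _ => by simp) (fun g _ h => by
      apply hω g
      rw [mul_inv_eq_iff_eq_mul] at h
      exact h.symm) (fun g _ => by
      rw [← map_add]
      have := h1 g
      rw [← sub_eq_zero, ← map_sub]
      exact (QuotientAddGroup.eq_zero_iff _).2 this)
  -- second step
  obtain ⟨l, hl1, hl2⟩ := half_sum (fun g : G => ω' * g⁻¹)
    (fun g => QuotientAddGroup.mk' E2 (f g)) (QuotientAddGroup.mk' E2 T2)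
    (Finset.univ \ {g0, g1, g2, g3})
    (fun g hg => by
      rw [Finset.mem_sdiff] at hg ⊢
      refine ⟨Finset.mem_univ _, fun h => hg.2 ?_⟩
      simp only [Finset.mem_insert, Finset.mem_singleton] at h ⊢
      have := (hfix _).2 h
      rw [← hfix]
      rw [mul_inv, inv_inv, ← mul_assoc, mul_inv_cancel, one_mul] at this
      exact this.symm)
    (fun g _ => by simp) (fun g hg h => by
      rw [Finset.mem_sdiff] at hg
      apply hg.2
      simp only [Finset.mem_insert, Finset.mem_singleton]
      exact (hfix g).1 h) (fun g _ => by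
      rw [← map_add]
      have := h2 g
      rw [← sub_eq_zero, ← map_sub]
      exact (QuotientAddGroup.eq_zero_iff _).2 this)
  have hc4 : ({g0, g1, g2, g3} : Finset G).card = 4 := by
    rw [Finset.card_insert_of_notMem, Finset.card_insert_of_notMem, Finset.card_insert_of_notMem,
      Finset.card_singleton]
    · simp [n23]
    · simp [n12, n13]
    · simp [n01, n02, n03]
  have hcu : (Finset.univ \ {g0, g1, g2, g3} : Finset G).card + 4 = (Finset.univ : Finset G).card := by
    rw [← hc4]
    exact Finset.card_sdiff_add_card_eq_card (Finset.subset_univ _)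
  -- card G = 4 m
  have h4d : 4 ∣ (Finset.univ : Finset G).card := by
    let H : Subgroup G :=
      { carrier := {g | g * g = 1}
        mul_mem' := by
          intro a b ha hb
          show (a * b) * (a * b) = 1
          have ha' : a * a = 1 := ha
          have hb' : b * b = 1 := hb
          rw [mul_mul_mul_comm, ha', hb', one_mul]
        one_mem' := by
          show (1 : G) * 1 = 1
          rw [one_mul]
        inv_mem' := by
          intro a ha
          have ha' : a * a = 1 := ha
          show a⁻¹ * a⁻¹ = 1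
          rw [← mul_inv, ha', inv_one] }
    have hH : Nat.card H = 4 := by
      have e : (H : Set G) = (({1, ρ, a0, ρ * a0} : Finset G) : Set G) := by
        ext g
        simp only [Finset.coe_insert, Finset.coe_singleton, Set.mem_insert_iff,
          Set.mem_singleton_iff]
        exact hG g
      have e2 : Nat.card H = ({1, ρ, a0, ρ * a0} : Finset G).card := by
        have : Nat.card H = Nat.card (H : Set G) := rfl
        rw [this, e, Nat.card_coe_set_eq, Set.ncard_coe_finset]
      rw [e2, Finset.card_insert_of_notMem, Finset.card_insert_of_notMem,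
        Finset.card_insert_of_notMem, Finset.card_singleton]
      · simp only [Finset.mem_singleton]
        intro h
        exact hρ (mul_eq_right.1 h.symm)
      · simp only [Finset.mem_insert, Finset.mem_singleton]
        rintro (h | h)
        · exact hρa h
        · exact ha0 (mul_eq_left.1 h.symm)
      · simp only [Finset.mem_insert, Finset.mem_singleton]
        rintro (h | h | h)
        · exact hρ h.symm
        · exact ha0 h.symm
        · exact hρ0 h.symm
    have := Subgroup.card_subgroup_dvd_card H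
    rw [hH, Nat.card_eq_fintype_card, ← Finset.card_univ] at this
    exact this
  obtain ⟨m, hm⟩ := h4d
  have hkm : k = 2 * m := by omega
  have hlm : l + 2 = 2 * m := by omega
  -- 16 n1 = 0
  have h16n : (16 : ℤ) • n1 = 0 := by
    have : (2 : ℤ) • n1 = 0 := by
      rw [two_zsmul]
      exact hn
    have e : (16 : ℤ) = 8 * 2 := by norm_num
    rw [e, mul_smul, this, smul_zero]
  have hS1 : ∑ g, f g = m • n1 := by
    have hmem : ∑ g, f g - m • n1 ∈ E1 := by
      rw [← QuotientAddGroup.eq_zero_iff]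
      have e : QuotientAddGroup.mk' E1 (∑ g, f g - m • n1) = 0 := by
        rw [map_sub, map_sum, hk2, hkm, ← map_nsmul, ← map_sub, mul_comm, mul_smul, two_smul,
          hT1, sub_self, map_zero]
      exact e
    have h0 := hE1 _ hmem (by
      rw [smul_sub, htor, zero_sub, neg_eq_zero, smul_comm, h16n, smul_zero])
    exact sub_eq_zero.1 h0
  have hS2 : ∑ g, f g + n1 - m • n1 ∈ E2 := by
    rw [← QuotientAddGroup.eq_zero_iff]
    have hsplit : ∑ g, f g = ∑ g ∈ (Finset.univ \ {g0, g1, g2, g3} : Finset G), f g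
        + (f g0 + (f g1 + (f g2 + f g3))) := by
      rw [← Finset.sum_sdiff (Finset.subset_univ ({g0, g1, g2, g3} : Finset G))]
      congr 1
      rw [Finset.sum_insert, Finset.sum_insert, Finset.sum_insert, Finset.sum_singleton]
      · simp [n23]
      · simp [n12, n13]
      · simp [n01, n02, n03]
    set π := QuotientAddGroup.mk' E2 with hπ
    have hz : ∀ x ∈ E2, π x = 0 := fun x hx => (QuotientAddGroup.eq_zero_iff _).2 hx
    have q0 := hz _ (hf g0)
    have q1 := hz _ (hf (a0 * g0))
    have q2 := hz _ hφT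
    have q3 := hz _ hloc
    have q4 := hz _ (h2 g0)
    have q5 := hz _ (hE2 _ (h2 g0))
    have hfx : ω' * g0⁻¹ = g0 := (hfix g0).2 (Or.inl rfl)
    rw [hfx] at q4 q5
    simp only [map_sub, map_add] at q0 q1 q2 q3 q4 q5
    have hln : π (∑ g ∈ (Finset.univ \ {g0, g1, g2, g3} : Finset G), f g) = l • π T2 := by
      rw [map_sum]
      exact hl2
    have hlT : l • π T2 + π n1 - m • π n1 = 0 := by
      have e : m • π n1 = (l + 2) • π T2 := by
        rw [hlm, mul_comm, mul_smul, two_smul, ← map_add, hT2]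
      rw [e, add_smul, two_smul, ← map_add π T2 T2, hT2]
      abel
    have hfour : π (f g0) + (π (f g1) + (π (f g2) + π (f g3))) = 0 := by
      have hT3' : π T3 + π T3 = π n1 := by rw [← map_add, hT3]
      have hn' : π n1 + π n1 = 0 := by rw [← map_add, hn, map_zero]
      have e0 : π (f g1) = π T3 - π (φ (f g0)) := by
        have : π (f g1) + π (φ (f g0)) - π T3 = 0 := q0
        rw [sub_eq_zero] at this
        rw [← this]
        abel
      have e1 : π (f g3) = π T3 - π (φ (f g2)) := by
        have : π (f g3) + π (φ (f g2)) - π T3 = 0 := q1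
        rw [sub_eq_zero] at this
        rw [← this]
        abel
      have e4 : π (f g0) + π (f g0) = π T2 := by
        rw [← sub_eq_zero]
        exact q4
      have e5 : π (φ (f g0)) + π (φ (f g0)) = π (φ T2) := by
        rw [← sub_eq_zero]
        exact q5
      have e2 : π T2 = π (φ T2) := by
        rw [← sub_eq_zero]
        exact q2
      have e3 : π (f g2) - π (f g0) - (π (φ (f g2)) - π (φ (f g0))) = π n1 := by
        rw [← sub_eq_zero]
        exact q3
      have e3' : π (f g2) = π n1 + π (f g0) + π (φ (f g2)) - π (φ (f g0)) := by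
        rw [← e3]
        abel
      rw [e0, e1]
      calc π (f g0) + (π T3 - π (φ (f g0)) + (π (f g2) + (π T3 - π (φ (f g2)))))
          = (π T3 + π T3) + π (f g0) + (π (f g2) - π (φ (f g2))) - π (φ (f g0)) := by abel
        _ = (π T3 + π T3) + (π (f g0) + π (f g0)) - (π (φ (f g0)) + π (φ (f g0))) + π n1 := by
            rw [e3']
            abel
        _ = 0 := by
            rw [hT3', e4, e5, e2, add_sub_cancel_right, hn']
    show π (∑ g, f g + n1 - m • n1) = 0
    rw [hsplit]
    simp only [map_sub, map_add, map_nsmul]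
    rw [hln, hfour, add_zero]
    exact hlT
  apply hn1
  rw [hS1] at hS2
  have : m • n1 + n1 - m • n1 = n1 := by abel
  rwa [this] at hS2

end Pool.Agent.Work.MP_8efaaa_nt.V6
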