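import Mathlib
import Pool.Agent.Work.MP_8efaaa_nt.V6.Defs
import Pool.Agent.Work.MP_8efaaa_nt.V6.PEx
import Pool.Agent.Work.MP_8efaaa_nt.V6.PEt
import Pool.Agent.Work.MP_8efaaa_nt.V6.GPi
import Pool.Agent.Work.MP_8efaaa_nt.V6.QFa
import Pool.Agent.Work.MP_8efaaa_nt.V6.LLe
import Pool.Agent.Work.MP_8efaaa_nt.W14.CEq
import Pool.Agent.Work.MP_8efaaa_nt.K6.ARg
import Pool.Agent.Work.MP_8efaaa_nt.K6.ARm

/-!
# V6/SLo (M): the difference of two fixed classes at `r = 3 (mod 8)`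

`P = PP z k v`. `c ∈ M1 K` with `clN S c = g0` (`hsu`), `c' = a0 * c`. The norms are all `1 (mod 8)`. `clN (w0 * cj τ c) = clN w0 * g0⁻¹ = g0 = clN c` (`hg0`; `cls_cj`), so by `kk_px` there is `ε`, `ε + ε = 0`, with `P (w0 * cj τ c * y) = P (c * y) + ε` for all odd `y`.
(1) `P (a0 * (a0 * y)) = P y + em` for odd `y`: `a0 * a0 = (1+S)^2 * (r q)` (`r6_sq`), `r q = 7 (mod 8)`: `nat_px` gives `P ((r q) y) = P y`, and `P ((1+S)((1+S) y)) = P y + em` (`tq_px` twice, `N ((1+S) y) = 3 N y (mod 4)`). (2) `P (a0 * (cj τ a0 * y)) = P ((N a0) * y) = P y` (`norm_cj6`, `nat_px`, `N a0 = 1 (mod 8)`).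
(3) `clN (a0 * c) = clN (cj τ a0 * c)` (`a0 * a0` is principal), `kk_px`: `P (a0 * c * y) = P (cj τ a0 * c * y) + ε'` for all odd `y`; with `y = a0`, (1), (2): `ε' = em`. So `P (a0 * c) = P (cj τ a0 * c) + em`.
(4) `h` at `c` and at `c'` (`cj τ c' = cj τ a0 * cj τ c`): `P (w0 * cj τ c) = P c + ε` (`y = 1`), `P (w0 * cj τ c') = P (c * cj τ a0) + ε = P c' + em + ε`. So `2 P c + ε - (T + em) ∈ E1`, `2 P c' + em + ε - (T + em) ∈ E1`, hence `x + x + em ∈ E1 V`, `x = P c' - P c`, and `loc_em` gives `x - gal φ x - ep ∈ E1 V`.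
(5) `qn x = PB c' - PB c = f (clN a0 * g0) - f g0 + dd(N a0)`-ish: `f (clN a0 * g0) - f g0 = qn x + dd (N a0)` (`HPi`, `dd_mul`, `dd_add`), `galB φ (dd _) = dd _`; `qn ep = n1`.
-/

set_option autoImplicit false

namespace Pool.Agent.Work.MP_8efaaa_nt.V6

open NumberField Pool.Agent.Work.MP_8efaaa_nt.R Pool.Agent.Work.MP_8efaaa_nt.N5
  Pool.Agent.Work.MP_8efaaa_nt.K6 Pool.Agent.Work.MP_8efaaa_nt.W14
open scoped Classical nonZeroDivisors

variable {K F : Type*} [Field K] [NumberField K] [Field F] [NumberField F] [Algebra K F] {a : ℕ}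
  {s : K} {S : 𝓞 K} {τ : 𝓞 K ≃+* 𝓞 K} {ζ : F} {w : ℕ → F} {z k v : Ideal (𝓞 K) → F}
  {κ : F ≃ₐ[ℚ] F}

theorem fix_loc (hb : B6 K a s) (hS : algebraMap (𝓞 K) K S = s) (hτ : τ S = -S)
    (ha : a % 16 = 6) (hU : UD6 K F a s S τ ζ w z k v κ) {T : (cQ F).Point}
    (hT : ∀ c, OddI c → PP z k v (Ideal.span {1 + S} * c) + PP z k v c =
        T + if Ideal.absNorm c % 4 = 1 then 0 else W14.em F) {Γ : Type}
    [LinearOrderedCommGroupWithZero Γ] {V : Valuation F Γ} (h2 : V 2 = 1) {r q : ℕ}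
    (hr8 : r % 8 = 3) (hq8 : q % 8 = 5) (hrq : r * q ∣ a) {φ : F ≃ₐ[K] F}
    (hφ : ∀ x : F, V x ≤ 1 → V (φ x) ≤ 1 ∧ V (φ x - x ^ r) < 1)
    (hφ' : ∀ x : F, 1 < V x → 1 < V (φ x)) {w0 a0 : M1 K}
    (h : ∀ c ∈ M1 K, PP z k v ((w0 : Ideal (𝓞 K)) * cj τ c) + PP z k v c - (T + W14.em F) ∈ W5.E1 V)
    (ha0 : (a0 : Ideal (𝓞 K)) = Ideal.span {1 + S} * r6 S (r * q)) {f : CG S → QB F}
    (hf : HPi S z k v f) (hsu : Function.Surjective (clN S)) {g0 : CG S}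
    (hg0 : g0 * g0 = clN S w0) :
    (f (clN S a0 * g0) - f g0) - galB φ (f (clN S a0 * g0) - f g0) - n1 F ∈ EB V := by
  obtain ⟨c, hc⟩ := hsu g0
  have hem : W14.em F + W14.em F = 0 := two_ep.2.1
  -- the conjugates
  let bar : M1 K → M1 K := fun c => ⟨cj τ (c : Ideal (𝓞 K)), by
    show Ideal.absNorm (cj τ (c : Ideal (𝓞 K))) % 8 = 1
    rw [(norm_cj6 hb hS hτ _).1]
    exact c.2⟩
  have hbar : ∀ c : M1 K, clN S (bar c) = (clN S c)⁻¹ := by
    intro c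
    show (QuotientGroup.mk (cls (cj τ (c : Ideal (𝓞 K)))) : CG S) =
      (QuotientGroup.mk (cls (c : Ideal (𝓞 K))))⁻¹
    rw [(cls_cj hb hS hτ (M1.ne c.2)).2]
    rfl
  have hco : OddI (c : Ideal (𝓞 K)) := M1.odd c.2
  have hao : OddI (a0 : Ideal (𝓞 K)) := M1.odd a0.2
  have hcja : OddI (cj τ (a0 : Ideal (𝓞 K))) := M1.odd (bar a0).2
  -- the first comparison
  obtain ⟨ε, hε, -, hεx⟩ := kk_px hb hS hτ ha hU (b := w0 * bar c) (c := c) (by
    rw [map_mul, hbar, hc, ← hg0]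
    group)
  have hεx' : ∀ x, OddI x → PP z k v ((w0 : Ideal (𝓞 K)) * cj τ (c : Ideal (𝓞 K)) * x) =
      PP z k v ((c : Ideal (𝓞 K)) * x) + ε := hεx
  -- the square of `a0`
  have hrqa : (r * q) % 8 = 7 := by
    rw [Nat.mul_mod, hr8, hq8]
  have hrqo : Odd (r * q) := by
    rw [Nat.odd_iff]
    omega
  have hng : Ideal.absNorm (Ideal.span {(1 : 𝓞 K) + S}) % 8 = 7 := by
    rw [norm_g hb hS]
    omega
  have hgo : OddI (Ideal.span {(1 : 𝓞 K) + S}) := by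
    unfold OddI
    rw [Nat.odd_iff]
    omega
  have hqq : ∀ y, OddI y → PP z k v (Ideal.span {1 + S} * (Ideal.span {1 + S} * y)) =
      PP z k v y + W14.em F := by
    intro y hy
    have h1 := hT y hy
    have h3 := hT (Ideal.span {1 + S} * y) (hgo.mul hy)
    have h4 : Ideal.absNorm (Ideal.span {(1 : 𝓞 K) + S} * y) % 4 =
        3 * (Ideal.absNorm y % 4) % 4 := by
      rw [map_mul, Nat.mul_mod]
      congr 2
      omega
    have hy' := hy
    unfold OddI at hy'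
    rw [Nat.odd_iff] at hy'
    rcases (by omega : Ideal.absNorm y % 4 = 1 ∨ Ideal.absNorm y % 4 = 3) with h5 | h5
    · rw [if_pos h5] at h1
      rw [if_neg (by rw [h4, h5]; norm_num)] at h3
      calc PP z k v (Ideal.span {1 + S} * (Ideal.span {1 + S} * y))
          = (PP z k v (Ideal.span {1 + S} * (Ideal.span {1 + S} * y)) +
              PP z k v (Ideal.span {1 + S} * y)) -
            (PP z k v (Ideal.span {1 + S} * y) + PP z k v y) + PP z k v y := by abel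
        _ = (T + W14.em F) - (T + 0) + PP z k v y := by rw [h3, h1]
        _ = PP z k v y + W14.em F := by abel
    · rw [if_neg (by rw [h5]; norm_num)] at h1
      rw [if_pos (by rw [h4, h5])] at h3
      calc PP z k v (Ideal.span {1 + S} * (Ideal.span {1 + S} * y))
          = (PP z k v (Ideal.span {1 + S} * (Ideal.span {1 + S} * y)) +
              PP z k v (Ideal.span {1 + S} * y)) -
            (PP z k v (Ideal.span {1 + S} * y) + PP z k v y) + PP z k v y := by abel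
        _ = (T + 0) - (T + W14.em F) + PP z k v y := by rw [h3, h1]
        _ = PP z k v y + W14.em F - (W14.em F + W14.em F) := by abel
        _ = PP z k v y + W14.em F := by rw [hem, sub_zero]
  have haa : (a0 : Ideal (𝓞 K)) * a0 = Ideal.span {1 + S} * (Ideal.span {1 + S} *
      Ideal.span {((r * q : ℕ) : 𝓞 K)}) := by
    rw [ha0, ← r6_sq hb hS hrq]
    ring
  have h1 : ∀ y, OddI y → PP z k v ((a0 : Ideal (𝓞 K)) * ((a0 : Ideal (𝓞 K)) * y)) =
      PP z k v y + W14.em F := by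
    intro y hy
    rw [← mul_assoc, haa, mul_assoc, mul_assoc]
    have h3 := nat_px hb hS hU hrqo hy
    rw [if_pos (Or.inr hrqa), add_zero] at h3
    have ho : OddI (Ideal.span {((r * q : ℕ) : 𝓞 K)} * y) := by
      refine OddI.mul ?_ hy
      have h4 : OddI (Ideal.span {(1 : 𝓞 K) + S} * (Ideal.span {1 + S} *
          Ideal.span {((r * q : ℕ) : 𝓞 K)})) := haa ▸ hao.mul hao
      exact h4.of_mul.2.of_mul.2
    rw [hqq _ ho, h3]
  have hna : Ideal.absNorm (a0 : Ideal (𝓞 K)) % 8 = 1 := a0.2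
  have h2' : ∀ y, OddI y → PP z k v (cj τ (a0 : Ideal (𝓞 K)) * ((a0 : Ideal (𝓞 K)) * y)) =
      PP z k v y := by
    intro y hy
    have h3 : cj τ (a0 : Ideal (𝓞 K)) * ((a0 : Ideal (𝓞 K)) * y) =
        Ideal.span {((Ideal.absNorm (a0 : Ideal (𝓞 K)) : ℕ) : 𝓞 K)} * y := by
      rw [← (norm_cj6 hb hS hτ (a0 : Ideal (𝓞 K))).2.1]
      ring
    rw [h3, nat_px hb hS hU hao hy, if_pos (Or.inl hna), add_zero]
  -- the second comparison
  have hcl : clN S a0 = clN S (bar a0) := by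
    rw [hbar, eq_inv_iff_mul_eq_one, ← map_mul]
    show (QuotientGroup.mk (cls ((a0 : Ideal (𝓞 K)) * a0)) : CG S) = 1
    have h3 : (1 : 𝓞 K) + S ≠ 0 := by
      intro h4
      have h5 := hng
      rw [h4] at h5
      simp at h5
    have h4 : ((r * q : ℕ) : 𝓞 K) ≠ 0 := by
      have : r * q ≠ 0 := by omega
      exact_mod_cast this
    rw [haa, Ideal.span_singleton_mul_span_singleton, Ideal.span_singleton_mul_span_singleton,
      cls_span (mul_ne_zero h3 (mul_ne_zero h3 h4))]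
    rfl
  obtain ⟨ε', -, -, hε'x⟩ := kk_px hb hS hτ ha hU (b := a0) (c := bar a0) hcl
  have hε'x' : ∀ x, OddI x → PP z k v ((a0 : Ideal (𝓞 K)) * x) =
      PP z k v (cj τ (a0 : Ideal (𝓞 K)) * x) + ε' := hε'x
  have hε' : ε' = W14.em F := by
    have h3 := hε'x' ((a0 : Ideal (𝓞 K)) * c) (hao.mul hco)
    rw [h1 _ hco, h2' _ hco] at h3
    exact (add_left_cancel h3).symm
  have h3 : PP z k v ((a0 : Ideal (𝓞 K)) * c) =
      PP z k v (cj τ (a0 : Ideal (𝓞 K)) * c) + W14.em F := by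
    rw [hε'x' _ hco, hε']
  -- the relations at `c` and `a0 * c`
  have h4 := h (c : Ideal (𝓞 K)) c.2
  have h5 := h ((a0 : Ideal (𝓞 K)) * c) (mul_mem a0.2 c.2)
  have h6 := hεx' 1 (by unfold OddI; rw [map_one]; exact odd_one)
  rw [mul_one, mul_one] at h6
  have h7 := hεx' (cj τ (a0 : Ideal (𝓞 K))) hcja
  have h8 : (w0 : Ideal (𝓞 K)) * cj τ ((a0 : Ideal (𝓞 K)) * c) =
      (w0 : Ideal (𝓞 K)) * cj τ (c : Ideal (𝓞 K)) * cj τ (a0 : Ideal (𝓞 K)) := by
    rw [cj_mul6]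
    ring
  rw [h8, h7, mul_comm (c : Ideal (𝓞 K)) (cj τ (a0 : Ideal (𝓞 K)))] at h5
  rw [h6] at h4
  have h9 : (PP z k v ((a0 : Ideal (𝓞 K)) * c) - PP z k v (c : Ideal (𝓞 K))) +
      (PP z k v ((a0 : Ideal (𝓞 K)) * c) - PP z k v (c : Ideal (𝓞 K))) - W14.em F ∈
      W5.E1 V := by
    have h10 := sub_mem h5 h4
    have h11 : PP z k v (cj τ (a0 : Ideal (𝓞 K)) * c) =
        PP z k v ((a0 : Ideal (𝓞 K)) * c) - W14.em F := by
      rw [h3, add_sub_cancel_right]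
    rw [h11] at h10
    convert h10 using 1
    abel
  have h10 := loc_em h2 hr8 hU.z8 hφ hφ' h9
  -- the classes
  have h11 := hf (a0 * c)
  have h12 := hf c
  rw [map_mul, hc] at h11
  rw [hc] at h12
  have h13 : Ideal.absNorm ((a0 * c : M1 K) : Ideal (𝓞 K)) =
      Ideal.absNorm (a0 : Ideal (𝓞 K)) * Ideal.absNorm (c : Ideal (𝓞 K)) :=
    map_mul Ideal.absNorm (a0 : Ideal (𝓞 K)) (c : Ideal (𝓞 K))
  rw [h13, dd_mul hna c.2] at h11
  have h14 : f (clN S a0 * g0) - f g0 = qn (PP z k v ((a0 : Ideal (𝓞 K)) * c) -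
      PP z k v (c : Ideal (𝓞 K))) + dd F (Ideal.absNorm (a0 : Ideal (𝓞 K))) := by
    rw [← h11, ← h12, map_sub]
    show qn (PP z k v ((a0 : Ideal (𝓞 K)) * c)) + _ - (qn (PP z k v (c : Ideal (𝓞 K))) + _) = _
    abel
  have h15 : (f (clN S a0 * g0) - f g0) - galB φ (f (clN S a0 * g0) - f g0) - n1 F =
      qn ((PP z k v ((a0 : Ideal (𝓞 K)) * c) - PP z k v (c : Ideal (𝓞 K))) -
        gal φ (PP z k v ((a0 : Ideal (𝓞 K)) * c) - PP z k v (c : Ideal (𝓞 K))) - ep F) := by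
    rw [h14, map_add, galB_qn, (galB_n1 φ).2, map_sub qn _ (ep F),
      map_sub qn _ (gal φ (PP z k v ((a0 : Ideal (𝓞 K)) * c) - PP z k v (c : Ideal (𝓞 K)))),
      qn_em.2.2.1]
    abel
  rw [h15]
  exact AddSubgroup.mem_map_of_mem _ h10

end Pool.Agent.Work.MP_8efaaa_nt.V6
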