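import Mathlib
import Pool.Agent.Work.MP_8efaaa_nt.K6.CDt
import Pool.Agent.Work.MP_8efaaa_nt.K6.DIn
import Pool.Agent.Work.MP_8efaaa_nt.V6.Defs
import Pool.Agent.Work.MP_8efaaa_nt.V6.PEx
import Pool.Agent.Work.MP_8efaaa_nt.V6.QFa
import Pool.Agent.Work.MP_8efaaa_nt.V6.GSu
import Pool.Agent.Work.MP_8efaaa_nt.V6.GPi
import Pool.Agent.Work.MP_8efaaa_nt.V6.GTw
import Pool.Agent.Work.MP_8efaaa_nt.V6.GGe
import Pool.Agent.Work.MP_8efaaa_nt.V6.Abs
import Pool.Agent.Work.MP_8efaaa_nt.V6.STo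
import Pool.Agent.Work.MP_8efaaa_nt.V6.SIn
import Pool.Agent.Work.MP_8efaaa_nt.V6.SFr
import Pool.Agent.Work.MP_8efaaa_nt.V6.SLo
import Pool.Agent.Work.MP_8efaaa_nt.W14.DEx
import Pool.Agent.Work.MP_8efaaa_nt.W14.LPt

/-!
# V6/Main (helper33): the theorem

`2 r p q` is a congruent number for primes `r = 3`, `p = q = 5 (mod 8)`.
-/

set_option autoImplicit false

namespace Pool.Agent.Work.MP_8efaaa_nt.V6

open NumberField Pool.Agent.Work.MP_8efaaa_nt.R Pool.Agent.Work.MP_8efaaa_nt.N5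
  Pool.Agent.Work.MP_8efaaa_nt.K6 Pool.Agent.Work.MP_8efaaa_nt.W14
open scoped Classical nonZeroDivisors

private theorem sqf {r p q : ℕ} (hr : r.Prime) (hp : p.Prime) (hq : q.Prime) (hr8 : r % 8 = 3)
    (hp8 : p % 8 = 5) (hq8 : q % 8 = 5) (hpq : p ≠ q) : Squarefree (2 * r * p * q) := by
  have c1 : Nat.Coprime 2 r := (Nat.coprime_primes Nat.prime_two hr).2 (by omega)
  have c2 : Nat.Coprime 2 p := (Nat.coprime_primes Nat.prime_two hp).2 (by omega)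
  have c3 : Nat.Coprime 2 q := (Nat.coprime_primes Nat.prime_two hq).2 (by omega)
  have c4 : Nat.Coprime r p := (Nat.coprime_primes hr hp).2 (by omega)
  have c5 : Nat.Coprime r q := (Nat.coprime_primes hr hq).2 (by omega)
  have c6 : Nat.Coprime p q := (Nat.coprime_primes hp hq).2 hpq
  rw [Nat.squarefree_mul (Nat.Coprime.mul_left (Nat.Coprime.mul_left c3 c5) c6),
    Nat.squarefree_mul (Nat.Coprime.mul_left c2 c4), Nat.squarefree_mul c1]
  exact ⟨⟨⟨Nat.prime_two.squarefree, hr.squarefree⟩, hp.squarefree⟩, hq.squarefree⟩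

private theorem mod16 {r p q : ℕ} (hr8 : r % 8 = 3) (hp8 : p % 8 = 5) (hq8 : q % 8 = 5) :
    (2 * r * p * q) % 16 = 6 := by
  have h1 : (r * p * q) % 8 = 3 := by
    rw [Nat.mul_mod (r * p), Nat.mul_mod r, hr8, hp8, hq8]
  have h2 : 2 * r * p * q = 2 * (r * p * q) := by ring
  omega

/-- the symbols of the norm of `b`, from those of the divisors -/
private theorem recip1 {p n : ℕ} (hp : p % 4 = 1) (hn : Odd n) {e : ℤ}
    (h : jacobiSym p n = e) : jacobiSym n p = e := by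
  rw [← h]
  exact (jacobiSym.quadratic_reciprocity_one_mod_four hp hn).symm

theorem main_v6 {r p q : ℕ} (hr : r.Prime) (hp : p.Prime) (hq : q.Prime) (hr8 : r % 8 = 3)
    (hp8 : p % 8 = 5) (hq8 : q % 8 = 5) (hpq : p ≠ q) : IsCongruent (2 * r * p * q) := by
  by_contra hnc
  have hsf := sqf hr hp hq hr8 hp8 hq8 hpq
  have ha := mod16 hr8 hp8 hq8
  have hr2 : r ≠ 2 := by omega
  have hp2 : p ≠ 2 := by omega
  have hq2 : q ≠ 2 := by omega
  have hra : r ∣ 2 * r * p * q := ⟨2 * p * q, by ring⟩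
  have hpa : p ∣ 2 * r * p * q := ⟨2 * r * q, by ring⟩
  have hqa : q ∣ 2 * r * p * q := dvd_mul_left _ _
  have hrqa : r * q ∣ 2 * r * p * q := ⟨2 * p, by ring⟩
  have hrp : ¬ r ∣ p := fun h => by
    have := (Nat.prime_dvd_prime_iff_eq hr hp).1 h
    omega
  have hrq : ¬ r ∣ q := fun h => by
    have := (Nat.prime_dvd_prime_iff_eq hr hq).1 h
    omega
  have hpq' : ¬ p ∣ q := fun h => hpq ((Nat.prime_dvd_prime_iff_eq hp hq).1 h)
  have hqp' : ¬ q ∣ p := fun h => hpq ((Nat.prime_dvd_prime_iff_eq hq hp).1 h).symm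
  obtain ⟨K, _, _, s, hb⟩ := exists_base6 hsf (a := 2 * r * p * q) (by omega)
  obtain ⟨S, hS, -, -⟩ := exists_S6 hb
  obtain ⟨τ, hτ⟩ := exists_tau6 hb hS
  obtain ⟨F, _, _, _, _, _, _, ζ, w, z, k, v, κ, hU⟩ := exists_ud6 hb hS hτ
  obtain ⟨f, hf⟩ := exists_pi hb hS hτ ha hU
  obtain ⟨T, hTT, hT⟩ := tq_px hb hS hU
  have hsu := clN_surj hb hS ha
  obtain ⟨ρ, a0, hρ, ha0, hρ1, ha01, hρa, hG⟩ := exists_grp6 hr hp hq hr8 hp8 hq8 hpq hb hS hτ
  -- the places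
  obtain ⟨Lp, hLp', hLp⟩ := exists_prime6 (F := F) hp
  obtain ⟨Lq, hLq', hLq⟩ := exists_prime6 (F := F) hq
  obtain ⟨Lr, hLr', hLr⟩ := exists_prime6 (F := F) hr
  obtain ⟨Γp, _, Vp, hVp⟩ := exists_vl hLp'
  obtain ⟨Γq, _, Vq, hVq⟩ := exists_vl hLq'
  obtain ⟨Γr, _, Vr, hVr⟩ := exists_vl hLr'
  have h2p := (vl_odd hVp hp hp2 hLp).2.1
  have h2r := (vl_odd hVr hr hr2 hLr).2.1
  obtain ⟨bp, wp, hbp8, hbpc, hwp, hbp1, hbp2, hbpP⟩ :=
    in_pp hb hS hτ ha hU hT hVp hp hp2 hpa hLp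
  obtain ⟨bq, wq, hbq8, hbqc, hwq, hbq1, hbq2, hbqP⟩ :=
    in_pp hb hS hτ ha hU hT hVq hq hq2 hqa hLq
  obtain ⟨br, wr, hbr8, hbrc, hwr, hbr1, hbr2, hbrP⟩ :=
    in_pp hb hS hτ ha hU hT hVr hr hr2 hra hLr
  obtain ⟨φ, hφ, hφ', hφP⟩ := pp_frob hb hS hU hVr hr hr2 hra hLr
  obtain ⟨hpp, hppT⟩ := in_pi hb hS hτ ha hTT hbpP hf
  obtain ⟨hrr, hrrT⟩ := in_pi hb hS hτ ha hTT hbrP hf
  obtain ⟨T3, hT3, hfr⟩ := fr_pi hb hS ha hU hr8 hra hφP hρ hf hsu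
  -- symbols
  have hp4 : p % 4 = 1 := by omega
  have hq4 : q % 4 = 1 := by omega
  have obp : Odd (Ideal.absNorm bp) := Nat.odd_iff.2 (by omega)
  have obq : Odd (Ideal.absNorm bq) := Nat.odd_iff.2 (by omega)
  have obr : Odd (Ideal.absNorm br) := Nat.odd_iff.2 (by omega)
  have spp : jacobiSym (Ideal.absNorm bp) p = -1 := recip1 hp4 obp (hbp2 p hpa dvd_rfl)
  have spq : jacobiSym (Ideal.absNorm bp) q = 1 := recip1 hq4 obp (hbp1 q hqa hpq')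
  have sqp : jacobiSym (Ideal.absNorm bq) p = 1 := recip1 hp4 obq (hbq1 p hpa hqp')
  have sqq : jacobiSym (Ideal.absNorm bq) q = -1 := recip1 hq4 obq (hbq2 q hqa dvd_rfl)
  have srp : jacobiSym (Ideal.absNorm br) p = 1 := recip1 hp4 obr (hbr1 p hpa hrp)
  have srq : jacobiSym (Ideal.absNorm br) q = 1 := recip1 hq4 obr (hbr1 q hqa hrq)
  -- the element `1 + S`
  have hg := norm_g hb hS
  have hg7 : OddI (Ideal.span {1 + S}) := by
    unfold OddI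
    rw [hg, Nat.odd_iff]
    omega
  have h1S : (1 + S) ≠ 0 := by
    intro h
    rw [h] at hg7
    unfold OddI at hg7
    rw [Ideal.span_singleton_zero, Ideal.absNorm_bot] at hg7
    exact absurd hg7 (by decide)
  have hcl : ∀ {b : Ideal (𝓞 K)}, b ≠ 0 → cls (Ideal.span {1 + S} * b) = cls b := by
    intro b hb0
    rw [cls_mul (by
      intro h
      exact h1S (Ideal.span_singleton_eq_bot.1 h)) hb0, cls_span h1S, one_mul]
  have hne : ∀ {b : Ideal (𝓞 K)}, Ideal.absNorm b % 8 = 7 → b ≠ 0 := by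
    rintro b h rfl
    rw [map_zero] at h
    norm_num at h
  have hwN : ∀ {b : Ideal (𝓞 K)} {w0 : M1 K}, (w0 : Ideal (𝓞 K)) = Ideal.span {1 + S} * b →
      Ideal.absNorm (w0 : Ideal (𝓞 K)) = (1 + 2 * r * p * q) * Ideal.absNorm b := by
    intro b w0 h
    rw [h, map_mul, hg]
  have hcopa : Nat.Coprime (1 + 2 * r * p * q) (2 * r * p * q) := by
    rw [Nat.coprime_add_self_left]
    exact Nat.coprime_one_left _
  have hwc : ∀ {b : Ideal (𝓞 K)} {w0 : M1 K}, (w0 : Ideal (𝓞 K)) = Ideal.span {1 + S} * b →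
      Nat.Coprime (Ideal.absNorm b) (2 * r * p * q) →
      Nat.Coprime (Ideal.absNorm (w0 : Ideal (𝓞 K))) (2 * r * p * q) := by
    intro b w0 h hc
    rw [hwN h]
    exact Nat.Coprime.mul_left hcopa hc
  have hjac : ∀ {b : Ideal (𝓞 K)} {w0 : M1 K} {l : ℕ},
      (w0 : Ideal (𝓞 K)) = Ideal.span {1 + S} * b → l ∣ 2 * r * p * q →
      jacobiSym (Ideal.absNorm (w0 : Ideal (𝓞 K))) l = jacobiSym (Ideal.absNorm b) l := by
    intro b w0 l h hl
    have h1 : jacobiSym ((1 + 2 * r * p * q : ℕ) : ℤ) l = 1 := by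
      rw [jacobiSym.mod_left]
      have h2 : ((1 + 2 * r * p * q : ℕ) : ℤ) % (l : ℤ) = 1 % (l : ℤ) := by
        obtain ⟨m, hm⟩ := hl
        rw [hm]
        push_cast
        rw [Int.add_mul_emod_self_left]
      rw [h2, ← jacobiSym.mod_left, jacobiSym.one_left]
    rw [hwN h, Nat.cast_mul, jacobiSym.mul_left, h1, one_mul]
  have : Fintype (CG S) := Fintype.ofFinite _
  -- genus theory
  have hωp := gen_nsq hb hS hτ hp hq hp8 hq8 hpa hqa (hne hbp8) hbpc spp spq (w0 := wp)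
    (by rw [hwp]; exact hcl (hne hbp8))
  obtain ⟨g0, hg0⟩ := gen_sq hb hS hτ ha hp hq hp2 hq2 hpa hqa (e0 := clN S ρ) (e1 := clN S a0)
    (fun g hg => (hG g).1 hg) (u1 := wp) (u2 := wq) (u := wr) (hwc hwp hbpc) (hwc hwq hbqc)
    (hwc hwr hbrc) (by rw [hjac hwp hpa]; exact spp) (by rw [hjac hwp hqa]; exact spq)
    (by rw [hjac hwq hpa]; exact sqp) (by rw [hjac hwq hqa]; exact sqq)
    (by rw [hjac hwr hpa]; exact srp) (by rw [hjac hwr hqa]; exact srq)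
  have hloc := fix_loc hb hS hτ ha hU hT h2r hr8 hq8 hrqa hφ hφ' hbrP ha0 hf hsu hg0
  refine abs6 (f := f) (E1 := EB Vp) (E2 := EB Vr) (φ := galB φ) (n1 := n1 F)
    qn_em.2.2.2.1 hppT hrrT hT3 hpp hωp hrr hg0 hρ1 ha01 hρa hG hfr ?_ ?_ hloc ?_
    (sum_tor hb hS hτ ha hU hnc hf) (n1_nmem h2r)
  · rw [fr_T h2r hr8 hU.z8 hφ hTT]
    exact (EB Vr).zero_mem
  · rintro e ⟨R, hR, rfl⟩
    exact ⟨gal φ R, gal_e1 hφ' hR, rfl⟩
  · intro e he h
    exact eb_tors h2p he (n := 4) h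

end Pool.Agent.Work.MP_8efaaa_nt.V6
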